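import Pool.Agent.helper972_pfr.Shat

set_option autoImplicit false

/-! Vectors modulo `p` orthogonal to given independent vectors; independence modulo `p`. -/

open Finset

namespace H972P

open Pool.Agent.R934.LB (toE toE_apply toE_inj sq_nonneg' norm_toE red)

/-- squared length -/
abbrev sqn {n : ℕ} (z : Fin n → ℤ) : ℤ := Pool.Agent.R934.LB.sq z

theorem card_ann {p D n : ℕ} [hp : Fact p.Prime] (x : Fin D → Fin n → ZMod p)
    (hx : LinearIndependent (ZMod p) x) :
    ((Finset.univ : Finset (Fin n → ZMod p)).filter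
      (fun h => ∀ i, ∑ j, x i j * h j = 0)).card * p ^ D = p ^ n := by
  classical
  set M : Matrix (Fin D) (Fin n) (ZMod p) := Matrix.of x with hM
  have hr : M.rank = D := by
    have := LinearIndependent.rank_matrix (M := M) hx
    simpa using this
  have h1 := LinearMap.finrank_range_add_finrank_ker M.mulVecLin
  rw [Module.finrank_fin_fun] at h1
  have h2 : Module.finrank (ZMod p) (LinearMap.range M.mulVecLin) = D := hr
  rw [h2] at h1
  have h3 : Fintype.card (LinearMap.ker M.mulVecLin) =
      p ^ Module.finrank (ZMod p) (LinearMap.ker M.mulVecLin) := by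
    rw [← Nat.card_eq_fintype_card, Module.natCard_eq_pow_finrank (K := ZMod p), Nat.card_zmod]
  have h4 : ((Finset.univ : Finset (Fin n → ZMod p)).filter
      (fun h => ∀ i, ∑ j, x i j * h j = 0)).card = Fintype.card (LinearMap.ker M.mulVecLin) := by
    rw [Fintype.card_subtype]
    congr 1
    ext h
    simp only [Finset.mem_filter, Finset.mem_univ, true_and, LinearMap.mem_ker,
      Matrix.mulVecLin_apply]
    constructor
    · intro hh
      funext i
      exact hh i
    · intro hh i
      exact congrFun hh i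
  rw [h4, h3, ← pow_add]
  congr 1
  omega

theorem indep_mod {p D n R : ℕ} [hp : Fact p.Prime] (x : Fin D → Fin n → ℤ)
    (hx : LinearIndependent ℝ (fun i => toE (x i))) (hR : ∀ i, sqn (x i) ≤ R)
    (hpR : D.factorial * R ^ D < p) :
    LinearIndependent (ZMod p) (fun i => red p (x i)) := by
  classical
  obtain ⟨G, hG⟩ : ∃ G : Matrix (Fin D) (Fin D) ℤ, ∀ i j, G i j = ∑ k, x i k * x j k :=
    ⟨Matrix.of fun i j => ∑ k, x i k * x j k, fun i j => rfl⟩
  have hent : ∀ i j, |G i j| ≤ R := by
    intro i j
    have h1 : (∑ k, x i k * x j k) ^ 2 ≤ (∑ k, x i k ^ 2) * ∑ k, x j k ^ 2 :=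
      Finset.sum_mul_sq_le_sq_mul_sq _ _ _
    have h2 : (∑ k, x i k ^ 2) * ∑ k, x j k ^ 2 ≤ (R : ℤ) * R :=
      mul_le_mul (hR i) (hR j) (sq_nonneg' (x j)) (by positivity)
    have h3 : (G i j) ^ 2 ≤ (R : ℤ) ^ 2 := by
      calc (G i j) ^ 2 = (∑ k, x i k * x j k) ^ 2 := by rw [hG]
        _ ≤ _ := h1.trans h2
        _ = (R : ℤ) ^ 2 := by ring
    exact abs_le_of_sq_le_sq h3 (by positivity)
  have hdetle : |G.det| ≤ (D.factorial * R ^ D : ℕ) := by
    have h1 := Matrix.det_le (A := G) (abv := AbsoluteValue.abs) (x := (R : ℤ)) hent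
    rw [Fintype.card_fin] at h1
    push_cast
    simpa using h1
  have hdet0 : G.det ≠ 0 := by
    intro h0
    have h1 : (G.map (fun t : ℤ => (t : ℝ))).det = 0 := by
      have := Int.cast_det (R := ℝ) G
      rw [h0, Int.cast_zero] at this
      exact this.symm
    obtain ⟨v, hv0, hv⟩ := Matrix.exists_mulVec_eq_zero_iff.2 h1
    have h2 : ‖∑ i, v i • toE (x i)‖ ^ 2 = 0 := by
      have h3 : ‖∑ i, v i • toE (x i)‖ ^ 2 = ∑ i, v i * ∑ j, (G i j : ℝ) * v j := by
        rw [← real_inner_self_eq_norm_sq, sum_inner]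
        refine Finset.sum_congr rfl fun i _ => ?_
        rw [inner_smul_left, inner_sum]
        simp only [conj_trivial]
        congr 1
        refine Finset.sum_congr rfl fun j _ => ?_
        rw [inner_smul_right, mul_comm]
        congr 1
        rw [PiLp.inner_apply]
        simp only [toE_apply, hG]
        push_cast
        refine Finset.sum_congr rfl fun k _ => ?_
        simp [mul_comm]
      rw [h3]
      refine Finset.sum_eq_zero fun i _ => ?_
      have := congrFun hv i
      simp only [Matrix.mulVec, dotProduct, Matrix.map_apply, Pi.zero_apply] at this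
      rw [this, mul_zero]
    have h4 : ∑ i, v i • toE (x i) = 0 := by
      have := pow_eq_zero_iff (n := 2) (by norm_num) |>.1 h2
      exact norm_eq_zero.1 this
    rw [Fintype.linearIndependent_iff] at hx
    exact hv0 (funext fun i => hx v h4 i)
  rw [Fintype.linearIndependent_iff]
  intro c hc
  by_contra hcon
  push Not at hcon
  obtain ⟨i0, hi0⟩ := hcon
  have h1 : (G.map (fun t : ℤ => (t : ZMod p))).det = 0 := by
    rw [← Matrix.exists_vecMul_eq_zero_iff]
    refine ⟨c, fun h => hi0 (congrFun h i0), ?_⟩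
    funext j
    simp only [Matrix.vecMul, dotProduct, Matrix.map_apply, Pi.zero_apply, hG]
    push_cast
    simp only [Finset.mul_sum]
    rw [Finset.sum_comm]
    refine Finset.sum_eq_zero fun k _ => ?_
    have h2 := congrFun hc k
    simp only [Finset.sum_apply, Pi.smul_apply, red, smul_eq_mul, Pi.zero_apply] at h2
    calc ∑ i, c i * ((x i k : ZMod p) * (x j k : ZMod p))
        = (∑ i, c i * (x i k : ZMod p)) * (x j k : ZMod p) := by
          rw [Finset.sum_mul]
          exact Finset.sum_congr rfl fun i _ => by ring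
      _ = 0 := by rw [h2, zero_mul]
  have h2 : ((G.det : ℤ) : ZMod p) = 0 := by
    rw [← h1]
    exact Int.cast_det (R := ZMod p) G
  have h3 : (p : ℤ) ∣ G.det := (ZMod.intCast_zmod_eq_zero_iff_dvd _ _).1 h2
  have h4 := Int.le_of_dvd (abs_pos.2 hdet0) ((dvd_abs _ _).2 h3)
  have h5 : (p : ℤ) ≤ (D.factorial * R ^ D : ℕ) := h4.trans hdetle
  have h6 : p ≤ D.factorial * R ^ D := by exact_mod_cast h5
  omega

end H972P
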