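import Pool.Agent.helper972_pfr.Hol

set_option autoImplicit false

/-! The proportion of a box whose image lies in a set, bounded by means of independent families. -/

open Finset

namespace H972P

open R851RR

variable {V : Type*} [AddCommGroup V] {ι : Type*} [Fintype ι] [DecidableEq ι]

/-- the formal sum of the multiples `y v`, `y ∈ Y` -/
noncomputable def TT (Y : Finset ℕ) (v : V) : AddMonoidAlgebra ℝ V :=
  ∑ y ∈ Y, AddMonoidAlgebra.single (y • v) (1 : ℝ)

lemma TT_one (Y : Finset ℕ) (v : V) (h : Y.card = 1) : TT Y v * refl V (TT Y v) = 1 := by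
  obtain ⟨y, rfl⟩ := Finset.card_eq_one.1 h
  unfold TT
  rw [Finset.sum_singleton, refl_single, AddMonoidAlgebra.single_mul_single, mul_one,
    add_neg_cancel, AddMonoidAlgebra.one_def]

lemma TT_two (Y : Finset ℕ) (v : V) (h : Y.card = 2) :
    ∃ δ : ℤ, δ ≠ 0 ∧ TT Y v * refl V (TT Y v) = ker (δ • v) := by
  obtain ⟨x, y, hxy, rfl⟩ := Finset.card_eq_two.1 h
  refine ⟨(x : ℤ) - y, by
    intro h0
    apply hxy
    omega, ?_⟩
  unfold TT ker
  rw [Finset.sum_pair hxy, map_add, refl_single, refl_single]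
  rw [add_mul, mul_add, mul_add]
  simp only [AddMonoidAlgebra.single_mul_single, mul_one, add_neg_cancel]
  rw [mul_add, add_mul, add_mul]
  simp only [one_mul, mul_one, AddMonoidAlgebra.single_mul_single, add_neg_cancel,
    ← AddMonoidAlgebra.one_def]
  have h1 : x • v + -(y • v) = ((x : ℤ) - y) • v := by
    rw [sub_smul, natCast_zsmul, natCast_zsmul, sub_eq_add_neg]
  have h2 : y • v + -(x • v) = -(((x : ℤ) - y) • v) := by
    rw [sub_smul, natCast_zsmul, natCast_zsmul]
    abel
  rw [h1, h2]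

lemma prod_TT (a : V) (v : ι → V) (Y : ι → Finset ℕ) :
    AddMonoidAlgebra.single a (1 : ℝ) * ∏ i, TT (Y i) (v i) =
      ∑ k ∈ Fintype.piFinset Y, AddMonoidAlgebra.single (a + ∑ i, k i • v i) (1 : ℝ) := by
  unfold TT
  rw [Finset.prod_univ_sum, Finset.mul_sum]
  refine Finset.sum_congr rfl fun k _ => ?_
  rw [AddMonoidAlgebra.prod_single, AddMonoidAlgebra.single_mul_single, Finset.prod_const_one,
    mul_one]

open Classical in
theorem box_bound (a : V) (v : ι → V) (Y : ι → Finset ℕ) (A A' : Finset V) (hA : A ⊆ A')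
    (hAA : ∀ u ∈ A, ∀ b ∈ A, u + b ∈ A') (s w Nmax : ℕ) (B : ℕ → Finset ι)
    (hdis : ∀ t < 2 ^ s, ∀ t' < 2 ^ s, t ≠ t' → Disjoint (B t) (B t'))
    (hcard : ∀ t < 2 ^ s, (B t).card = w)
    (hY2 : ∀ t < 2 ^ s, ∀ i ∈ B t, (Y i).card = 2)
    (hY1 : ∀ i, (∀ t < 2 ^ s, i ∉ B t) → (Y i).card = 1)
    (hN : ∀ t < 2 ^ s, ∀ δ : ι → ℤ, (∀ i ∈ B t, δ i ≠ 0) →
      ((Fintype.piFinset fun _ : (B t) => range (2 * 2 ^ s + 1)).filter
        (fun p => ∃ a ∈ A', ∃ b ∈ A',
          ∑ i : (B t), ((p i : ℤ) - ((2 ^ s : ℕ) : ℤ)) • (δ i • v i) = b - a)).card ≤ Nmax) :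
    ((A.card : ℝ) * (((Fintype.piFinset Y).filter
      (fun k => a + ∑ i, k i • v i ∈ A)).card : ℝ)) ^ 2 ≤
      (((Nat.centralBinom (2 ^ s) : ℕ) : ℝ)) ^ w * (A'.card : ℝ) * (Nmax : ℝ) * (A'.card : ℝ) := by
  set m := 2 ^ s with hm
  have hδ : ∀ i, ∃ δ : ℤ, δ ≠ 0 ∧ ((Y i).card = 2 →
      TT (Y i) (v i) * refl V (TT (Y i) (v i)) = ker (δ • v i)) := by
    intro i
    by_cases h : (Y i).card = 2
    · obtain ⟨δ, h1, h2⟩ := TT_two (Y i) (v i) h
      exact ⟨δ, h1, fun _ => h2⟩
    · exact ⟨1, one_ne_zero, fun h' => absurd h' h⟩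
  choose δ hδ0 hδ2 using hδ
  set R : AddMonoidAlgebra ℝ V :=
    AddMonoidAlgebra.single a (1 : ℝ) * ∏ i, TT (Y i) (v i) with hR
  set G := ind A' * refl V (ind A') with hG
  set F : ℕ → AddMonoidAlgebra ℝ V := fun t => ∏ i ∈ B t, ker (δ i • v i) with hF
  set U : Finset ι := (range m).biUnion B with hU
  have hpd : Set.PairwiseDisjoint (↑(range m)) B := by
    intro t ht t' ht' hne
    exact hdis t (by simpa using ht) t' (by simpa using ht') hne
  have hRR : R * refl V R = ∏ t ∈ range m, F t := by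
    have h1 : R * refl V R = ∏ i, (TT (Y i) (v i) * refl V (TT (Y i) (v i))) := by
      rw [hR, map_mul, map_prod, refl_single, Finset.prod_mul_distrib]
      have h2 : AddMonoidAlgebra.single a (1 : ℝ) * AddMonoidAlgebra.single (-a) (1 : ℝ) = 1 := by
        rw [AddMonoidAlgebra.single_mul_single, mul_one, add_neg_cancel,
          AddMonoidAlgebra.one_def]
      calc _ = (AddMonoidAlgebra.single a (1 : ℝ) * AddMonoidAlgebra.single (-a) (1 : ℝ)) *
            ((∏ i, TT (Y i) (v i)) * ∏ i, refl V (TT (Y i) (v i))) := by ring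
        _ = _ := by rw [h2, one_mul]
    rw [h1, ← Finset.prod_subset (Finset.subset_univ U)]
    · rw [hU, Finset.prod_biUnion hpd]
      refine Finset.prod_congr rfl fun t ht => ?_
      rw [hF]
      refine Finset.prod_congr rfl fun i hi => ?_
      exact hδ2 i (hY2 t (Finset.mem_range.1 ht) i hi)
    · intro i _ hi
      apply TT_one
      apply hY1
      intro t ht hit
      apply hi
      rw [hU, Finset.mem_biUnion]
      exact ⟨t, Finset.mem_range.2 ht, hit⟩
  have hFr : ∀ t, refl V (F t) = F t := by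
    intro t
    rw [hF]
    simp only
    rw [map_prod]
    exact Finset.prod_congr rfl fun i _ => refl_ker _
  have hFn : ∀ t, Nn (F t) := fun t =>
    Finset.prod_induction _ Nn (fun a b => Nn.mul) Nn.one fun i _ => ker_Nn _
  set Bd : ℝ := (((Nat.centralBinom m : ℕ) : ℝ)) ^ w * (A'.card : ℝ) * (Nmax : ℝ) with hBd
  have hBd0 : 0 ≤ Bd := by positivity
  have hstep : tau ((∏ t ∈ range m, F t) * G) ≤ Bd := by
    have h1 := tauG_holder (ind A') (ind_nn A') s F hFr hFn
    have h2 : ∏ t ∈ range (2 ^ s), tau (F t ^ (2 ^ s) * (ind A' * refl V (ind A'))) ≤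
        Bd ^ m := by
      rw [← hm]
      calc _ ≤ ∏ _t ∈ range m, Bd := by
            refine Finset.prod_le_prod (fun t _ => ?_) fun t ht => ?_
            · exact (((hFn t).pow _).mul (ind_nn A')) 0
            · rw [Finset.mem_range] at ht
              have h3 : F t = ∏ i : (B t), ker (δ i • v i) := by
                rw [hF]
                exact (Finset.prod_coe_sort (B t) (fun i => ker (δ i • v i))).symm
              rw [h3]
              refine (tau_ker_pow (fun i : (B t) => δ i • v i) m A').trans ?_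
              rw [Fintype.card_coe, hcard t ht, hBd]
              refine mul_le_mul_of_nonneg_left ?_ (by positivity)
              have := hN t ht δ (fun i _ => hδ0 i)
              exact_mod_cast this
        _ = Bd ^ m := by rw [Finset.prod_const, Finset.card_range]
    have hm0 : m ≠ 0 := by rw [hm]; positivity
    exact le_of_pow_le_pow_left₀ hm0 hBd0 (h1.trans h2)
  have hcs := tauG_cs R 1 (ind A')
  rw [map_one, mul_one, mul_one, one_mul, hRR, tau_ind] at hcs
  have hlow : (A.card : ℝ) * (((Fintype.piFinset Y).filter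
      (fun k => a + ∑ i, k i • v i ∈ A)).card : ℝ) ≤ tau (R * G) := by
    rw [hR, prod_TT, Finset.sum_mul, tau_sum]
    simp_rw [hG, tau_single_ind, one_mul]
    calc (A.card : ℝ) * (((Fintype.piFinset Y).filter
          (fun k => a + ∑ i, k i • v i ∈ A)).card : ℝ)
        = ∑ k ∈ (Fintype.piFinset Y).filter (fun k => a + ∑ i, k i • v i ∈ A),
            (A.card : ℝ) := by
          rw [Finset.sum_const, nsmul_eq_mul, mul_comm]
      _ ≤ ∑ k ∈ (Fintype.piFinset Y).filter (fun k => a + ∑ i, k i • v i ∈ A),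
            (rr A' (a + ∑ i, k i • v i) : ℝ) := by
          refine Finset.sum_le_sum fun k hk => ?_
          rw [Finset.mem_filter] at hk
          exact_mod_cast le_rr A' A _ hA (fun t ht => hAA _ hk.2 t ht)
      _ ≤ _ := Finset.sum_le_sum_of_subset_of_nonneg (Finset.filter_subset _ _)
          (fun _ _ _ => by positivity)
  calc _ ≤ tau (R * G) ^ 2 := pow_le_pow_left₀ (by positivity) hlow 2
    _ ≤ _ := hcs
    _ ≤ Bd * (A'.card : ℝ) := mul_le_mul_of_nonneg_right hstep (by positivity)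
    _ = _ := rfl

end H972P
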