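import Pool.Agent.helper972_pfr.Core

set_option autoImplicit false

/-! The construction. -/

open Finset

namespace H972P

open Pool.Agent.R934.LB (toE toE_apply toE_inj sq_nonneg' norm_toE red)

theorem num_one (A A' Z X U W : ℝ) (q : ℕ) (hq : 1 ≤ q) (hA : 0 < A) (hU : 1 ≤ U)
    (hX : 0 < X) (hZ : 0 ≤ Z) (hA'0 : 0 ≤ A')
    (hWU : U ^ 4 * 258 ^ 256 * 2 ^ 32 < W ^ 12) (hZX : Z ≤ X * U ^ (2 * q))
    (hA' : A' ≤ 258 ^ (128 * q) * A)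
    (h : A ^ 2 * X ^ 2 * W ^ (12 * q) ≤ Z ^ 2 * A' ^ 2 * 2 ^ (32 * q)) : False := by
  have hU0 : 0 ≤ U := by linarith
  have h2 : Z ^ 2 ≤ X ^ 2 * U ^ (4 * q) := by
    calc Z ^ 2 ≤ (X * U ^ (2 * q)) ^ 2 := pow_le_pow_left₀ hZ hZX 2
      _ = _ := by
        rw [mul_pow, ← pow_mul]
        congr 2
        ring
  have h3 : A' ^ 2 ≤ 258 ^ (256 * q) * A ^ 2 := by
    calc A' ^ 2 ≤ (258 ^ (128 * q) * A) ^ 2 := pow_le_pow_left₀ hA'0 hA' 2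
      _ = _ := by
        rw [mul_pow, ← pow_mul]
        congr 2
        ring
  have h4 : (A ^ 2 * X ^ 2) * (W ^ 12) ^ q ≤ (A ^ 2 * X ^ 2) * (U ^ 4 * 258 ^ 256 * 2 ^ 32) ^ q := by
    calc (A ^ 2 * X ^ 2) * (W ^ 12) ^ q = A ^ 2 * X ^ 2 * W ^ (12 * q) := by rw [← pow_mul]
      _ ≤ Z ^ 2 * A' ^ 2 * 2 ^ (32 * q) := h
      _ ≤ (X ^ 2 * U ^ (4 * q)) * (258 ^ (256 * q) * A ^ 2) * 2 ^ (32 * q) := by
          refine mul_le_mul_of_nonneg_right ?_ (by positivity)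
          exact mul_le_mul h2 h3 (by positivity) (by positivity)
      _ = (A ^ 2 * X ^ 2) * (U ^ (4 * q) * 258 ^ (256 * q) * 2 ^ (32 * q)) := by ring
      _ = _ := by rw [mul_pow, mul_pow, ← pow_mul, ← pow_mul, ← pow_mul]
  have h5 : (W ^ 12) ^ q ≤ (U ^ 4 * 258 ^ 256 * 2 ^ 32) ^ q :=
    le_of_mul_le_mul_left h4 (by positivity)
  have h6 := pow_lt_pow_left₀ hWU (by positivity) (n := q) (by omega)
  linarith

theorem num_two (Z X U H : ℝ) (q : ℕ) (hq : 1 ≤ q) (hX : 0 < X) (hU : 1 ≤ U)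
    (hHU : U ^ 2 * 2 ^ 32 < H ^ 28) (hZX : Z ≤ X * U ^ (2 * q))
    (h : X * H ^ (28 * q) ≤ 2 ^ (32 * q) * Z) : False := by
  have hU0 : 0 ≤ U := by linarith
  have h4 : X * (H ^ 28) ^ q ≤ X * (U ^ 2 * 2 ^ 32) ^ q := by
    calc X * (H ^ 28) ^ q = X * H ^ (28 * q) := by rw [← pow_mul]
      _ ≤ 2 ^ (32 * q) * Z := h
      _ ≤ 2 ^ (32 * q) * (X * U ^ (2 * q)) := mul_le_mul_of_nonneg_left hZX (by positivity)
      _ = X * (U ^ (2 * q) * 2 ^ (32 * q)) := by ring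
      _ = _ := by rw [mul_pow, ← pow_mul, ← pow_mul]
  have h5 : (H ^ 28) ^ q ≤ (U ^ 2 * 2 ^ 32) ^ q := le_of_mul_le_mul_left h4 hX
  have h6 := pow_lt_pow_left₀ hHU (by positivity) (n := q) (by omega)
  linarith

theorem num_three (A S U H ρ : ℝ) (q M : ℕ) (hq : 1 ≤ q) (hU : 1 ≤ U) (hH : 0 ≤ H)
    (hρ : 1 ≤ ρ) (hρU : 2 * U * H ^ (128 * M) * 129 ^ 64 < ρ ^ 64) (hAS : A ≤ S * U ^ q)
    (hA : ρ ^ (128 * q) ≤ 2 * A)
    (h : S ≤ H ^ (M * (128 * q)) * (4 * (32 * ρ) + 1) ^ (64 * q)) : False := by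
  have hU0 : 0 ≤ U := by linarith
  have hρ0 : 0 < ρ := by linarith
  have h1 : (4 * (32 * ρ) + 1) ^ (64 * q) ≤ (129 * ρ) ^ (64 * q) :=
    pow_le_pow_left₀ (by positivity) (by linarith) _
  have h2 : (2 : ℝ) ≤ 2 ^ q := by
    calc (2 : ℝ) = 2 ^ 1 := by norm_num
      _ ≤ 2 ^ q := pow_le_pow_right₀ (by norm_num) hq
  have h4 : (ρ ^ 64) ^ q * (ρ ^ 64) ^ q ≤
      (2 * U * H ^ (128 * M) * 129 ^ 64) ^ q * (ρ ^ 64) ^ q := by
    calc (ρ ^ 64) ^ q * (ρ ^ 64) ^ q = ρ ^ (128 * q) := by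
          rw [← pow_mul, ← pow_add]; congr 1; ring
      _ ≤ 2 * A := hA
      _ ≤ 2 * (S * U ^ q) := by linarith
      _ ≤ 2 * ((H ^ (M * (128 * q)) * (129 * ρ) ^ (64 * q)) * U ^ q) := by
          refine mul_le_mul_of_nonneg_left ?_ (by norm_num)
          refine mul_le_mul_of_nonneg_right ?_ (by positivity)
          exact h.trans (mul_le_mul_of_nonneg_left h1 (by positivity))
      _ ≤ 2 ^ q * ((H ^ (M * (128 * q)) * (129 * ρ) ^ (64 * q)) * U ^ q) :=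
          mul_le_mul_of_nonneg_right h2 (by positivity)
      _ = _ := by
          have e1 : H ^ (M * (128 * q)) = (H ^ (128 * M)) ^ q := by
            rw [← pow_mul]; congr 1; ring
          have e2 : (129 * ρ) ^ (64 * q) = (129 ^ 64) ^ q * (ρ ^ 64) ^ q := by
            rw [mul_pow, ← pow_mul, ← pow_mul]
          rw [e1, e2, mul_pow, mul_pow, mul_pow]
          ring
  have h5 : (ρ ^ 64) ^ q ≤ (2 * U * H ^ (128 * M) * 129 ^ 64) ^ q :=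
    le_of_mul_le_mul_right h4 (by positivity)
  have h6 := pow_lt_pow_left₀ hρU (by positivity) (n := q) (by omega)
  linarith

theorem le_pow_self' (x : ℕ) (hx : 1 ≤ x) (k : ℕ) (hk : 1 ≤ k) : x ≤ x ^ k := by
  calc x = x ^ 1 := (pow_one x).symm
    _ ≤ x ^ k := Nat.pow_le_pow_right hx hk

/-- The conclusion of the construction: if for some `a'` a proportion `≥ U ^ (- 2 q)` of the sums
`a' + ∑ kᵢ vᵢ` is in `A`, then `A` has less than `U ^ (- q) |A|` points in `a + P`. -/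
def Concl (q : ℕ) (U : ℝ) : Prop :=
    ∃ (p : ℕ) (h : Fin (128 * q) → ZMod p) (r : ℝ), 0 ≤ r ∧ (BL h r).Nonempty ∧
      ((BL h (2 * r)).card : ℝ) ≤ 258 ^ (128 * q) * ((BL h r).card : ℝ) ∧
      ∀ (d : ℕ) (a a' : Fin (128 * q) → ℤ) (v : Fin d → Fin (128 * q) → ℤ) (N : Fin d → ℕ),
        (∀ i, v i ∈ Lh h) → (∀ i, 1 ≤ N i) → ∀ S : Finset (Fin (128 * q) → ℤ),
        (∀ x ∈ S, x ∈ BL h r) →
        (∀ x ∈ S, ∃ k : Fin d → ℕ, (∀ i, k i < N i) ∧ x = a + ∑ i, k i • v i) →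
        ∀ Ξ : Finset (Fin d → ℕ),
          (∀ k ∈ Ξ, (∀ i, k i < N i) ∧ a' + ∑ i, k i • v i ∈ BL h r) →
          ((∏ i, N i : ℕ) : ℝ) ≤ (Ξ.card : ℝ) * U ^ (2 * q) →
          (S.card : ℝ) * U ^ q < ((BL h r).card : ℝ)

theorem build' (U : ℝ) (hU : 1 ≤ U) (s H ρ q : ℕ) (hH1 : 1 ≤ H) (hρ1 : 1 ≤ ρ) (hq1 : 1 ≤ q)
    (hW : U ^ 4 * 258 ^ 256 * 2 ^ 32 < (2 * ((2 ^ s : ℕ) : ℝ) + 1) ^ 12)
    (hHU : U ^ 2 * 2 ^ 32 < (H : ℝ) ^ 28)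
    (hρU : 2 * U * (H : ℝ) ^ (128 * 2 ^ s) * 129 ^ 64 < (ρ : ℝ) ^ 64)
    (hq : (2063 * ρ) ^ 81 ≤ q) : Concl q U := by
  classical
  have hU0 : 0 ≤ U := by linarith
  unfold Concl
  obtain ⟨n, hn⟩ : ∃ n, n = 128 * q := ⟨_, rfl⟩
  rw [← hn]
  have hn1 : 1 ≤ n := by omega
  obtain ⟨σ, hσ⟩ : ∃ σ, σ = n + (31 * q).factorial * (256 * ρ ^ 2 * n) ^ (31 * q) := ⟨_, rfl⟩
  have hσ1 : 1 ≤ σ := by omega
  obtain ⟨p, hp, hp1, hp2⟩ := Nat.exists_prime_lt_and_le_two_mul (σ ^ n) (by positivity)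
  have : Fact p.Prime := ⟨hp⟩
  obtain ⟨h, hmin, hGood⟩ := exists_h ρ q σ p n hn hρ1 hq (by omega) (by omega) hp1
  have hnR : (0 : ℝ) < n := by exact_mod_cast hn1
  have hρR : (1 : ℝ) ≤ ρ := by exact_mod_cast hρ1
  have hρ0 : (0 : ℝ) < ρ := by linarith
  have hσR : (0 : ℝ) < σ := by exact_mod_cast hσ1
  have hsq : 0 < Real.sqrt n := Real.sqrt_pos.2 hnR
  have hsq2 : Real.sqrt n ^ 2 = n := Real.sq_sqrt hnR.le
  obtain ⟨r, hr⟩ : ∃ r : ℝ, r = ρ * σ * Real.sqrt n := ⟨_, rfl⟩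
  obtain ⟨l, hl⟩ : ∃ l : ℝ, l = σ * Real.sqrt n / 32 := ⟨_, rfl⟩
  have hr0 : 0 ≤ r := by rw [hr]; positivity
  have hl0 : 0 < l := by rw [hl]; positivity
  have hrl : r / l = 32 * ρ := by
    rw [hr, hl]
    field_simp
  have ht0 : (0 : ℝ) < 91 * ρ * σ := by positivity
  have ht : 4 * (4 * r) ^ 2 ≤ q * (91 * ρ * σ) ^ 2 := by
    have h1 : 4 * (4 * r) ^ 2 = 8192 * (q * (ρ * σ) ^ 2) := by
      rw [hr]
      have : 4 * (4 * (ρ * σ * Real.sqrt n)) ^ 2 = 64 * (ρ * σ) ^ 2 * (Real.sqrt n) ^ 2 := by ring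
      rw [this, hsq2, hn]
      push_cast
      ring
    have h2 : (q : ℝ) * (91 * ρ * σ) ^ 2 = 8281 * (q * (ρ * σ) ^ 2) := by ring
    rw [h1, h2]
    have : 0 ≤ (q : ℝ) * (ρ * σ) ^ 2 := by positivity
    linarith
  have hGood2 : Good (Lh h) (30 * q) q (4 * (4 * r)) (91 * ρ * σ) := by
    have : 4 * (4 * r) = 16 * ρ * σ * Real.sqrt n := by rw [hr]; ring
    rw [this]
    exact hGood
  have hmin2 : ∀ z ∈ Lh h, z ≠ 0 → l < ‖toE z‖ := by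
    intro z hz hz0
    rw [hl]
    exact hmin z hz hz0
  have hlow : (ρ : ℝ) ^ n ≤ 2 * ((BL h r).card : ℝ) := by
    have h1 := ball_lower h (ρ * σ) (Nat.mul_pos hρ1 hσ1)
    have h2 : (((ρ * σ : ℕ) : ℝ)) * Real.sqrt n = r := by rw [hr]; push_cast; rfl
    rw [h2] at h1
    have h3 : (ρ * σ) ^ n ≤ (BL h r).card * (2 * σ ^ n) := h1.trans (Nat.mul_le_mul_left _ hp2)
    have h4 : ρ ^ n * σ ^ n ≤ (2 * (BL h r).card) * σ ^ n := by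
      calc ρ ^ n * σ ^ n = (ρ * σ) ^ n := (mul_pow _ _ _).symm
        _ ≤ (BL h r).card * (2 * σ ^ n) := h3
        _ = _ := by ring
    have h5 := Nat.le_of_mul_le_mul_right h4 (by positivity)
    exact_mod_cast h5
  have hA0 : (0 : ℝ) < ((BL h r).card : ℝ) := by
    have : (0 : ℝ) < (ρ : ℝ) ^ n := by positivity
    linarith
  have hne : (BL h r).Nonempty := by
    rw [← Finset.card_pos]
    exact_mod_cast hA0
  have hup : ((BL h (2 * r)).card : ℝ) ≤ 258 ^ n * ((BL h r).card : ℝ) := by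
    have h1 := ball_upper h l hl0 hmin2 (2 * r) (by positivity)
    have h2 : 2 * (2 * r / l) + 1 ≤ 129 * ρ := by
      have : 2 * r / l = 2 * (r / l) := by ring
      rw [this, hrl]
      linarith
    have h2' : 0 ≤ 2 * (2 * r / l) + 1 := by positivity
    calc ((BL h (2 * r)).card : ℝ) ≤ (2 * (2 * r / l) + 1) ^ n := h1
      _ ≤ (129 * ρ) ^ n := pow_le_pow_left₀ h2' h2 n
      _ = 129 ^ n * (ρ : ℝ) ^ n := mul_pow _ _ _
      _ ≤ 129 ^ n * (2 * ((BL h r).card : ℝ)) := mul_le_mul_of_nonneg_left hlow (by positivity)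
      _ = (2 * 129 ^ n) * ((BL h r).card : ℝ) := by ring
      _ ≤ (2 ^ n * 129 ^ n) * ((BL h r).card : ℝ) := by
          refine mul_le_mul_of_nonneg_right ?_ hA0.le
          refine mul_le_mul_of_nonneg_right ?_ (by positivity)
          calc (2 : ℝ) = 2 ^ 1 := by norm_num
            _ ≤ 2 ^ n := pow_le_pow_right₀ (by norm_num) hn1
      _ = _ := by rw [← mul_pow]; norm_num
  refine ⟨p, h, r, hr0, hne, hup, ?_⟩
  intro d a a' v N hv hN S hS hS2 Ξ hΞ hZX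
  by_contra hcon
  push Not at hcon
  have hZ0 : (0 : ℝ) < ((∏ i, N i : ℕ) : ℝ) := by
    have : 0 < ∏ i, N i := Finset.prod_pos fun i _ => hN i
    exact_mod_cast this
  have hX0 : (0 : ℝ) < (Ξ.card : ℝ) := by
    by_contra h0
    have h1 : (Ξ.card : ℝ) = 0 := le_antisymm (not_lt.1 h0) (Nat.cast_nonneg _)
    rw [h1, zero_mul] at hZX
    linarith
  rcases three h r (91 * ρ * σ) hr0 ht0 ht hGood2 l hl0 hmin2 a a' v hv N hN s H hH1 Ξ hΞ S hS hS2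
    with h1 | h1 | h1
  · refine num_one _ _ _ _ U _ q hq1 hA0 hU hX0 (Nat.cast_nonneg _)
      (Nat.cast_nonneg _) hW hZX ?_ h1
    have e : (258 : ℝ) ^ (128 * q) = 258 ^ n := by rw [hn]
    rw [e]
    exact hup
  · refine num_two _ _ U (H : ℝ) q hq1 hX0 hU hHU hZX ?_
    exact_mod_cast h1
  · rw [hrl] at h1
    have e : (ρ : ℝ) ^ (128 * q) = (ρ : ℝ) ^ n := by rw [hn]
    have e2 : (H : ℝ) ^ (2 ^ s * (128 * q)) = (H : ℝ) ^ (2 ^ s * n) := by rw [hn]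
    refine num_three _ _ U (H : ℝ) (ρ : ℝ) q (2 ^ s) hq1 hU (Nat.cast_nonneg _) hρR hρU hcon ?_ ?_
    · rw [e]; exact hlow
    · rw [e2]; exact h1

theorem build (U : ℝ) (hU : 1 ≤ U) : ∃ q₀ : ℕ, ∀ q ≥ q₀, 1 ≤ q → Concl q U := by
  obtain ⟨s, hs⟩ := pow_unbounded_of_one_lt (U ^ 4 * 258 ^ 256 * 2 ^ 32) (one_lt_two (α := ℝ))
  obtain ⟨H₀, hH₀⟩ := exists_nat_gt (U ^ 2 * 2 ^ 32)
  obtain ⟨H, hHdef⟩ : ∃ H, H = H₀ + 1 := ⟨_, rfl⟩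
  obtain ⟨ρ₀, hρ₀⟩ := exists_nat_gt (2 * U * (H : ℝ) ^ (128 * 2 ^ s) * 129 ^ 64)
  obtain ⟨ρ, hρdef⟩ : ∃ ρ, ρ = ρ₀ + 1 := ⟨_, rfl⟩
  have hH1 : 1 ≤ H := by omega
  have hρ1 : 1 ≤ ρ := by omega
  have hW : U ^ 4 * 258 ^ 256 * 2 ^ 32 < (2 * ((2 ^ s : ℕ) : ℝ) + 1) ^ 12 := by
    refine hs.trans_le ?_
    push_cast
    have h1 : (1 : ℝ) ≤ 2 * 2 ^ s + 1 := by
      have : (0 : ℝ) < 2 ^ s := by positivity
      linarith
    calc (2 : ℝ) ^ s ≤ 2 * 2 ^ s + 1 := by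
          have : (0 : ℝ) < 2 ^ s := by positivity
          linarith
      _ = (2 * 2 ^ s + 1) ^ 1 := (pow_one _).symm
      _ ≤ _ := pow_le_pow_right₀ h1 (by norm_num)
  have hHU : U ^ 2 * 2 ^ 32 < (H : ℝ) ^ 28 := by
    refine hH₀.trans_le ?_
    have h1 : H ≤ H ^ 28 := le_pow_self' H hH1 28 (by norm_num)
    have h2 : H₀ ≤ H ^ 28 := by omega
    exact_mod_cast h2
  have hρU : 2 * U * (H : ℝ) ^ (128 * 2 ^ s) * 129 ^ 64 < (ρ : ℝ) ^ 64 := by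
    refine hρ₀.trans_le ?_
    have h1 : ρ ≤ ρ ^ 64 := le_pow_self' ρ hρ1 64 (by norm_num)
    have h2 : ρ₀ ≤ ρ ^ 64 := by omega
    exact_mod_cast h2
  exact ⟨(2063 * ρ) ^ 81, fun q hq hq1 => build' U hU s H ρ q hH1 hρ1 hq1 hW hHU hρU hq⟩

end H972P
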