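import Pool.Agent.helper972_pfr.Case1a

set_option autoImplicit false

/-! The first case: many disjoint independent groups of generators. -/

open Finset

namespace H972P

open Pool.Agent.R934.LB (toE toE_apply toE_inj sq_nonneg' norm_toE red)

theorem prodM {d m w : ℕ} (B : ℕ → Finset (Fin d)) (M : Fin d → ℕ)
    (hM1 : ∀ i, (∃ t < m, i ∈ B t) → M i = 2) (hM2 : ∀ i, (¬ ∃ t < m, i ∈ B t) → M i = 1)
    (hdis : ∀ t < m, ∀ t' < m, t ≠ t' → Disjoint (B t) (B t'))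
    (hcard : ∀ t < m, (B t).card = w) : ∏ i, M i = 2 ^ (m * w) := by
  classical
  have h0 : ∀ i, M i = if i ∈ (range m).biUnion B then 2 else 1 := by
    intro i
    split_ifs with hi
    · rw [Finset.mem_biUnion] at hi
      obtain ⟨t, ht, hi⟩ := hi
      exact hM1 i ⟨t, Finset.mem_range.1 ht, hi⟩
    · apply hM2
      rintro ⟨t, ht, hi2⟩
      exact hi (Finset.mem_biUnion.2 ⟨t, Finset.mem_range.2 ht, hi2⟩)
  rw [Finset.prod_congr rfl (fun i _ => h0 i), Finset.prod_ite, Finset.prod_const_one, mul_one,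
    Finset.prod_const]
  congr 1
  rw [Finset.filter_mem_eq_inter, Finset.univ_inter, Finset.card_biUnion]
  · rw [Finset.sum_congr rfl (fun t ht => hcard t (Finset.mem_range.1 ht)), Finset.sum_const,
      Finset.card_range, smul_eq_mul]
  · intro t ht t' ht' hne
    exact hdis t (Finset.mem_range.1 ht) t' (Finset.mem_range.1 ht') hne

theorem group_count2 {n q p : ℕ} (h : Fin n → ZMod p) (r t₀ : ℝ) (hr : 0 ≤ r) (ht0 : 0 < t₀)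
    (ht : 4 * (4 * r) ^ 2 ≤ q * t₀ ^ 2) (hGood : Good (Lh h) (30 * q) q (4 * (4 * r)) t₀)
    {d : ℕ} (v : Fin d → Fin n → ℤ) (hv : ∀ i, v i ∈ Lh h) (m : ℕ) (Bt : Finset (Fin d))
    (hcard : Bt.card = 32 * q) (hli : LinearIndepOn ℝ (fun i => toE (v i)) (Bt : Set (Fin d)))
    (δ : Fin d → ℤ) (hδ : ∀ i ∈ Bt, δ i ≠ 0) (P : (Bt → ℕ) → Prop) {inst : DecidablePred P}
    (hP : ∀ c, P c → ∃ a ∈ BL h (2 * r), ∃ b ∈ BL h (2 * r),
      ∑ i : Bt, ((c i : ℤ) - (m : ℤ)) • (δ i • v i) = b - a) :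
    ((Fintype.piFinset fun _ : Bt => range (2 * m + 1)).filter P).card ≤
      2 ^ (32 * q) * (2 * m + 1) ^ (4 * q) := by
  refine group_count h r t₀ hr ht0 ht hGood v hv m Bt hcard hli δ hδ _ ?_
  intro c hc
  have hc2 := Finset.mem_filter.1 hc
  exact ⟨fun i => Finset.mem_range.1 (Fintype.mem_piFinset.1 hc2.1 i), hP c hc2.2⟩

open Classical in
theorem case1 {n q p : ℕ} (h : Fin n → ZMod p) (r t₀ : ℝ) (hr : 0 ≤ r) (ht0 : 0 < t₀)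
    (ht : 4 * (4 * r) ^ 2 ≤ q * t₀ ^ 2) (hGood : Good (Lh h) (30 * q) q (4 * (4 * r)) t₀)
    {d : ℕ} (a : Fin n → ℤ) (v : Fin d → Fin n → ℤ) (hv : ∀ i, v i ∈ Lh h) (N : Fin d → ℕ)
    (hN : ∀ i, 1 ≤ N i) (Ξ : Finset (Fin d → ℕ))
    (hΞ : ∀ k ∈ Ξ, (∀ i, k i < N i) ∧ a + ∑ i, k i • v i ∈ BL h r)
    (s : ℕ) (B : ℕ → Finset (Fin d))
    (hdis : ∀ t < 2 ^ s, ∀ t' < 2 ^ s, t ≠ t' → Disjoint (B t) (B t'))
    (hcard : ∀ t < 2 ^ s, (B t).card = 32 * q) (hB2 : ∀ t < 2 ^ s, ∀ i ∈ B t, 2 ≤ N i)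
    (hli : ∀ t < 2 ^ s, LinearIndepOn ℝ (fun i => toE (v i)) (B t : Set (Fin d))) :
    ((BL h r).card : ℝ) ^ 2 * (Ξ.card : ℝ) ^ 2 * (2 * ((2 ^ s : ℕ) : ℝ) + 1) ^ (12 * q) ≤
      ((∏ i, N i : ℕ) : ℝ) ^ 2 * ((BL h (2 * r)).card : ℝ) ^ 2 * 2 ^ (32 * q) := by
  obtain ⟨M, hM1, hM2⟩ : ∃ M : Fin d → ℕ, (∀ i, (∃ t < 2 ^ s, i ∈ B t) → M i = 2) ∧
      ∀ i, (¬ ∃ t < 2 ^ s, i ∈ B t) → M i = 1 :=
    ⟨fun i => if ∃ t < 2 ^ s, i ∈ B t then 2 else 1, fun i hi => if_pos hi, fun i hi => if_neg hi⟩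
  have hMN : ∀ i, M i ≤ N i := by
    intro i
    by_cases hi : ∃ t < 2 ^ s, i ∈ B t
    · rw [hM1 i hi]
      obtain ⟨t, ht, hi⟩ := hi
      exact hB2 t ht i hi
    · rw [hM2 i hi]
      exact hN i
  obtain ⟨Y, hY, hle⟩ := restrict N M hMN Ξ
    (fun k hk i => Finset.mem_range.2 ((hΞ k hk).1 i)) Finset.univ
  have hprod : ∏ i, M i = 2 ^ (2 ^ s * (32 * q)) := prodM B M hM1 hM2 hdis hcard
  obtain ⟨Q, hQ⟩ : ∃ Q : Finset (Fin d → ℕ), Q = (Fintype.piFinset Y).filter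
    (fun k => a + ∑ i, k i • v i ∈ BL h r) := ⟨_, rfl⟩
  have hsub : Ξ.filter (fun k => ∀ i ∈ Finset.univ, k i ∈ Y i) ⊆ Q := by
    intro k hk
    have hk2 := Finset.mem_filter.1 hk
    rw [hQ]
    exact Finset.mem_filter.2 ⟨Fintype.mem_piFinset.2 fun i => hk2.2 i (Finset.mem_univ _),
      (hΞ k hk2.1).2⟩
  have hA1 : BL h r ⊆ BL h (2 * r) := by
    intro z hz
    rw [mem_BL] at hz ⊢
    exact ⟨hz.1, by linarith [hz.2]⟩
  have hA2 : ∀ z ∈ BL h r, ∀ w ∈ BL h r, z + w ∈ BL h (2 * r) := by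
    intro z hz w hw
    rw [mem_BL] at hz hw ⊢
    refine ⟨(Lh h).add_mem hz.1 hw.1, ?_⟩
    rw [map_add]
    have := norm_add_le (toE z) (toE w)
    linarith [hz.2, hw.2]
  have hY2 : ∀ t < 2 ^ s, ∀ i ∈ B t, (Y i).card = 2 := by
    intro t ht i hi
    rw [(hY i (Finset.mem_univ _)).2]
    exact hM1 i ⟨t, ht, hi⟩
  have hY1 : ∀ i, (∀ t < 2 ^ s, i ∉ B t) → (Y i).card = 1 := by
    intro i hi
    rw [(hY i (Finset.mem_univ _)).2]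
    apply hM2
    rintro ⟨t, ht, hi2⟩
    exact hi t ht hi2
  obtain ⟨Nmax, hNmax⟩ : ∃ Nmax : ℕ, Nmax = 2 ^ (32 * q) * (2 * 2 ^ s + 1) ^ (4 * q) := ⟨_, rfl⟩
  have hbox := box_bound a v Y (BL h r) (BL h (2 * r)) hA1 hA2 s (32 * q) Nmax B hdis hcard hY2 hY1
    (by
      intro t ht2 δ hδ
      rw [hNmax]
      exact group_count2 h r t₀ hr ht0 ht hGood v hv (2 ^ s) (B t) (hcard t ht2) (hli t ht2) δ hδ
        _ (fun c hc => hc))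
  have hQ' : ∀ inst : DecidablePred fun k : Fin d → ℕ => a + ∑ i, k i • v i ∈ BL h r,
      (@Finset.filter _ _ inst (Fintype.piFinset Y)).card = Q.card := by
    intro inst
    rw [hQ]
    congr!
  rw [hQ'] at hbox
  have h1 : (Ξ.card : ℝ) * 2 ^ (2 ^ s * (32 * q)) ≤ (Q.card : ℝ) * ((∏ i, N i : ℕ) : ℝ) := by
    rw [hprod] at hle
    have h2 := hle.trans (Nat.mul_le_mul_right _ (Finset.card_le_card hsub))
    have h3 : ((Ξ.card * 2 ^ (2 ^ s * (32 * q)) : ℕ) : ℝ) ≤ ((Q.card * ∏ i, N i : ℕ) : ℝ) :=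
      Nat.cast_le.2 h2
    rw [Nat.cast_mul, Nat.cast_mul, Nat.cast_pow, Nat.cast_ofNat] at h3
    exact h3
  have hNR : (Nmax : ℝ) = 2 ^ (32 * q) * (2 * ((2 ^ s : ℕ) : ℝ) + 1) ^ (4 * q) := by
    rw [hNmax, Nat.cast_mul, Nat.cast_pow, Nat.cast_pow, Nat.cast_add, Nat.cast_mul,
      Nat.cast_ofNat, Nat.cast_one]
  rw [hNR] at hbox
  exact combine _ _ _ _ _ (2 ^ s) q (Nat.cast_nonneg _) h1 hbox

end H972P
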