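import Pool.Agent.helper972_pfr.Cnt
import Pool.Agent.helper972_pfr.Box

set_option autoImplicit false

/-! The first case: many disjoint independent groups of generators. -/

open Finset

namespace H972P

open Pool.Agent.R934.LB (toE toE_apply toE_inj sq_nonneg' norm_toE red)

theorem norm_neg_toE {n : ℕ} (a b : Fin n → ℤ) : ‖toE (b - a)‖ ≤ ‖toE b‖ + ‖toE a‖ := by
  rw [map_sub]
  exact norm_sub_le _ _

/-- the bound for one group -/
theorem group_count {n q p : ℕ} (h : Fin n → ZMod p) (r t₀ : ℝ) (hr : 0 ≤ r) (ht0 : 0 < t₀)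
    (ht : 4 * (4 * r) ^ 2 ≤ q * t₀ ^ 2) (hGood : Good (Lh h) (30 * q) q (4 * (4 * r)) t₀)
    {d : ℕ} (v : Fin d → Fin n → ℤ) (hv : ∀ i, v i ∈ Lh h) (m : ℕ) (Bt : Finset (Fin d))
    (hcard : Bt.card = 32 * q) (hli : LinearIndepOn ℝ (fun i => toE (v i)) (Bt : Set (Fin d)))
    (δ : Fin d → ℤ) (hδ : ∀ i ∈ Bt, δ i ≠ 0) (X : Finset (Bt → ℕ))
    (hX : ∀ c ∈ X, (∀ i, c i < 2 * m + 1) ∧ ∃ a ∈ BL h (2 * r), ∃ b ∈ BL h (2 * r),
      ∑ i : Bt, ((c i : ℤ) - (m : ℤ)) • (δ i • v i) = b - a) :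
    X.card ≤ 2 ^ (32 * q) * (2 * m + 1) ^ (4 * q) := by
  classical
  set φ : (Bt → ℕ) → (Bt → ℤ) := fun c i => (c i : ℤ) - m with hφ
  have hinj : Function.Injective φ := by
    intro c c' hc
    funext i
    have := congrFun hc i
    simp only [hφ] at this
    omega
  rw [← Finset.card_image_of_injective X hinj]
  have hli2 : LinearIndepOn ℝ (fun i : Bt => toE (δ i • v i)) ((Finset.univ : Finset Bt) : Set Bt) := by
    rw [Finset.coe_univ, linearIndepOn_univ_iff]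
    have h1 : LinearIndependent ℝ (fun i : Bt => toE (v i)) := hli
    have h2 := h1.units_smul (fun i : Bt => Units.mk0 ((δ i : ℤ) : ℝ)
      (by exact_mod_cast hδ i i.2))
    convert h2 using 1
    funext i
    rw [map_zsmul, Pi.smul_apply', Units.smul_mk0, Int.cast_smul_eq_zsmul]
  refine cnt (Lh h) (fun i : Bt => δ i • v i) Finset.univ
    (fun i _ => (Lh h).zsmul_mem (hv i) _) ?_ hli2 (2 * m + 1) (by omega)
    (fun _ => (range (2 * m + 1)).image (fun x : ℕ => (x : ℤ) - m)) ?_ _ ?_ ?_ 0 (4 * r) t₀ ?_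
    (by positivity) ht0 ht hGood
  · rw [Finset.card_univ, Fintype.card_coe, hcard]
  · intro i
    exact Finset.card_image_le.trans (by rw [Finset.card_range])
  · intro c hc i _
    obtain ⟨c', hc', rfl⟩ := Finset.mem_image.1 hc
    rw [Finset.mem_image]
    exact ⟨c' i, Finset.mem_range.2 ((hX c' hc').1 i), rfl⟩
  · intro c _ c' _ i hi
    exact absurd (Finset.mem_univ i) hi
  · intro c hc
    obtain ⟨c', hc', rfl⟩ := Finset.mem_image.1 hc
    obtain ⟨a, ha, b, hb, hab⟩ := (hX c' hc').2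
    rw [sub_zero]
    have : ∑ i : Bt, φ c' i • (fun i : Bt => δ i • v i) i = b - a := hab
    rw [this]
    rw [mem_BL] at ha hb
    have := norm_neg_toE a b
    linarith [ha.2, hb.2]

theorem combine (A A' Z Q X : ℝ) (m q : ℕ)
    (hX : 0 ≤ X) (h1 : X * 2 ^ (m * (32 * q)) ≤ Q * Z)
    (hbox : (A * Q) ^ 2 ≤ ((Nat.centralBinom m : ℕ) : ℝ) ^ (32 * q) * A' *
      (2 ^ (32 * q) * (2 * (m : ℝ) + 1) ^ (4 * q)) * A') :
    A ^ 2 * X ^ 2 * (2 * (m : ℝ) + 1) ^ (12 * q) ≤ Z ^ 2 * A' ^ 2 * 2 ^ (32 * q) := by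
  have hcb : ((Nat.centralBinom m : ℕ) : ℝ) ^ (32 * q) * (2 * (m : ℝ) + 1) ^ (16 * q) ≤
      ((2 : ℝ) ^ (m * (32 * q))) ^ 2 := by
    have h2 := R851RR.centralBinom_sq m
    have h3 : ((Nat.centralBinom m : ℕ) : ℝ) ^ 2 * (2 * m + 1) ≤ 16 ^ m := by exact_mod_cast h2
    calc ((Nat.centralBinom m : ℕ) : ℝ) ^ (32 * q) * (2 * (m : ℝ) + 1) ^ (16 * q)
        = (((Nat.centralBinom m : ℕ) : ℝ) ^ 2 * (2 * m + 1)) ^ (16 * q) := by
          rw [mul_pow, ← pow_mul]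
          congr 2
          ring
      _ ≤ (16 ^ m) ^ (16 * q) := pow_le_pow_left₀ (by positivity) h3 _
      _ = _ := by
          rw [show (16 : ℝ) = 2 ^ 4 by norm_num, ← pow_mul, ← pow_mul, ← pow_mul]
          congr 1
          ring
  set W : ℝ := 2 * (m : ℝ) + 1 with hW
  have hW0 : 0 < W := by positivity
  set P : ℝ := (2 : ℝ) ^ (m * (32 * q)) with hP
  have hP0 : 0 < P := by positivity
  have h7 : (A ^ 2 * X ^ 2 * W ^ (12 * q)) * (P ^ 2 * W ^ (4 * q)) ≤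
      (Z ^ 2 * A' ^ 2 * 2 ^ (32 * q)) * (P ^ 2 * W ^ (4 * q)) := by
    have h8 : (X * P) ^ 2 ≤ (Q * Z) ^ 2 := pow_le_pow_left₀ (by positivity) h1 2
    have hWW : W ^ (12 * q) * W ^ (4 * q) = W ^ (16 * q) := by
      rw [← pow_add]; congr 1; ring
    calc (A ^ 2 * X ^ 2 * W ^ (12 * q)) * (P ^ 2 * W ^ (4 * q))
        = A ^ 2 * (X * P) ^ 2 * (W ^ (12 * q) * W ^ (4 * q)) := by ring
      _ ≤ A ^ 2 * (Q * Z) ^ 2 * (W ^ (12 * q) * W ^ (4 * q)) := by
          refine mul_le_mul_of_nonneg_right ?_ (by positivity)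
          exact mul_le_mul_of_nonneg_left h8 (by positivity)
      _ = Z ^ 2 * (A * Q) ^ 2 * W ^ (16 * q) := by rw [hWW]; ring
      _ ≤ Z ^ 2 * (((Nat.centralBinom m : ℕ) : ℝ) ^ (32 * q) * A' *
            (2 ^ (32 * q) * W ^ (4 * q)) * A') * W ^ (16 * q) := by
          refine mul_le_mul_of_nonneg_right ?_ (by positivity)
          exact mul_le_mul_of_nonneg_left hbox (by positivity)
      _ = (Z ^ 2 * A' ^ 2 * 2 ^ (32 * q)) * ((((Nat.centralBinom m : ℕ) : ℝ) ^ (32 * q) *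
            W ^ (16 * q)) * W ^ (4 * q)) := by ring
      _ ≤ _ := by
          refine mul_le_mul_of_nonneg_left ?_ (by positivity)
          exact mul_le_mul_of_nonneg_right hcb (by positivity)
  exact le_of_mul_le_mul_right h7 (by positivity)


end H972P
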