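import Pool.Agent.helper972_pfr.Case1

set_option autoImplicit false

/-! The second case: few generators carry the progression. -/

open Finset

namespace H972P

open Pool.Agent.R934.LB (toE toE_apply toE_inj sq_nonneg' norm_toE red)

theorem prodI {d : ℕ} (I : Finset (Fin d)) (M : Fin d → ℕ) (H : ℕ) (hM1 : ∀ i ∈ I, M i = H)
    (hM2 : ∀ i, i ∉ I → M i = 1) : ∏ i, M i = H ^ I.card := by
  classical
  have h0 : ∀ i, M i = if i ∈ I then H else 1 := by
    intro i
    split_ifs with hi
    · exact hM1 i hi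
    · exact hM2 i hi
  rw [Finset.prod_congr rfl (fun i _ => h0 i), Finset.prod_ite, Finset.prod_const_one, mul_one,
    Finset.prod_const, Finset.filter_mem_eq_inter, Finset.univ_inter]

theorem case2a {n q p : ℕ} (h : Fin n → ZMod p) (r t₀ : ℝ) (hr : 0 ≤ r) (ht0 : 0 < t₀)
    (ht : 4 * (4 * r) ^ 2 ≤ q * t₀ ^ 2) (hGood : Good (Lh h) (30 * q) q (4 * (4 * r)) t₀)
    {d : ℕ} (a : Fin n → ℤ) (v : Fin d → Fin n → ℤ) (hv : ∀ i, v i ∈ Lh h) (N : Fin d → ℕ)
    (hN : ∀ i, 1 ≤ N i) (Ξ : Finset (Fin d → ℕ))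
    (hΞ : ∀ k ∈ Ξ, (∀ i, k i < N i) ∧ a + ∑ i, k i • v i ∈ BL h r)
    (H : ℕ) (hH : 1 ≤ H) (I : Finset (Fin d)) (hI : I.card = 32 * q) (hIN : ∀ i ∈ I, H ≤ N i)
    (hli : LinearIndepOn ℝ (fun i => toE (v i)) (I : Set (Fin d))) :
    Ξ.card * H ^ (28 * q) ≤ 2 ^ (32 * q) * ∏ i, N i := by
  classical
  obtain ⟨M, hM1, hM2⟩ : ∃ M : Fin d → ℕ, (∀ i ∈ I, M i = H) ∧ ∀ i, i ∉ I → M i = 1 :=
    ⟨fun i => if i ∈ I then H else 1, fun i hi => if_pos hi, fun i hi => if_neg hi⟩
  have hMN : ∀ i, M i ≤ N i := by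
    intro i
    by_cases hi : i ∈ I
    · rw [hM1 i hi]; exact hIN i hi
    · rw [hM2 i hi]; exact hN i
  obtain ⟨Y, hY, hle⟩ := restrict N M hMN Ξ
    (fun k hk i => Finset.mem_range.2 ((hΞ k hk).1 i)) Finset.univ
  rw [prodI I M H hM1 hM2, hI] at hle
  set X := Ξ.filter (fun k => ∀ i ∈ Finset.univ, k i ∈ Y i) with hX
  have hinj : Function.Injective (fun (k : Fin d → ℕ) (i : Fin d) => (k i : ℤ)) := by
    intro c c' hc
    funext i
    have := congrFun hc i
    simpa using this
  have h1 : X.card ≤ 2 ^ (32 * q) * H ^ (4 * q) := by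
    rw [← Finset.card_image_of_injective X hinj]
    refine cnt (Lh h) v I (fun i _ => hv i) hI hli H hH
      (fun i => (Y i).image (fun x : ℕ => (x : ℤ))) ?_ _ ?_ ?_ (-toE a) (4 * r) t₀ ?_
      (by positivity) ht0 ht hGood
    · intro i
      refine Finset.card_image_le.trans ?_
      rw [(hY i (Finset.mem_univ _)).2]
      by_cases hi : i ∈ I
      · rw [hM1 i hi]
      · rw [hM2 i hi]; exact hH
    · intro c hc i _
      obtain ⟨k, hk, rfl⟩ := Finset.mem_image.1 hc
      rw [hX, Finset.mem_filter] at hk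
      exact Finset.mem_image_of_mem _ (hk.2 i (Finset.mem_univ _))
    · intro c hc c' hc' i hi
      obtain ⟨k, hk, rfl⟩ := Finset.mem_image.1 hc
      obtain ⟨k', hk', rfl⟩ := Finset.mem_image.1 hc'
      rw [hX, Finset.mem_filter] at hk hk'
      have h2 : (Y i).card = 1 := by rw [(hY i (Finset.mem_univ _)).2, hM2 i hi]
      obtain ⟨y, hy⟩ := Finset.card_eq_one.1 h2
      have h3 := hk.2 i (Finset.mem_univ _)
      have h4 := hk'.2 i (Finset.mem_univ _)
      rw [hy, Finset.mem_singleton] at h3 h4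
      show (k i : ℤ) = k' i
      rw [h3, h4]
    · intro c hc
      obtain ⟨k, hk, rfl⟩ := Finset.mem_image.1 hc
      rw [hX, Finset.mem_filter] at hk
      have h2 := (hΞ k hk.1).2
      rw [mem_BL] at h2
      rw [sub_neg_eq_add, ← map_add]
      have h3 : ∑ i, ((k i : ℕ) : ℤ) • v i + a = a + ∑ i, k i • v i := by
        rw [add_comm, Finset.sum_congr rfl fun i _ => natCast_zsmul (v i) (k i)]
      rw [h3]
      linarith [h2.2]
  have h2 : Ξ.card * H ^ (28 * q) * H ^ (4 * q) ≤ 2 ^ (32 * q) * (∏ i, N i) * H ^ (4 * q) := by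
    calc Ξ.card * H ^ (28 * q) * H ^ (4 * q) = Ξ.card * H ^ (32 * q) := by
          rw [mul_assoc, ← pow_add]
          congr 2
          ring
      _ ≤ X.card * ∏ i, N i := hle
      _ ≤ (2 ^ (32 * q) * H ^ (4 * q)) * ∏ i, N i := Nat.mul_le_mul_right _ h1
      _ = _ := by ring
  exact Nat.le_of_mul_le_mul_right h2 (by positivity)

theorem case2b {n p : ℕ} (h : Fin n → ZMod p) (l : ℝ) (hl : 0 < l)
    (hmin : ∀ z ∈ Lh h, z ≠ 0 → l < ‖toE z‖) (r : ℝ) (hr : 0 ≤ r)
    {d : ℕ} (a : Fin n → ℤ) (v : Fin d → Fin n → ℤ) (N : Fin d → ℕ)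
    (E J : Finset (Fin d)) (hJ : ∀ i, i ∉ J → N i ≤ 1) (H : ℕ) (hH : 1 ≤ H) (D : ℕ)
    (hD : Module.finrank ℚ (Submodule.span ℚ ((fun i => toE (v i)) ''
        ((E.filter (fun i => H ≤ N i) : Finset (Fin d)) : Set (Fin d)))) +
      Module.finrank ℚ (Submodule.span ℚ ((fun i => toE (v i)) ''
        ((J \ E : Finset (Fin d)) : Set (Fin d)))) ≤ D)
    (S : Finset (Fin n → ℤ)) (hS : ∀ x ∈ S, x ∈ BL h r)
    (hS2 : ∀ x ∈ S, ∃ k : Fin d → ℕ, (∀ i, k i < N i) ∧ x = a + ∑ i, k i • v i) :
    (S.card : ℝ) ≤ (H : ℝ) ^ E.card * (4 * (r / l) + 1) ^ D := by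
  classical
  choose! k hk1 hk2 using hS2
  set W1 := Submodule.span ℚ ((fun i => toE (v i)) ''
        ((E.filter (fun i => H ≤ N i) : Finset (Fin d)) : Set (Fin d))) with hW1
  set W2 := Submodule.span ℚ ((fun i => toE (v i)) ''
        ((J \ E : Finset (Fin d)) : Set (Fin d))) with hW2
  have : FiniteDimensional ℚ W1 := FiniteDimensional.span_of_finite ℚ
    ((Finset.finite_toSet _).image _)
  have : FiniteDimensional ℚ W2 := FiniteDimensional.span_of_finite ℚ
    ((Finset.finite_toSet _).image _)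
  set ψ : (Fin n → ℤ) → (E → ℕ) := fun x i => if H ≤ N i then 0 else k x i with hψ
  have himg : (S.image ψ).card ≤ H ^ E.card := by
    have h1 : S.image ψ ⊆ Fintype.piFinset (fun _ : E => range H) := by
      intro w hw
      obtain ⟨x, hx, rfl⟩ := Finset.mem_image.1 hw
      rw [Fintype.mem_piFinset]
      intro i
      rw [Finset.mem_range]
      simp only [hψ]
      split_ifs with hi
      · omega
      · have := hk1 x hx i
        omega
    have h2 := Finset.card_le_card h1
    rw [Fintype.card_piFinset, Finset.prod_const, Finset.card_univ, Fintype.card_coe,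
      Finset.card_range] at h2
    exact h2
  have hfib : ∀ w ∈ S.image ψ, ((S.filter (fun x => ψ x = w)).card : ℝ) ≤
      (4 * (r / l) + 1) ^ D := by
    intro w hw
    obtain ⟨x₀, hx₀, rfl⟩ := Finset.mem_image.1 hw
    refine flat_upper h l hl hmin r hr (W1 ⊔ W2) D
      ((Submodule.finrank_add_le_finrank_add_finrank W1 W2).trans hD) (toE x₀) _ ?_ ?_
    · intro y hy
      exact hS y (Finset.mem_filter.1 hy).1
    · intro y hy
      obtain ⟨hyS, hyψ⟩ := Finset.mem_filter.1 hy
      have h1 : toE y - toE x₀ = ∑ i, (((k y i : ℤ) - (k x₀ i : ℤ) : ℤ) : ℚ) • toE (v i) := by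
        have h2 : y - x₀ = ∑ i, ((k y i : ℤ) - (k x₀ i : ℤ)) • v i := by
          calc y - x₀ = (a + ∑ i, k y i • v i) - (a + ∑ i, k x₀ i • v i) := by
                rw [← hk2 y hyS, ← hk2 x₀ hx₀]
            _ = ∑ i, k y i • v i - ∑ i, k x₀ i • v i := by abel
            _ = _ := by
                rw [← Finset.sum_sub_distrib]
                refine Finset.sum_congr rfl fun i _ => ?_
                rw [sub_smul, natCast_zsmul, natCast_zsmul]
        rw [← map_sub, h2, map_sum]
        refine Finset.sum_congr rfl fun i _ => ?_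
        rw [map_zsmul, Int.cast_smul_eq_zsmul]
      rw [h1]
      refine Submodule.sum_mem _ fun i _ => ?_
      by_cases hiE : i ∈ E
      · by_cases hiH : H ≤ N i
        · refine Submodule.smul_mem _ _ (Submodule.mem_sup_left (Submodule.subset_span ?_))
          exact ⟨i, by
            rw [Finset.mem_coe, Finset.mem_filter]
            exact ⟨hiE, hiH⟩, rfl⟩
        · have h3 := congrFun hyψ ⟨i, hiE⟩
          simp only [hψ] at h3
          rw [if_neg hiH, if_neg hiH] at h3
          rw [h3, sub_self, Int.cast_zero, zero_smul]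
          exact Submodule.zero_mem _
      · by_cases hiJ : i ∈ J
        · refine Submodule.smul_mem _ _ (Submodule.mem_sup_right (Submodule.subset_span ?_))
          exact ⟨i, by
            rw [Finset.mem_coe, Finset.mem_sdiff]
            exact ⟨hiJ, hiE⟩, rfl⟩
        · have h3 := hJ i hiJ
          have h4 := hk1 y hyS i
          have h5 := hk1 x₀ hx₀ i
          have h6 : k y i = 0 := by omega
          have h7 : k x₀ i = 0 := by omega
          rw [h6, h7, sub_self, Int.cast_zero, zero_smul]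
          exact Submodule.zero_mem _
  have h0 : 0 ≤ r / l := by positivity
  calc (S.card : ℝ) = ∑ w ∈ S.image ψ, ((S.filter (fun x => ψ x = w)).card : ℝ) := by
        rw [Finset.card_eq_sum_card_image ψ S]
        push_cast
        rfl
    _ ≤ ∑ _w ∈ S.image ψ, (4 * (r / l) + 1) ^ D := Finset.sum_le_sum hfib
    _ = ((S.image ψ).card : ℝ) * (4 * (r / l) + 1) ^ D := by
        rw [Finset.sum_const, nsmul_eq_mul]
    _ ≤ _ := by
        refine mul_le_mul_of_nonneg_right ?_ (by positivity)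
        exact_mod_cast himg

end H972P
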