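import Mathlib

set_option autoImplicit false

/-! A shattering theorem for sets of integer vectors (Sauer, Shelah, Natarajan). -/

open Finset

namespace H972P

/-- threshold -/
def thr (N c : ℕ) : ℕ → ℕ
  | 0 => 0
  | (m + 1) => 2 ^ c * N ^ (2 * m)

theorem nata {κ : Type*} [DecidableEq κ] (N : ℕ) (hN : 1 ≤ N) (Y : κ → Finset ℤ)
    (hY : ∀ i, (Y i).card ≤ N) (s : Finset κ) : ∀ (m : ℕ) (X : Finset (κ → ℤ)),
    (∀ c ∈ X, ∀ i ∈ s, c i ∈ Y i) → (∀ c ∈ X, ∀ c' ∈ X, ∀ i, i ∉ s → c i = c' i) →
    thr N s.card m < X.card → ∃ J ⊆ s, J.card = m ∧ ∃ a b : κ → ℤ, (∀ i ∈ J, a i ≠ b i) ∧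
      ∀ η ⊆ J, ∃ c ∈ X, ∀ i ∈ J, c i = if i ∈ η then b i else a i := by
  classical
  induction s using Finset.induction_on with
  | empty =>
    intro m X hX1 hX2 hX
    have hle : X.card ≤ 1 := by
      rw [Finset.card_le_one]
      intro c hc c' hc'
      funext i
      exact hX2 c hc c' hc' i (by simp)
    cases m with
    | zero =>
      have hne : X.Nonempty := by
        rw [← Finset.card_pos]; exact lt_of_le_of_lt (Nat.zero_le _) hX
      obtain ⟨c, hc⟩ := hne
      exact ⟨∅, by simp, by simp, c, c, by simp, fun η _ => ⟨c, hc, by simp⟩⟩
    | succ m =>
      exfalso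
      simp only [thr, Finset.card_empty, pow_zero, one_mul] at hX
      have : 1 ≤ N ^ (2 * m) := Nat.one_le_pow _ _ hN
      omega
  | insert i0 s hi0 ih =>
    intro m X hX1 hX2 hX
    cases m with
    | zero =>
      have hne : X.Nonempty := by
        rw [← Finset.card_pos]; exact lt_of_le_of_lt (Nat.zero_le _) hX
      obtain ⟨c, hc⟩ := hne
      exact ⟨∅, by simp, by simp, c, c, by simp, fun η _ => ⟨c, hc, by simp⟩⟩
    | succ m =>
      set fl : (κ → ℤ) → (κ → ℤ) := fun c => Function.update c i0 0 with hfl
      set X' := X.image fl with hX'
      set P : ℤ × ℤ → Finset (κ → ℤ) := fun ab =>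
        X'.filter (fun c => Function.update c i0 ab.1 ∈ X ∧ Function.update c i0 ab.2 ∈ X) with hP
      have hflu : ∀ c, Function.update (fl c) i0 (c i0) = c := by
        intro c
        simp only [hfl, Function.update_idem, Function.update_eq_self]
      have hX'2 : ∀ c ∈ X', ∀ c' ∈ X', ∀ i, i ∉ s → c i = c' i := by
        intro c hc c' hc' i hi
        rw [hX', Finset.mem_image] at hc hc'
        obtain ⟨d, hd, rfl⟩ := hc
        obtain ⟨d', hd', rfl⟩ := hc'
        by_cases h : i = i0
        · subst h; simp [hfl]
        · simp only [hfl, Function.update_of_ne h]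
          exact hX2 d hd d' hd' i (by simp [h, hi])
      have hX'1 : ∀ c ∈ X', ∀ i ∈ s, c i ∈ Y i := by
        intro c hc i hi
        rw [hX', Finset.mem_image] at hc
        obtain ⟨d, hd, rfl⟩ := hc
        have h : i ≠ i0 := fun h => hi0 (h ▸ hi)
        simp only [hfl, Function.update_of_ne h]
        exact hX1 d hd i (by simp [hi])
      -- counting
      have hcount : X.card ≤ X'.card + ∑ ab ∈ (Y i0).offDiag, (P ab).card := by
        have h1 : X.card = ∑ c ∈ X', (X.filter (fun d => fl d = c)).card :=
          Finset.card_eq_sum_card_image fl X
        have h2 : ∀ c ∈ X', (X.filter (fun d => fl d = c)).card ≤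
            1 + ∑ ab ∈ (Y i0).offDiag, (if (Function.update c i0 ab.1 ∈ X ∧
              Function.update c i0 ab.2 ∈ X) then 1 else 0) := by
          intro c hc
          set T := (Y i0).filter (fun y => Function.update c i0 y ∈ X) with hT
          have h3 : (X.filter (fun d => fl d = c)).card ≤ T.card := by
            refine Finset.card_le_card_of_injOn (fun d => d i0) ?_ ?_
            · intro d hd
              simp only [Finset.coe_filter, Set.mem_setOf_eq] at hd
              simp only [hT, Finset.coe_filter, Set.mem_setOf_eq]
              refine ⟨hX1 d hd.1 i0 (by simp), ?_⟩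
              rw [← hd.2, hflu]
              exact hd.1
            · intro d hd d' hd' hdd
              simp only [Finset.coe_filter, Set.mem_setOf_eq] at hd hd'
              rw [← hflu d, ← hflu d', hd.2, hd'.2]
              simp only at hdd
              rw [hdd]
          have h4 : ∑ ab ∈ (Y i0).offDiag, (if (Function.update c i0 ab.1 ∈ X ∧
              Function.update c i0 ab.2 ∈ X) then 1 else 0) = T.offDiag.card := by
            rw [Finset.sum_boole]
            simp only [Nat.cast_id]
            congr 1
            ext ⟨x, y⟩
            simp only [hT, Finset.mem_filter, Finset.mem_offDiag]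
            tauto
          rw [h4, Finset.offDiag_card]
          refine h3.trans ?_
          rcases Nat.eq_zero_or_pos T.card with h0 | h0
          · omega
          · have : T.card - 1 ≤ T.card * T.card - T.card := by
              have : T.card * T.card - T.card = T.card * (T.card - 1) := by
                rw [Nat.mul_sub, mul_one]
              rw [this]
              exact Nat.le_mul_of_pos_left _ h0
            omega
        have h5 : ∑ ab ∈ (Y i0).offDiag, (P ab).card = ∑ c ∈ X', ∑ ab ∈ (Y i0).offDiag,
            (if (Function.update c i0 ab.1 ∈ X ∧ Function.update c i0 ab.2 ∈ X) then 1 else 0) := by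
          rw [Finset.sum_comm]
          refine Finset.sum_congr rfl fun ab _ => ?_
          rw [hP, Finset.card_filter]
        rw [h1, h5]
        refine (Finset.sum_le_sum h2).trans ?_
        rw [Finset.sum_add_distrib]
        simp
      have hoff : (Y i0).offDiag.card ≤ N ^ 2 := by
        rw [Finset.offDiag_card]
        have := hY i0
        calc (Y i0).card * (Y i0).card - (Y i0).card ≤ (Y i0).card * (Y i0).card := Nat.sub_le _ _
          _ ≤ N * N := Nat.mul_le_mul this this
          _ = N ^ 2 := by ring
      rw [Finset.card_insert_of_notMem hi0] at hX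
      by_cases h1 : thr N s.card (m + 1) < X'.card
      · obtain ⟨J, hJs, hJc, a, b, hab, hpat⟩ := ih (m + 1) X' hX'1 hX'2 h1
        refine ⟨J, hJs.trans (Finset.subset_insert _ _), hJc, a, b, hab, ?_⟩
        intro η hη
        obtain ⟨c, hc, hc2⟩ := hpat η hη
        rw [hX', Finset.mem_image] at hc
        obtain ⟨d, hd, rfl⟩ := hc
        refine ⟨d, hd, fun i hi => ?_⟩
        have h : i ≠ i0 := fun h => hi0 (h ▸ hJs hi)
        have := hc2 i hi
        simp only [hfl, Function.update_of_ne h] at this
        exact this
      · push Not at h1
        obtain ⟨ab, hab, hcard⟩ : ∃ ab ∈ (Y i0).offDiag, thr N s.card m < (P ab).card := by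
          by_contra hcon
          push Not at hcon
          have h2 : ∑ ab ∈ (Y i0).offDiag, (P ab).card ≤ N ^ 2 * thr N s.card m := by
            refine (Finset.sum_le_card_nsmul _ _ _ hcon).trans ?_
            rw [smul_eq_mul]
            exact Nat.mul_le_mul_right _ hoff
          have h3 : N ^ 2 * thr N s.card m ≤ thr N s.card (m + 1) := by
            cases m with
            | zero => simp [thr]
            | succ m =>
              simp only [thr]
              apply le_of_eq
              ring
          have h4 : thr N (s.card + 1) (m + 1) = thr N s.card (m + 1) + thr N s.card (m + 1) := by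
            simp only [thr]
            ring
          omega
        rw [Finset.mem_offDiag] at hab
        obtain ⟨J, hJs, hJc, a, b, hab2, hpat⟩ := ih m (P ab)
          (fun c hc => hX'1 c (Finset.mem_of_mem_filter c hc))
          (fun c hc c' hc' => hX'2 c (Finset.mem_of_mem_filter c hc) c'
            (Finset.mem_of_mem_filter c' hc')) hcard
        have hi0J : i0 ∉ J := fun h => hi0 (hJs h)
        refine ⟨insert i0 J, Finset.insert_subset_insert _ hJs,
          by rw [Finset.card_insert_of_notMem hi0J, hJc], Function.update a i0 ab.1,
          Function.update b i0 ab.2, ?_, ?_⟩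
        · intro i hi
          rw [Finset.mem_insert] at hi
          by_cases h : i = i0
          · subst h
            simp only [Function.update_self]
            exact hab.2.2
          · rw [Function.update_of_ne h, Function.update_of_ne h]
            exact hab2 i (hi.resolve_left h)
        · intro η hη
          obtain ⟨c, hc, hc2⟩ := hpat (η.erase i0) (by
            intro i hi
            rw [Finset.mem_erase] at hi
            exact (Finset.mem_insert.1 (hη hi.2)).resolve_left hi.1)
          rw [hP] at hc
          simp only [Finset.mem_filter] at hc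
          refine ⟨Function.update c i0 (if i0 ∈ η then ab.2 else ab.1), ?_, ?_⟩
          · split_ifs
            · exact hc.2.2
            · exact hc.2.1
          · intro i hi
            by_cases h : i = i0
            · subst h
              simp only [Function.update_self]
            · rw [Function.update_of_ne h, Function.update_of_ne h, Function.update_of_ne h]
              rw [Finset.mem_insert] at hi
              rw [hc2 i (hi.resolve_left h)]
              simp [h]

end H972P
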