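import Mathlib

set_option autoImplicit false

/-! Restriction of a dense subset of a box to a smaller box. -/

open Finset

namespace H972P

theorem pick (X : Finset ℕ) (f : ℕ → ℕ) : ∀ j ≤ X.card, ∃ Y ⊆ X, Y.card = X.card - j ∧
    (∑ x ∈ X, f x) * (X.card - j) ≤ (∑ x ∈ Y, f x) * X.card := by
  intro j
  induction j with
  | zero => intro _; exact ⟨X, Finset.Subset.refl _, by simp, by simp⟩
  | succ j ih =>
    intro hj
    obtain ⟨Y, hYX, hYc, hY⟩ := ih (by omega)
    have hYne : Y.Nonempty := by
      rw [← Finset.card_pos]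
      omega
    obtain ⟨y, hy, hmin⟩ := Finset.exists_min_image Y f hYne
    obtain ⟨M, hM⟩ : ∃ M, X.card - j = M + 1 := ⟨X.card - j - 1, by omega⟩
    have hM2 : X.card - (j + 1) = M := by omega
    refine ⟨Y.erase y, (Finset.erase_subset _ _).trans hYX, ?_, ?_⟩
    · rw [Finset.card_erase_of_mem hy, hYc]
      omega
    · rw [hM2]
      rw [hM] at hY hYc
      have h1 : (M + 1) * f y ≤ ∑ x ∈ Y, f x := by
        rw [← hYc, ← smul_eq_mul]
        exact Finset.card_nsmul_le_sum Y f (f y) hmin
      have h2 : ∑ x ∈ Y, f x = f y + ∑ x ∈ Y.erase y, f x := (Finset.add_sum_erase _ _ hy).symm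
      have h3 : M * f y ≤ ∑ x ∈ Y.erase y, f x := by
        have : (M + 1) * f y = M * f y + f y := by ring
        omega
      have h4 : (∑ x ∈ X, f x) * M * (M + 1) ≤ (∑ x ∈ Y.erase y, f x) * X.card * (M + 1) := by
        calc (∑ x ∈ X, f x) * M * (M + 1) = (∑ x ∈ X, f x) * (M + 1) * M := by ring
          _ ≤ (∑ x ∈ Y, f x) * X.card * M := Nat.mul_le_mul_right _ hY
          _ = (M * f y + M * ∑ x ∈ Y.erase y, f x) * X.card := by rw [h2]; ring
          _ ≤ (∑ x ∈ Y.erase y, f x + M * ∑ x ∈ Y.erase y, f x) * X.card :=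
              Nat.mul_le_mul_right _ (Nat.add_le_add_right h3 _)
          _ = _ := by ring
      exact Nat.le_of_mul_le_mul_right h4 (by omega)

theorem restrict {d : ℕ} (N M : Fin d → ℕ) (hM : ∀ i, M i ≤ N i) (Ξ : Finset (Fin d → ℕ))
    (hΞ : ∀ k ∈ Ξ, ∀ i, k i ∈ range (N i)) (S : Finset (Fin d)) :
    ∃ Y : Fin d → Finset ℕ, (∀ i ∈ S, Y i ⊆ range (N i) ∧ (Y i).card = M i) ∧
      Ξ.card * ∏ i ∈ S, M i ≤ (Ξ.filter (fun k => ∀ i ∈ S, k i ∈ Y i)).card * ∏ i ∈ S, N i := by
  classical
  induction S using Finset.induction_on with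
  | empty => exact ⟨fun _ => ∅, by simp, by simp⟩
  | insert j S hj ih =>
    obtain ⟨Y, hY, hle⟩ := ih
    set Ξ' := Ξ.filter (fun k => ∀ i ∈ S, k i ∈ Y i) with hΞ'
    obtain ⟨Z, hZ, hZc, hZle⟩ := pick (range (N j)) (fun y => (Ξ'.filter (fun k => k j = y)).card)
      (N j - M j) (by rw [Finset.card_range]; omega)
    rw [Finset.card_range, Nat.sub_sub_self (hM j)] at hZc hZle
    have h1 : ∑ y ∈ range (N j), (Ξ'.filter (fun k => k j = y)).card = Ξ'.card := by
      symm
      apply Finset.card_eq_sum_card_fiberwise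
      intro k hk
      rw [Finset.mem_coe, hΞ', Finset.mem_filter] at hk
      exact hΞ k hk.1 j
    have h2 : ∑ y ∈ Z, (Ξ'.filter (fun k => k j = y)).card =
        (Ξ'.filter (fun k => k j ∈ Z)).card := by
      rw [Finset.card_eq_sum_card_fiberwise (f := fun k : Fin d → ℕ => k j) (t := Z)
        (s := Ξ'.filter (fun k => k j ∈ Z))]
      · refine Finset.sum_congr rfl fun y hy => ?_
        congr 1
        ext k
        simp only [Finset.mem_filter]
        constructor
        · rintro ⟨h, rfl⟩; exact ⟨⟨h, hy⟩, rfl⟩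
        · rintro ⟨⟨h, -⟩, h2⟩; exact ⟨h, h2⟩
      · intro k hk
        rw [Finset.mem_coe, Finset.mem_filter] at hk
        exact hk.2
    rw [h1, h2] at hZle
    refine ⟨Function.update Y j Z, ?_, ?_⟩
    · intro i hi
      by_cases hij : i = j
      · subst hij
        rw [Function.update_self]
        exact ⟨hZ, hZc⟩
      · rw [Function.update_of_ne hij]
        rcases Finset.mem_insert.1 hi with h | h
        · exact absurd h hij
        · exact hY i h
    · rw [Finset.prod_insert hj, Finset.prod_insert hj]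
      have h3 : Ξ'.filter (fun k => k j ∈ Z) ⊆
          Ξ.filter (fun k => ∀ i ∈ insert j S, k i ∈ Function.update Y j Z i) := by
        intro k hk
        rw [Finset.mem_filter, hΞ', Finset.mem_filter] at hk
        rw [Finset.mem_filter]
        refine ⟨hk.1.1, fun i hi => ?_⟩
        by_cases hij : i = j
        · subst hij
          rw [Function.update_self]
          exact hk.2
        · rw [Function.update_of_ne hij]
          rcases Finset.mem_insert.1 hi with h | h
          · exact absurd h hij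
          · exact hk.1.2 i h
      have h4 := Finset.card_le_card h3
      calc Ξ.card * (M j * ∏ i ∈ S, M i) = (Ξ.card * ∏ i ∈ S, M i) * M j := by ring
        _ ≤ (Ξ'.card * ∏ i ∈ S, N i) * M j := Nat.mul_le_mul_right _ hle
        _ = (Ξ'.card * M j) * ∏ i ∈ S, N i := by ring
        _ ≤ ((Ξ'.filter (fun k => k j ∈ Z)).card * N j) * ∏ i ∈ S, N i :=
            Nat.mul_le_mul_right _ hZle
        _ ≤ ((Ξ.filter (fun k => ∀ i ∈ insert j S, k i ∈ Function.update Y j Z i)).card * N j) *
              ∏ i ∈ S, N i := Nat.mul_le_mul_right _ (Nat.mul_le_mul_right _ h4)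
        _ = _ := by ring

end H972P
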