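import Pool.Agent.helper972_pfr.Size
import Pool.Agent.helper972_pfr.Restrict
import Pool.Agent.helper972_pfr.Nata
import Pool.Agent.R851.RR.Core

set_option autoImplicit false

/-! Counting coefficient vectors with image in a ball, for independent generators. -/

open Finset

namespace H972P

open Pool.Agent.R934.LB (toE toE_apply toE_inj sq_nonneg' norm_toE red)

/-- integer vectors without integer relations are independent over the reals -/
theorem indepR {ι : Type*} [Fintype ι] {n : ℕ} (x : ι → Fin n → ℤ)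
    (hx : ∀ c : ι → ℤ, ∑ i, c i • toE (x i) = 0 → ∀ i, c i = 0) :
    LinearIndependent ℝ (fun i => toE (x i)) := by
  classical
  rw [Fintype.linearIndependent_iff]
  intro v hv
  by_contra hcon
  push Not at hcon
  obtain ⟨i0, hi0⟩ := hcon
  obtain ⟨G, hG⟩ : ∃ G : Matrix ι ι ℤ, ∀ i j, G i j = ∑ k, x i k * x j k :=
    ⟨Matrix.of fun i j => ∑ k, x i k * x j k, fun i j => rfl⟩
  have h1 : (G.map (fun t : ℤ => (t : ℝ))).det = 0 := by
    rw [← Matrix.exists_mulVec_eq_zero_iff]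
    refine ⟨v, fun h => hi0 (congrFun h i0), ?_⟩
    funext i
    simp only [Matrix.mulVec, dotProduct, Matrix.map_apply, Pi.zero_apply, hG]
    push_cast
    simp only [Finset.sum_mul]
    rw [Finset.sum_comm]
    refine Finset.sum_eq_zero fun k _ => ?_
    have h2 : ∑ j, v j * (x j k : ℝ) = 0 := by
      have h3 := congrArg (fun w : EE n => w k) hv
      simp only [PiLp.zero_apply] at h3
      rw [← h3]
      rw [WithLp.ofLp_sum, Finset.sum_apply]
      refine Finset.sum_congr rfl fun j _ => ?_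
      rw [PiLp.smul_apply, toE_apply, smul_eq_mul]
    calc ∑ j, (x i k : ℝ) * (x j k : ℝ) * v j = (x i k : ℝ) * ∑ j, v j * (x j k : ℝ) := by
          rw [Finset.mul_sum]
          exact Finset.sum_congr rfl fun j _ => by ring
      _ = 0 := by rw [h2, mul_zero]
  have h2 : G.det = 0 := by
    have h3 := Int.cast_det (R := ℝ) G
    have h4 : ((G.det : ℤ) : ℝ) = 0 := h3.trans h1
    exact_mod_cast h4
  obtain ⟨c, hc0, hc⟩ := Matrix.exists_mulVec_eq_zero_iff.2 h2
  have h5 : ‖toE (∑ i, c i • x i)‖ ^ 2 = 0 := by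
    rw [norm_toE]
    have h6 : sqn (∑ i, c i • x i) = ∑ i, c i * ∑ j, G i j * c j := by
      unfold sqn Pool.Agent.R934.LB.sq
      have : ∀ k, (∑ i, c i • x i) k = ∑ i, c i * x i k := by
        intro k
        rw [Finset.sum_apply]
        rfl
      simp only [this, hG, _root_.sq, Finset.sum_mul, Finset.mul_sum]
      rw [Finset.sum_comm]
      refine Finset.sum_congr rfl fun i _ => ?_
      rw [Finset.sum_comm]
      refine Finset.sum_congr rfl fun j _ => ?_
      refine Finset.sum_congr rfl fun k _ => ?_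
      ring
    unfold sqn at h6
    rw [h6]
    have h7 : ∑ i, c i * ∑ j, G i j * c j = 0 := by
      refine Finset.sum_eq_zero fun i _ => ?_
      have h8 := congrFun hc i
      simp only [Matrix.mulVec, dotProduct, Pi.zero_apply] at h8
      rw [h8, mul_zero]
    rw [h7, Int.cast_zero]
  have h9 : toE (∑ i, c i • x i) = 0 := by
    have := pow_eq_zero_iff (n := 2) (by norm_num) |>.1 h5
    exact norm_eq_zero.1 this
  have h10 : ∑ i, c i • toE (x i) = 0 := by
    rw [← h9, map_sum]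
    refine Finset.sum_congr rfl fun i _ => ?_
    rw [map_zsmul]
  exact hc0 (funext fun i => hx c h10 i)

theorem indepR_on {ι : Type*} {n : ℕ} (x : ι → Fin n → ℤ) (B : Finset ι)
    (hB : LinearIndepOn ℚ (fun i => toE (x i)) (B : Set ι)) :
    LinearIndepOn ℝ (fun i => toE (x i)) (B : Set ι) := by
  have h := indepR (fun i : B => x i) (fun c hc i => R851RR.indep_int (fun i => toE (x i)) B hB c hc i)
  exact h

theorem thr_le (N q : ℕ) (hN : 1 ≤ N) (c : ℕ) : thr N c (2 * q) ≤ 2 ^ c * N ^ (4 * q) := by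
  rcases Nat.eq_zero_or_pos q with rfl | hq
  · simp [thr]
  · obtain ⟨m, hm⟩ : ∃ m, 2 * q = m + 1 := ⟨2 * q - 1, by omega⟩
    rw [hm]
    show 2 ^ c * N ^ (2 * m) ≤ _
    exact Nat.mul_le_mul_left _ (Nat.pow_le_pow_right hN (by omega))

theorem cnt {n q : ℕ} {κ : Type*} [Fintype κ] [DecidableEq κ]
    (L : AddSubgroup (Fin n → ℤ)) (g : κ → Fin n → ℤ) (s : Finset κ) (hg : ∀ i ∈ s, g i ∈ L)
    (hs : s.card = 32 * q) (hli : LinearIndepOn ℝ (fun i => toE (g i)) (s : Set κ))
    (N : ℕ) (hN : 1 ≤ N) (Y : κ → Finset ℤ) (hY : ∀ i, (Y i).card ≤ N)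
    (X : Finset (κ → ℤ)) (hX1 : ∀ c ∈ X, ∀ i ∈ s, c i ∈ Y i)
    (hX2 : ∀ c ∈ X, ∀ c' ∈ X, ∀ i, i ∉ s → c i = c' i)
    (x : EE n) (ρ t₀ : ℝ) (hball : ∀ c ∈ X, ‖toE (∑ i, c i • g i) - x‖ ≤ ρ)
    (hρ : 0 ≤ ρ) (ht0 : 0 < t₀) (ht : 4 * ρ ^ 2 ≤ q * t₀ ^ 2)
    (hGood : Good L (30 * q) q (4 * ρ) t₀) : X.card ≤ 2 ^ (32 * q) * N ^ (4 * q) := by
  by_contra hcon
  push Not at hcon
  have h1 : thr N s.card (2 * q) < X.card := by
    rw [hs]
    exact (thr_le N q hN _).trans_lt hcon
  obtain ⟨J, hJs, hJ, a, b, hab, hpat⟩ := nata N hN Y hY s (2 * q) X hX1 hX2 h1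
  exact shat L g s hg (by omega) hli X hX2 x ρ t₀ hball hρ ht0 ht hGood J hJ a b hab hpat

end H972P
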