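import Pool.Agent.helper972_pfr.Case2

set_option autoImplicit false

/-! The three alternatives. -/

open Finset

namespace H972P

open Pool.Agent.R934.LB (toE toE_apply toE_inj sq_nonneg' norm_toE red)

open Classical in
theorem three {n q p : ℕ} (h : Fin n → ZMod p) (r t₀ : ℝ) (hr : 0 ≤ r) (ht0 : 0 < t₀)
    (ht : 4 * (4 * r) ^ 2 ≤ q * t₀ ^ 2) (hGood : Good (Lh h) (30 * q) q (4 * (4 * r)) t₀)
    (l : ℝ) (hl : 0 < l) (hmin : ∀ z ∈ Lh h, z ≠ 0 → l < ‖toE z‖)
    {d : ℕ} (a a' : Fin n → ℤ) (v : Fin d → Fin n → ℤ) (hv : ∀ i, v i ∈ Lh h) (N : Fin d → ℕ)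
    (hN : ∀ i, 1 ≤ N i) (s H : ℕ) (hH : 1 ≤ H) (Ξ : Finset (Fin d → ℕ))
    (hΞ : ∀ k ∈ Ξ, (∀ i, k i < N i) ∧ a' + ∑ i, k i • v i ∈ BL h r)
    (S : Finset (Fin n → ℤ)) (hS : ∀ x ∈ S, x ∈ BL h r)
    (hS2 : ∀ x ∈ S, ∃ k : Fin d → ℕ, (∀ i, k i < N i) ∧ x = a + ∑ i, k i • v i) :
    (((BL h r).card : ℝ) ^ 2 * (Ξ.card : ℝ) ^ 2 * (2 * ((2 ^ s : ℕ) : ℝ) + 1) ^ (12 * q) ≤
      ((∏ i, N i : ℕ) : ℝ) ^ 2 * ((BL h (2 * r)).card : ℝ) ^ 2 * 2 ^ (32 * q)) ∨
    (Ξ.card * H ^ (28 * q) ≤ 2 ^ (32 * q) * ∏ i, N i) ∨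
    ((S.card : ℝ) ≤ (H : ℝ) ^ (2 ^ s * n) * (4 * (r / l) + 1) ^ (64 * q)) := by
  set J : Finset (Fin d) := Finset.univ.filter (fun i => 2 ≤ N i) with hJ
  obtain ⟨E, hEJ, hEcard, B, hBE, hdis, hB⟩ :=
    R851RR.greedy (fun i => toE (v i)) J (2 ^ s)
  set w := Module.finrank ℚ (Submodule.span ℚ ((fun i => toE (v i)) '' (↑(J \ E) : Set (Fin d))))
    with hw
  have hrank : Module.finrank ℚ (Submodule.span ℚ ((fun i => toE (v i)) '' (J : Set (Fin d)))) ≤ n := by
    obtain ⟨B', -, hli, hc⟩ := R851RR.exists_base (fun i => toE (v i)) J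
    rw [← hc]
    have h1 := indepR_on v B' hli
    have h2 : LinearIndependent ℝ (fun i : B' => toE (v i)) := h1
    have h3 := h2.fintype_card_le_finrank
    rw [Fintype.card_coe, finrank_euclideanSpace, Fintype.card_fin] at h3
    exact h3
  by_cases hwq : 32 * q ≤ w
  · left
    have hex : ∀ t < 2 ^ s, ∃ D : Finset (Fin d), D ⊆ B t ∧ D.card = 32 * q := by
      intro t ht
      refine Finset.exists_subset_card_eq ?_
      rw [(hB t ht).2]
      exact hwq
    choose! D hDsub hDcard using hex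
    refine case1 h r t₀ hr ht0 ht hGood a' v hv N hN Ξ hΞ s D ?_ hDcard ?_ ?_
    · intro t ht t' ht' hne
      exact Disjoint.mono (hDsub t ht) (hDsub t' ht') (hdis t ht t' ht' hne)
    · intro t ht i hi
      have h1 := hEJ (hBE t ht (hDsub t ht hi))
      rw [hJ, Finset.mem_filter] at h1
      exact h1.2
    · intro t ht
      exact indepR_on v (D t) ((hB t ht).1.mono (by exact_mod_cast hDsub t ht))
  · right
    push Not at hwq
    set w' := Module.finrank ℚ (Submodule.span ℚ ((fun i => toE (v i)) ''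
      ((E.filter (fun i => H ≤ N i) : Finset (Fin d)) : Set (Fin d)))) with hw'
    by_cases hwq' : 32 * q ≤ w'
    · left
      obtain ⟨B', hB'E, hli, hc⟩ := R851RR.exists_base (fun i => toE (v i))
        (E.filter (fun i => H ≤ N i))
      obtain ⟨I, hIB, hI⟩ := Finset.exists_subset_card_eq (s := B') (n := 32 * q) (by
        rw [hc]
        exact hwq')
      refine case2a h r t₀ hr ht0 ht hGood a' v hv N hN Ξ hΞ H hH I hI ?_ ?_
      · intro i hi
        exact (Finset.mem_filter.1 (hB'E (hIB hi))).2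
      · exact indepR_on v I (hli.mono (by exact_mod_cast hIB))
    · right
      push Not at hwq'
      have h1 := case2b h l hl hmin r hr a v N E J (by
        intro i hi
        by_contra hcon
        push Not at hcon
        apply hi
        rw [hJ, Finset.mem_filter]
        exact ⟨Finset.mem_univ _, hcon⟩) H hH (64 * q) (by omega) S hS hS2
      refine h1.trans ?_
      have h0 : 0 ≤ r / l := by positivity
      refine mul_le_mul_of_nonneg_right ?_ (by positivity)
      refine pow_le_pow_right₀ (by exact_mod_cast hH) ?_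
      exact hEcard.trans (Nat.mul_le_mul_left _ hrank)

end H972P
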