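import Mathlib

set_option autoImplicit false
open scoped Pointwise

/-! Progressions controlled by a set contain a positive proportion of their parameters in a
translate of the set. -/

open Finset

namespace H972P

section

variable {G : Type*} [AddCommGroup G] [DecidableEq G] {d : ℕ}

/-- the box of parameters -/
def box (N : Fin d → ℕ) : Finset (Fin d → ℕ) := Fintype.piFinset fun i => range (N i)

theorem mem_box (N : Fin d → ℕ) (k : Fin d → ℕ) : k ∈ box N ↔ ∀ i, k i < N i := by
  unfold box
  rw [Fintype.mem_piFinset]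
  exact forall_congr' fun i => Finset.mem_range

theorem card_box (N : Fin d → ℕ) : (box N).card = ∏ i, N i := by
  unfold box
  rw [Fintype.card_piFinset]
  exact Finset.prod_congr rfl fun i _ => Finset.card_range _

/-- the progression as a finset -/
def prF (a : G) (v : Fin d → G) (N : Fin d → ℕ) : Finset G :=
  (box N).image (fun k => a + ∑ i, k i • v i)

theorem avg (a : G) (v : Fin d → G) (N : Fin d → ℕ) (hN : ∀ i, 1 ≤ N i) (A : Finset G)
    (hA : A.Nonempty) : ∃ x : G, A.card * ∏ i, N i ≤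
      ((box N).filter (fun k => x + ∑ i, k i • v i ∈ A)).card * (prF a v N - A).card := by
  have hbox : (box N).Nonempty := ⟨fun _ => 0, (mem_box _ _).2 fun i => hN i⟩
  have hD : (prF a v N - A).Nonempty := (hbox.image _).sub hA
  obtain ⟨y, -, hmax⟩ := Finset.exists_max_image (prF a v N - A)
    (fun y => ((box N).filter (fun k => (a + ∑ i, k i • v i) - y ∈ A)).card) hD
  refine ⟨a - y, ?_⟩
  have h1 : ∑ y ∈ prF a v N - A, ((box N).filter (fun k => (a + ∑ i, k i • v i) - y ∈ A)).card =
      ∑ k ∈ box N, ((prF a v N - A).filter (fun y => (a + ∑ i, k i • v i) - y ∈ A)).card :=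
    (Finset.sum_card_bipartiteAbove_eq_sum_card_bipartiteBelow
      (s := box N) (t := prF a v N - A) (fun k y => (a + ∑ i, k i • v i) - y ∈ A)).symm
  have h2 : ∀ k ∈ box N, A.card ≤
      ((prF a v N - A).filter (fun y => (a + ∑ i, k i • v i) - y ∈ A)).card := by
    intro k hk
    apply Finset.card_le_card_of_injOn (fun z => (a + ∑ i, k i • v i) - z)
    · intro z hz
      rw [Finset.mem_coe, Finset.mem_filter]
      constructor
      · exact Finset.sub_mem_sub (Finset.mem_image_of_mem _ hk) hz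
      · rw [sub_sub_cancel]; exact hz
    · intro z _ w _ hzw
      exact sub_right_injective hzw
  have h3 : (box N).card * A.card ≤
      ∑ k ∈ box N, ((prF a v N - A).filter (fun y => (a + ∑ i, k i • v i) - y ∈ A)).card := by
    rw [← smul_eq_mul, ← Finset.sum_const]
    exact Finset.sum_le_sum h2
  have h4 : ∑ y' ∈ prF a v N - A, ((box N).filter (fun k => (a + ∑ i, k i • v i) - y' ∈ A)).card ≤
      (prF a v N - A).card * ((box N).filter (fun k => (a + ∑ i, k i • v i) - y ∈ A)).card := by
    rw [← smul_eq_mul, ← Finset.sum_const]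
    exact Finset.sum_le_sum hmax
  have h5 : (box N).filter (fun k => (a + ∑ i, k i • v i) - y ∈ A) =
      (box N).filter (fun k => (a - y) + ∑ i, k i • v i ∈ A) := by
    apply Finset.filter_congr
    intro k _
    rw [sub_add_eq_add_sub]
  rw [← card_box, ← h5]
  calc A.card * (box N).card = (box N).card * A.card := mul_comm _ _
    _ ≤ _ := h3
    _ = _ := h1.symm
    _ ≤ _ := h4
    _ = _ := mul_comm _ _

theorem ruz (P A A₀ : Finset G) (h1 : A₀ ⊆ P) (h2 : A₀ ⊆ A) :
    (P - A).card * A₀.card ≤ (P + P).card * (A + A).card := by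
  refine (Finset.ruzsa_triangle_inequality_sub_add_add P A₀ A).trans ?_
  exact Nat.mul_le_mul (Finset.card_le_card (Finset.add_subset_add_left h1))
    (Finset.card_le_card (Finset.add_subset_add_left h2))

theorem dbl (a : G) (v : Fin d → G) (N : Fin d → ℕ) :
    (prF a v N + prF a v N).card ≤ 2 ^ d * (prF a v N).card := by
  classical
  set F : Finset G := (Finset.univ : Finset (Fin d)).powerset.image
    (fun η => a + ∑ i ∈ η, N i • v i) with hF
  have h1 : prF a v N + prF a v N ⊆ prF a v N + F := by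
    intro x hx
    obtain ⟨y, hy, z, hz, rfl⟩ := Finset.mem_add.1 hx
    obtain ⟨k, hk, rfl⟩ := Finset.mem_image.1 hy
    obtain ⟨l, hl, rfl⟩ := Finset.mem_image.1 hz
    rw [mem_box] at hk hl
    rw [Finset.mem_add]
    set η : Finset (Fin d) := Finset.univ.filter (fun i => N i ≤ k i + l i) with hη
    refine ⟨a + ∑ i, (if i ∈ η then k i + l i - N i else k i + l i) • v i, ?_,
      a + ∑ i ∈ η, N i • v i, ?_, ?_⟩
    · refine Finset.mem_image_of_mem (fun k : Fin d → ℕ => a + ∑ i, k i • v i) ?_
      rw [mem_box]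
      intro i
      have := hk i
      have := hl i
      split_ifs with h
      · rw [hη, Finset.mem_filter] at h
        omega
      · rw [hη, Finset.mem_filter] at h
        have h' : ¬ N i ≤ k i + l i := fun h2 => h ⟨Finset.mem_univ _, h2⟩
        omega
    · exact Finset.mem_image_of_mem _ (Finset.mem_powerset.2 (Finset.subset_univ _))
    · have h2 : ∑ i ∈ η, N i • v i = ∑ i, (if i ∈ η then N i else 0) • v i := by
        rw [← Finset.sum_subset (Finset.subset_univ η)]
        · refine Finset.sum_congr rfl fun i hi => ?_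
          rw [if_pos hi]
        · intro i _ hi
          rw [if_neg hi, zero_smul]
      rw [h2, add_add_add_comm, ← Finset.sum_add_distrib, add_add_add_comm,
        ← Finset.sum_add_distrib]
      congr 1
      refine Finset.sum_congr rfl fun i _ => ?_
      rw [← add_smul, ← add_smul]
      congr 1
      split_ifs with h
      · rw [hη, Finset.mem_filter] at h
        omega
      · omega
  have h2 : F.card ≤ 2 ^ d := by
    refine Finset.card_image_le.trans ?_
    rw [Finset.card_powerset, Finset.card_univ, Fintype.card_fin]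
  calc (prF a v N + prF a v N).card ≤ (prF a v N + F).card := Finset.card_le_card h1
    _ ≤ (prF a v N).card * F.card := Finset.card_add_le
    _ ≤ (prF a v N).card * 2 ^ d := Nat.mul_le_mul_left _ h2
    _ = _ := mul_comm _ _

theorem dens (a : G) (v : Fin d → G) (N : Fin d → ℕ) (hN : ∀ i, 1 ≤ N i) (A : Finset G)
    (K T : ℝ) (hT : 1 ≤ T) (hK : 1 ≤ K) (hA : A.Nonempty)
    (hAA : ((A + A).card : ℝ) ≤ K * A.card)
    (hA₀ : (A.card : ℝ) ≤ T * ((A ∩ prF a v N).card : ℝ))
    (hor : ((∏ i, N i : ℕ) : ℝ) ≤ T * A.card ∨ ((prF a v N + prF a v N).card : ℝ) ≤ T * A.card ∨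
      ((2 : ℝ) ^ d ≤ T ∧ ((prF a v N).card : ℝ) ≤ T * A.card) ∨
      (∃ B : Finset G, B ⊆ A ∧ (A.card : ℝ) ≤ T * B.card ∧
        ((B + prF a v N).card : ℝ) ≤ T * A.card) ∨
      ∃ x : G, ((∏ i, N i : ℕ) : ℝ) ≤ T *
        (((box N).filter (fun k => x + ∑ i, k i • v i ∈ A)).card : ℝ)) :
    ∃ x : G, ((∏ i, N i : ℕ) : ℝ) ≤
      (((box N).filter (fun k => x + ∑ i, k i • v i ∈ A)).card : ℝ) * (T ^ 3 * K) := by
  have hAc : (0 : ℝ) < A.card := by exact_mod_cast hA.card_pos
  have hT0 : 0 < T := by linarith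
  have hK0 : 0 < K := by linarith
  have hAP : (0 : ℝ) < ((A ∩ prF a v N).card : ℝ) := by
    by_contra h
    have h1 : ((A ∩ prF a v N).card : ℝ) = 0 := le_antisymm (not_lt.1 h) (Nat.cast_nonneg _)
    rw [h1, mul_zero] at hA₀
    linarith
  have hT3 : 1 ≤ T ^ 2 * K := by
    have : 1 ≤ T ^ 2 := one_le_pow₀ hT
    nlinarith
  -- the two middle cases
  have key : ∀ T' : ℝ, ((prF a v N + prF a v N).card : ℝ) ≤ T' * A.card → 0 ≤ T' → T' ≤ T ^ 2 →
      ∃ x : G, ((∏ i, N i : ℕ) : ℝ) ≤
        (((box N).filter (fun k => x + ∑ i, k i • v i ∈ A)).card : ℝ) * (T ^ 3 * K) := by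
    intro T' h hT'0 hT'
    obtain ⟨x, hx⟩ := avg a v N hN A hA
    refine ⟨x, ?_⟩
    set X := (((box N).filter (fun k => x + ∑ i, k i • v i ∈ A)).card : ℝ) with hX
    have hX0 : 0 ≤ X := Nat.cast_nonneg _
    have hx2 : (A.card : ℝ) * ((∏ i, N i : ℕ) : ℝ) ≤ X * ((prF a v N - A).card : ℝ) := by
      rw [hX]
      exact_mod_cast hx
    have h1 := ruz (prF a v N) A (A ∩ prF a v N) Finset.inter_subset_right
      Finset.inter_subset_left
    have h2 : ((prF a v N - A).card : ℝ) * ((A ∩ prF a v N).card : ℝ) ≤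
        ((prF a v N + prF a v N).card : ℝ) * ((A + A).card : ℝ) := by exact_mod_cast h1
    have h3 : ((prF a v N - A).card : ℝ) * A.card ≤ (T ^ 3 * K * A.card) * A.card := by
      calc ((prF a v N - A).card : ℝ) * A.card
          ≤ ((prF a v N - A).card : ℝ) * (T * ((A ∩ prF a v N).card : ℝ)) :=
            mul_le_mul_of_nonneg_left hA₀ (Nat.cast_nonneg _)
        _ = T * (((prF a v N - A).card : ℝ) * ((A ∩ prF a v N).card : ℝ)) := by ring
        _ ≤ T * (((prF a v N + prF a v N).card : ℝ) * ((A + A).card : ℝ)) :=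
            mul_le_mul_of_nonneg_left h2 hT0.le
        _ ≤ T * ((T' * A.card) * (K * A.card)) := by
            refine mul_le_mul_of_nonneg_left ?_ hT0.le
            exact mul_le_mul h hAA (Nat.cast_nonneg _) (by positivity)
        _ ≤ T * ((T ^ 2 * A.card) * (K * A.card)) := by
            refine mul_le_mul_of_nonneg_left ?_ hT0.le
            refine mul_le_mul_of_nonneg_right ?_ (by positivity)
            exact mul_le_mul_of_nonneg_right hT' hAc.le
        _ = _ := by ring
    have h4 : ((prF a v N - A).card : ℝ) ≤ T ^ 3 * K * A.card := le_of_mul_le_mul_right h3 hAc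
    have h5 : (A.card : ℝ) * ((∏ i, N i : ℕ) : ℝ) ≤ A.card * (X * (T ^ 3 * K)) := by
      calc (A.card : ℝ) * ((∏ i, N i : ℕ) : ℝ) ≤ X * ((prF a v N - A).card : ℝ) := hx2
        _ ≤ X * (T ^ 3 * K * A.card) := mul_le_mul_of_nonneg_left h4 hX0
        _ = _ := by ring
    exact le_of_mul_le_mul_left h5 hAc
  rcases hor with h | h | ⟨hd, h⟩ | ⟨B, hBA, hB, h⟩ | ⟨x, hx⟩
  · refine ⟨a, ?_⟩
    set X := (((box N).filter (fun k => a + ∑ i, k i • v i ∈ A)).card : ℝ) with hX
    have h1 : ((A ∩ prF a v N).card : ℝ) ≤ X := by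
      rw [hX]
      have h2 : A ∩ prF a v N ⊆ ((box N).filter (fun k => a + ∑ i, k i • v i ∈ A)).image
          (fun k => a + ∑ i, k i • v i) := by
        intro y hy
        obtain ⟨hyA, hyP⟩ := Finset.mem_inter.1 hy
        obtain ⟨k, hk, rfl⟩ := Finset.mem_image.1 hyP
        exact Finset.mem_image_of_mem _ (Finset.mem_filter.2 ⟨hk, hyA⟩)
      exact_mod_cast (Finset.card_le_card h2).trans Finset.card_image_le
    have hX0 : 0 ≤ X := Nat.cast_nonneg _
    calc ((∏ i, N i : ℕ) : ℝ) ≤ T * A.card := h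
      _ ≤ T * (T * ((A ∩ prF a v N).card : ℝ)) := mul_le_mul_of_nonneg_left hA₀ hT0.le
      _ ≤ T * (T * X) := by
          refine mul_le_mul_of_nonneg_left ?_ hT0.le
          exact mul_le_mul_of_nonneg_left h1 hT0.le
      _ = (X * T ^ 2) * 1 := by ring
      _ ≤ (X * T ^ 2) * (T * K) := by
          refine mul_le_mul_of_nonneg_left ?_ (by positivity)
          nlinarith
      _ = _ := by ring
  · exact key T h hT0.le (by nlinarith)
  · refine key (T * T) ?_ (by positivity) (by nlinarith)
    have h1 := dbl a v N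
    have h2 : ((prF a v N + prF a v N).card : ℝ) ≤ 2 ^ d * ((prF a v N).card : ℝ) := by
      exact_mod_cast h1
    calc ((prF a v N + prF a v N).card : ℝ) ≤ 2 ^ d * ((prF a v N).card : ℝ) := h2
      _ ≤ T * (T * A.card) := mul_le_mul hd h (Nat.cast_nonneg _) hT0.le
      _ = _ := by ring
  · obtain ⟨x, hx⟩ := avg a v N hN A hA
    refine ⟨x, ?_⟩
    set X := (((box N).filter (fun k => x + ∑ i, k i • v i ∈ A)).card : ℝ) with hX
    have hX0 : 0 ≤ X := Nat.cast_nonneg _
    have hx2 : (A.card : ℝ) * ((∏ i, N i : ℕ) : ℝ) ≤ X * ((prF a v N - A).card : ℝ) := by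
      rw [hX]
      exact_mod_cast hx
    have h1 := Finset.ruzsa_triangle_inequality_sub_add_add (prF a v N) B A
    rw [add_comm (prF a v N) B] at h1
    have h2 : ((prF a v N - A).card : ℝ) * (B.card : ℝ) ≤
        ((B + prF a v N).card : ℝ) * ((A + A).card : ℝ) := by
      have h20 := h1.trans (Nat.mul_le_mul_left _
        (Finset.card_le_card (Finset.add_subset_add_left hBA)))
      exact_mod_cast h20
    have h3 : ((prF a v N - A).card : ℝ) * A.card ≤ (T ^ 2 * K * A.card) * A.card := by
      calc ((prF a v N - A).card : ℝ) * A.card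
          ≤ ((prF a v N - A).card : ℝ) * (T * B.card) :=
            mul_le_mul_of_nonneg_left hB (Nat.cast_nonneg _)
        _ = T * (((prF a v N - A).card : ℝ) * B.card) := by ring
        _ ≤ T * (((B + prF a v N).card : ℝ) * ((A + A).card : ℝ)) :=
            mul_le_mul_of_nonneg_left h2 hT0.le
        _ ≤ T * ((T * A.card) * (K * A.card)) := by
            refine mul_le_mul_of_nonneg_left ?_ hT0.le
            exact mul_le_mul h hAA (Nat.cast_nonneg _) (by positivity)
        _ = _ := by ring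
    have h4 : ((prF a v N - A).card : ℝ) ≤ T ^ 2 * K * A.card := le_of_mul_le_mul_right h3 hAc
    have h5 : (A.card : ℝ) * ((∏ i, N i : ℕ) : ℝ) ≤ A.card * (X * (T ^ 2 * K)) := by
      calc (A.card : ℝ) * ((∏ i, N i : ℕ) : ℝ) ≤ X * ((prF a v N - A).card : ℝ) := hx2
        _ ≤ X * (T ^ 2 * K * A.card) := mul_le_mul_of_nonneg_left h4 hX0
        _ = _ := by ring
    have h6 : ((∏ i, N i : ℕ) : ℝ) ≤ X * (T ^ 2 * K) := le_of_mul_le_mul_left h5 hAc
    calc ((∏ i, N i : ℕ) : ℝ) ≤ X * (T ^ 2 * K) := h6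
      _ = (X * (T ^ 2 * K)) * 1 := (mul_one _).symm
      _ ≤ (X * (T ^ 2 * K)) * T := mul_le_mul_of_nonneg_left hT (by positivity)
      _ = _ := by ring
  · refine ⟨x, hx.trans ?_⟩
    set X := (((box N).filter (fun k => x + ∑ i, k i • v i ∈ A)).card : ℝ) with hX
    have hX0 : 0 ≤ X := Nat.cast_nonneg _
    calc T * X = (X * T) * 1 := by ring
      _ ≤ (X * T) * (T ^ 2 * K) := mul_le_mul_of_nonneg_left hT3 (by positivity)
      _ = _ := by ring

end

end H972P
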