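import Pool.Agent.helper972_pfr.LatH

set_option autoImplicit false

/-! Existence of a good lattice by counting. -/

open Finset

namespace H972P

open Pool.Agent.R934.LB (toE toE_apply toE_inj sq_nonneg' norm_toE red red_add red_neg count_le
  coord_le)

theorem numN (ρ q : ℕ) (hρ : 1 ≤ ρ) (hq : (2063 * ρ) ^ 81 ≤ q) :
    (2063 * ρ) ^ (3968 * q ^ 2) * (2 * (30 * q + 1)) ≤ (128 * q) ^ (49 * q ^ 2) := by
  have hq1 : 1 ≤ q := le_trans (Nat.one_le_pow _ _ (by omega)) hq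
  have h1 : (2063 * ρ) ^ (3968 * q ^ 2) ≤ q ^ (49 * q ^ 2) := by
    calc (2063 * ρ) ^ (3968 * q ^ 2) ≤ (2063 * ρ) ^ (81 * (49 * q ^ 2)) :=
          Nat.pow_le_pow_right (by omega) (by nlinarith)
      _ = ((2063 * ρ) ^ 81) ^ (49 * q ^ 2) := by rw [pow_mul]
      _ ≤ q ^ (49 * q ^ 2) := Nat.pow_le_pow_left hq _
  have h2 : 2 * (30 * q + 1) ≤ 128 ^ (49 * q ^ 2) := by
    have h3 : q < 2 ^ q := Nat.lt_two_pow_self
    calc 2 * (30 * q + 1) ≤ 64 * q := by omega
      _ ≤ 64 * 2 ^ q := by omega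
      _ ≤ 64 ^ q * 2 ^ q := Nat.mul_le_mul_right _ (by
          calc 64 = 64 ^ 1 := by norm_num
            _ ≤ 64 ^ q := Nat.pow_le_pow_right (by norm_num) hq1)
      _ = 128 ^ q := by rw [← mul_pow]; norm_num
      _ ≤ 128 ^ (49 * q ^ 2) := Nat.pow_le_pow_right (by norm_num) (by nlinarith)
  calc (2063 * ρ) ^ (3968 * q ^ 2) * (2 * (30 * q + 1)) ≤ q ^ (49 * q ^ 2) * 128 ^ (49 * q ^ 2) :=
        Nat.mul_le_mul h1 h2
    _ = (128 * q) ^ (49 * q ^ 2) := by rw [← mul_pow, mul_comm]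

theorem num1 (ρ q σ n : ℕ) (hn : n = 128 * q) (hρ : 1 ≤ ρ) (hq : (2063 * ρ) ^ 81 ≤ q)
    (hσ : n ≤ σ) (f : ℕ) (hf : f ≤ 30 * q) :
    ((15 * (1 + (16 * ρ * σ * Real.sqrt n) / (2 * Real.sqrt n))) ^ n) ^ f *
      ((2 * ((16 * ρ * σ * Real.sqrt n) / (91 * ρ * σ)) + 1) ^ f *
        (15 * (1 + 3 * (91 * ρ * σ : ℝ) / (2 * Real.sqrt n))) ^ n) ^ q * (2 * (30 * q + 1)) ≤
      ((σ : ℝ) ^ n) ^ (f + q) := by
  have hq1 : 1 ≤ q := le_trans (Nat.one_le_pow _ _ (by omega)) hq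
  have hn1 : 128 ≤ n := by omega
  have hnR : (128 : ℝ) ≤ n := by exact_mod_cast hn1
  have hρR : (1 : ℝ) ≤ ρ := by exact_mod_cast hρ
  have hσR : (n : ℝ) ≤ σ := by exact_mod_cast hσ
  have hσ0 : (0 : ℝ) < σ := by linarith
  have hρ0 : (0 : ℝ) < ρ := by linarith
  set s : ℝ := Real.sqrt n with hs
  have hs2 : s ^ 2 = n := Real.sq_sqrt (by linarith)
  have hs11 : (11 : ℝ) ≤ s := by
    rw [hs]
    apply Real.le_sqrt_of_sq_le
    linarith
  have hs0 : 0 < s := by linarith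
  have hsn : s ≤ n := by nlinarith
  set X : ℝ := 2063 * ρ with hX
  have hX1 : 1 ≤ X := by rw [hX]; linarith
  have e1 : 15 * (1 + (16 * ρ * σ * s) / (2 * s)) ≤ X * σ := by
    have : (16 * ρ * σ * s) / (2 * s) = 8 * (ρ * σ) := by field_simp; norm_num
    rw [this, hX]
    have h1 : (1 : ℝ) ≤ ρ * σ := by nlinarith
    nlinarith
  have e2 : 2 * ((16 * ρ * σ * s) / (91 * ρ * σ)) + 1 ≤ s := by
    have : (16 * ρ * σ * s) / (91 * ρ * σ) = 16 / 91 * s := by field_simp
    rw [this]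
    linarith
  have e3 : 15 * (1 + 3 * (91 * ρ * σ : ℝ) / (2 * s)) ≤ X * σ / s := by
    rw [le_div_iff₀ hs0]
    have h1 : 15 * (1 + 3 * (91 * ρ * σ : ℝ) / (2 * s)) * s = 15 * s + 4095 / 2 * (ρ * σ) := by
      field_simp
      ring
    rw [h1, hX]
    have h2 : s ≤ ρ * σ := by nlinarith
    nlinarith
  have hX0 : 0 ≤ X * σ := by positivity
  have e4 : ((15 * (1 + (16 * ρ * σ * s) / (2 * s))) ^ n) ^ f ≤ ((X * σ) ^ n) ^ f :=
    pow_le_pow_left₀ (by positivity) (pow_le_pow_left₀ (by positivity) e1 n) f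
  have e5 : ((2 * ((16 * ρ * σ * s) / (91 * ρ * σ)) + 1) ^ f *
        (15 * (1 + 3 * (91 * ρ * σ : ℝ) / (2 * s))) ^ n) ^ q ≤ (s ^ f * (X * σ / s) ^ n) ^ q := by
    refine pow_le_pow_left₀ (by positivity) ?_ q
    exact mul_le_mul (pow_le_pow_left₀ (by positivity) e2 f)
      (pow_le_pow_left₀ (by positivity) e3 n) (by positivity) (by positivity)
  have e6 : ((X * σ) ^ n) ^ f * (s ^ f * (X * σ / s) ^ n) ^ q =
      (((σ : ℝ) ^ n) ^ (f + q) * (X ^ (n * (f + q)) * s ^ (f * q))) / s ^ (n * q) := by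
    rw [eq_div_iff (by positivity)]
    have h1 : X * σ = (X * σ / s) * s := by field_simp
    have h2 : (X : ℝ) ^ (n * (f + q)) * ((σ : ℝ) ^ n) ^ (f + q) = ((X * σ) ^ n) ^ (f + q) := by
      rw [pow_mul, ← mul_pow, ← mul_pow]
    have h3 : ((X * σ / s) ^ n) ^ q * s ^ (n * q) = ((X * σ) ^ n) ^ q := by
      rw [pow_mul, ← mul_pow, ← mul_pow, ← h1]
    calc ((X * σ) ^ n) ^ f * (s ^ f * (X * σ / s) ^ n) ^ q * s ^ (n * q)
        = ((X * σ) ^ n) ^ f * (((X * σ / s) ^ n) ^ q * s ^ (n * q)) * s ^ (f * q) := by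
          rw [mul_pow (s ^ f) _ q, ← pow_mul s f q]; ring
      _ = ((X * σ) ^ n) ^ (f + q) * s ^ (f * q) := by rw [h3, pow_add]
      _ = _ := by rw [← h2]; ring
  have hN := numN ρ q hρ hq
  have hNR : X ^ (3968 * q ^ 2) * (2 * (30 * q + 1)) ≤ (n : ℝ) ^ (49 * q ^ 2) := by
    rw [hX, hn]
    exact_mod_cast hN
  have e7 : X ^ (n * (f + q)) * s ^ (f * q) * (2 * (30 * q + 1)) ≤ s ^ (n * q) := by
    have h1 : X ^ (n * (f + q)) ≤ X ^ (3968 * q ^ 2) := by
      refine pow_le_pow_right₀ hX1 ?_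
      rw [hn]
      calc 128 * q * (f + q) ≤ 128 * q * (30 * q + q) := Nat.mul_le_mul_left _ (by omega)
        _ = 3968 * q ^ 2 := by ring
    have h2 : s ^ (f * q) ≤ s ^ (30 * q ^ 2) := by
      refine pow_le_pow_right₀ (by linarith) ?_
      calc f * q ≤ 30 * q * q := Nat.mul_le_mul_right _ hf
        _ = 30 * q ^ 2 := by ring
    have h3 : s ^ (n * q) = s ^ (30 * q ^ 2) * (n : ℝ) ^ (49 * q ^ 2) := by
      rw [← hs2, ← pow_mul, ← pow_add, hn]
      congr 1
      ring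
    rw [h3]
    calc X ^ (n * (f + q)) * s ^ (f * q) * (2 * (30 * q + 1))
        ≤ X ^ (3968 * q ^ 2) * s ^ (30 * q ^ 2) * (2 * (30 * q + 1)) := by
          refine mul_le_mul_of_nonneg_right ?_ (by positivity)
          exact mul_le_mul h1 h2 (by positivity) (by positivity)
      _ = s ^ (30 * q ^ 2) * (X ^ (3968 * q ^ 2) * (2 * (30 * q + 1))) := by ring
      _ ≤ _ := mul_le_mul_of_nonneg_left hNR (by positivity)
  calc _ ≤ ((X * σ) ^ n) ^ f * (s ^ f * (X * σ / s) ^ n) ^ q * (2 * (30 * q + 1)) := by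
        refine mul_le_mul_of_nonneg_right ?_ (by positivity)
        exact mul_le_mul e4 e5 (by positivity) (by positivity)
    _ = ((σ : ℝ) ^ n) ^ (f + q) * ((X ^ (n * (f + q)) * s ^ (f * q) * (2 * (30 * q + 1))) /
          s ^ (n * q)) := by
        rw [e6]; ring
    _ ≤ ((σ : ℝ) ^ n) ^ (f + q) * 1 := by
        refine mul_le_mul_of_nonneg_left ?_ (by positivity)
        rw [div_le_one (by positivity)]
        exact e7
    _ = _ := mul_one _

open Classical in
theorem bad_card {ι : Type*} {n p D R : ℕ} [hp : Fact p.Prime] (W : Finset ι)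
    (x : ι → Fin D → Fin n → ℤ)
    (hx : ∀ w ∈ W, LinearIndependent ℝ (fun i => toE (x w i)))
    (hR : ∀ w ∈ W, ∀ i, sqn (x w i) ≤ R) (hpR : D.factorial * R ^ D < p) :
    ((Finset.univ.filter (fun h : Fin n → ZMod p => ∃ w ∈ W, ∀ i, x w i ∈ Lh h)).card : ℝ) *
      (p : ℝ) ^ D ≤ (W.card : ℝ) * (p : ℝ) ^ n := by
  have h1 : (Finset.univ.filter (fun h : Fin n → ZMod p => ∃ w ∈ W, ∀ i, x w i ∈ Lh h)) ⊆
      W.biUnion (fun w => (Finset.univ : Finset (Fin n → ZMod p)).filter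
        (fun h => ∀ i, ∑ j, red p (x w i) j * h j = 0)) := by
    intro h hh
    rw [Finset.mem_filter] at hh
    obtain ⟨-, w, hw, h2⟩ := hh
    rw [Finset.mem_biUnion]
    refine ⟨w, hw, ?_⟩
    rw [Finset.mem_filter]
    exact ⟨Finset.mem_univ _, fun i => (mem_Lh _ _).1 (h2 i)⟩
  have h2 := (Finset.card_le_card h1).trans Finset.card_biUnion_le
  have h3 : (Finset.univ.filter (fun h : Fin n → ZMod p => ∃ w ∈ W, ∀ i, x w i ∈ Lh h)).card *
      p ^ D ≤ W.card * p ^ n := by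
    calc _ ≤ (∑ w ∈ W, ((Finset.univ : Finset (Fin n → ZMod p)).filter
        (fun h => ∀ i, ∑ j, red p (x w i) j * h j = 0)).card) * p ^ D :=
          Nat.mul_le_mul_right _ h2
      _ = ∑ w ∈ W, p ^ n := by
          rw [Finset.sum_mul]
          refine Finset.sum_congr rfl fun w hw => ?_
          rw [← card_tuple (x w) (hx w hw) (hR w hw) hpR]
      _ = W.card * p ^ n := by rw [Finset.sum_const, smul_eq_mul]
  exact_mod_cast h3

theorem exists_h (ρ q σ p n : ℕ) [hp : Fact p.Prime] (hn : n = 128 * q) (hρ : 1 ≤ ρ)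
    (hq : (2063 * ρ) ^ 81 ≤ q) (hσn : n ≤ σ)
    (hσ : (31 * q).factorial * (256 * ρ ^ 2 * n) ^ (31 * q) ≤ σ) (hpσ : σ ^ n < p) :
    ∃ h : Fin n → ZMod p,
      (∀ z ∈ Lh h, z ≠ 0 → (σ : ℝ) * Real.sqrt n / 32 < ‖toE z‖) ∧
      Good (Lh h) (30 * q) q (16 * ρ * σ * Real.sqrt n) (91 * ρ * σ) := by
  classical
  have hq1 : 1 ≤ q := le_trans (Nat.one_le_pow _ _ (by omega)) hq
  have hn1 : 128 ≤ n := by omega
  have hnR : (128 : ℝ) ≤ n := by exact_mod_cast hn1
  have hρR : (1 : ℝ) ≤ ρ := by exact_mod_cast hρ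
  have hσR : (n : ℝ) ≤ σ := by exact_mod_cast hσn
  have hσ0 : (0 : ℝ) < σ := by linarith
  have hρ0 : (0 : ℝ) < ρ := by linarith
  have hs0 : 0 < Real.sqrt n := Real.sqrt_pos.2 (by linarith)
  have hs2 : Real.sqrt n ^ 2 = n := Real.sq_sqrt (by linarith)
  have hpR : (0 : ℝ) < p := by exact_mod_cast hp.out.pos
  have hpσR : (σ : ℝ) ^ n < p := by exact_mod_cast hpσ
  set R₀ : ℝ := 16 * ρ * σ * Real.sqrt n with hR₀
  have hR₀0 : 0 < R₀ := by positivity
  set R : ℕ := (16 * ρ * σ) ^ 2 * n with hRdef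
  have hRR : R₀ ^ 2 = (R : ℝ) := by
    rw [hR₀, hRdef]
    push_cast
    rw [mul_pow, hs2]
  have hsqR : ∀ z : Fin n → ℤ, ‖toE z‖ ≤ R₀ → sqn z ≤ R := by
    intro z hz
    have h1 : ‖toE z‖ ^ 2 ≤ R₀ ^ 2 := pow_le_pow_left₀ (norm_nonneg _) hz 2
    rw [norm_toE, hRR] at h1
    exact_mod_cast h1
  have hDp : ∀ D ≤ 31 * q, D.factorial * R ^ D < p := by
    intro D hD
    refine lt_of_le_of_lt ?_ hpσ
    have hRpos : 1 ≤ R := by
      rw [hRdef]
      have : 0 < (16 * ρ * σ) ^ 2 * n := by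
        have : 0 < σ := by omega
        positivity
      omega
    calc D.factorial * R ^ D ≤ (31 * q).factorial * R ^ (31 * q) :=
          Nat.mul_le_mul (Nat.factorial_le hD) (Nat.pow_le_pow_right hRpos hD)
      _ = (31 * q).factorial * (256 * ρ ^ 2 * n) ^ (31 * q) * σ ^ (62 * q) := by
          have : R = (256 * ρ ^ 2 * n) * σ ^ 2 := by rw [hRdef]; ring
          rw [this, mul_pow, ← pow_mul, ← mul_assoc]
          congr 2
          ring
      _ ≤ σ * σ ^ (62 * q) := Nat.mul_le_mul_right _ hσ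
      _ = σ ^ (62 * q + 1) := by rw [pow_succ, mul_comm]
      _ ≤ σ ^ n := Nat.pow_le_pow_right (by omega) (by omega)
  by_contra hcon
  push Not at hcon
  -- the two kinds of bad lattices
  set W1 : Finset (Fin n → ℤ) := (Bn n ((σ : ℝ) * Real.sqrt n / 32)).erase 0 with hW1
  set B1 := Finset.univ.filter (fun h : Fin n → ZMod p => ∃ w ∈ W1, ∀ _i : Fin 1, w ∈ Lh h)
    with hB1
  set B2 : ℕ → Finset (Fin n → ZMod p) := fun f => Finset.univ.filter
    (fun h : Fin n → ZMod p => ∃ w ∈ Tup n q f R₀ (91 * ρ * σ), ∀ i : Fin (f + q),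
      (Sum.elim w.1 w.2 (finSumFinEquiv.symm i) : Fin n → ℤ) ∈ Lh h) with hB2
  have hcov : (Finset.univ : Finset (Fin n → ZMod p)) ⊆
      B1 ∪ (Finset.range (30 * q + 1)).biUnion B2 := by
    intro h _
    rw [Finset.mem_union]
    by_cases h1 : ∀ z ∈ Lh h, z ≠ 0 → (σ : ℝ) * Real.sqrt n / 32 < ‖toE z‖
    · right
      have h2 := hcon h h1
      unfold Good at h2
      push Not at h2
      obtain ⟨f, hf, z, y, hz, hy, hzn, hyn, hli, hnear⟩ := h2
      rw [Finset.mem_biUnion]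
      refine ⟨f, Finset.mem_range.2 (by omega), ?_⟩
      rw [hB2]
      simp only
      rw [Finset.mem_filter]
      refine ⟨Finset.mem_univ _, (z, y), ?_, ?_⟩
      · unfold Tup
        rw [Finset.mem_filter, Finset.mem_product, Fintype.mem_piFinset, Fintype.mem_piFinset]
        exact ⟨⟨fun i => (mem_Bn _ _).2 (hzn i), fun j => (mem_Bn _ _).2 (hyn j)⟩, hli, hnear⟩
      · intro i
        rcases finSumFinEquiv.symm i with a | b
        · exact hz a
        · exact hy b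
    · left
      push Not at h1
      obtain ⟨z, hz, hz0, hzn⟩ := h1
      rw [hB1, Finset.mem_filter]
      refine ⟨Finset.mem_univ _, z, ?_, fun _ => hz⟩
      rw [hW1, Finset.mem_erase, mem_Bn]
      exact ⟨hz0, hzn⟩
  -- size of `B1`
  have hb1 : (B1.card : ℝ) * 2 < (p : ℝ) ^ n := by
    have h1 := bad_card (D := 1) (R := R) W1 (fun z _ => z) (by
      intro w hw
      rw [hW1, Finset.mem_erase] at hw
      apply LinearIndependent.of_subsingleton (0 : Fin 1)
      intro h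
      apply hw.1
      apply toE_inj
      rw [h, map_zero]) (by
      intro w hw _
      rw [hW1, Finset.mem_erase, mem_Bn] at hw
      apply hsqR
      refine hw.2.trans ?_
      rw [hR₀]
      have : 0 ≤ (σ : ℝ) * Real.sqrt n := by positivity
      nlinarith) (hDp 1 (by omega))
    rw [pow_one] at h1
    have h2 : (W1.card : ℝ) ≤ (15 * (1 + (σ : ℝ) * Real.sqrt n / 32 / (2 * Real.sqrt n))) ^ n := by
      apply ball_count (by omega) _ (by positivity) 0
      intro z hz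
      rw [map_zero, sub_zero]
      rw [hW1, Finset.mem_erase, mem_Bn] at hz
      exact hz.2
    have h3 : 15 * (1 + (σ : ℝ) * Real.sqrt n / 32 / (2 * Real.sqrt n)) ≤ 15 / 32 * σ := by
      have : (σ : ℝ) * Real.sqrt n / 32 / (2 * Real.sqrt n) = σ / 64 := by
        field_simp
        norm_num
      rw [this]
      linarith
    have h4 : (W1.card : ℝ) ≤ 15 / 32 * (σ : ℝ) ^ n := by
      refine h2.trans ?_
      refine (pow_le_pow_left₀ (by positivity) h3 n).trans ?_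
      rw [mul_pow]
      refine mul_le_mul_of_nonneg_right ?_ (by positivity)
      calc (15 / 32 : ℝ) ^ n ≤ (15 / 32) ^ 1 :=
            pow_le_pow_of_le_one (by norm_num) (by norm_num) (by omega)
        _ = _ := pow_one _
    have h5 : (B1.card : ℝ) * p ≤ 15 / 32 * (p : ℝ) * (p : ℝ) ^ n := by
      refine h1.trans ?_
      refine mul_le_mul_of_nonneg_right ?_ (by positivity)
      linarith
    have h6 : (B1.card : ℝ) ≤ 15 / 32 * (p : ℝ) ^ n := by
      have : (B1.card : ℝ) * p ≤ (15 / 32 * (p : ℝ) ^ n) * p := by linarith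
      exact le_of_mul_le_mul_right this hpR
    have h7 : (0 : ℝ) < (p : ℝ) ^ n := by positivity
    linarith
  have hb2 : ∀ f ∈ Finset.range (30 * q + 1), ((B2 f).card : ℝ) * (2 * (30 * q + 1)) ≤
      (p : ℝ) ^ n := by
    intro f hf
    rw [Finset.mem_range] at hf
    have h1 := bad_card (D := f + q) (R := R) (Tup n q f R₀ (91 * ρ * σ))
      (fun w i => (Sum.elim w.1 w.2 (finSumFinEquiv.symm i) : Fin n → ℤ)) (by
      intro w hw
      unfold Tup at hw
      rw [Finset.mem_filter] at hw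
      have h2 := hw.2.1.comp _ (finSumFinEquiv (m := f) (n := q)).symm.injective
      convert h2 using 1
      funext i
      simp only [Function.comp]
      rcases finSumFinEquiv.symm i with a | b <;> rfl) (by
      intro w hw i
      unfold Tup at hw
      rw [Finset.mem_filter, Finset.mem_product, Fintype.mem_piFinset,
        Fintype.mem_piFinset] at hw
      apply hsqR
      rcases finSumFinEquiv.symm i with a | b
      · exact (mem_Bn _ _).1 (hw.1.1 a)
      · exact (mem_Bn _ _).1 (hw.1.2 b)) (hDp (f + q) (by omega))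
    have h2 := card_Tup n q f (by omega) R₀ (91 * ρ * σ) hR₀0 (by positivity)
    have h3 := num1 ρ q σ n hn hρ hq hσn f (by omega)
    have h4 : ((Tup n q f R₀ (91 * ρ * σ)).card : ℝ) * (2 * (30 * q + 1)) ≤
        (p : ℝ) ^ (f + q) := by
      calc _ ≤ _ := mul_le_mul_of_nonneg_right h2 (by positivity)
        _ ≤ ((σ : ℝ) ^ n) ^ (f + q) := h3
        _ ≤ _ := pow_le_pow_left₀ (by positivity) hpσR.le _
    have h5 : ((B2 f).card : ℝ) * (2 * (30 * q + 1)) * (p : ℝ) ^ (f + q) ≤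
        (p : ℝ) ^ n * (p : ℝ) ^ (f + q) := by
      calc ((B2 f).card : ℝ) * (2 * (30 * q + 1)) * (p : ℝ) ^ (f + q)
          = ((B2 f).card : ℝ) * (p : ℝ) ^ (f + q) * (2 * (30 * q + 1)) := by ring
        _ ≤ ((Tup n q f R₀ (91 * ρ * σ)).card : ℝ) * (p : ℝ) ^ n * (2 * (30 * q + 1)) :=
            mul_le_mul_of_nonneg_right h1 (by positivity)
        _ = (((Tup n q f R₀ (91 * ρ * σ)).card : ℝ) * (2 * (30 * q + 1))) * (p : ℝ) ^ n := by
            ring
        _ ≤ (p : ℝ) ^ (f + q) * (p : ℝ) ^ n := mul_le_mul_of_nonneg_right h4 (by positivity)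
        _ = _ := mul_comm _ _
    exact le_of_mul_le_mul_right h5 (by positivity)
  have hcard := (Finset.card_le_card hcov).trans (Finset.card_union_le _ _)
  rw [Finset.card_univ, Fintype.card_fun, ZMod.card, Fintype.card_fin] at hcard
  have hcard2 : p ^ n ≤ B1.card + ∑ f ∈ Finset.range (30 * q + 1), (B2 f).card :=
    hcard.trans (Nat.add_le_add_left Finset.card_biUnion_le _)
  have hcard3 : (p : ℝ) ^ n ≤ B1.card + ∑ f ∈ Finset.range (30 * q + 1), ((B2 f).card : ℝ) := by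
    exact_mod_cast hcard2
  have hsum : (∑ f ∈ Finset.range (30 * q + 1), ((B2 f).card : ℝ)) * (2 * (30 * q + 1)) ≤
      (30 * q + 1) * (p : ℝ) ^ n := by
    rw [Finset.sum_mul]
    refine (Finset.sum_le_sum hb2).trans ?_
    rw [Finset.sum_const, Finset.card_range, nsmul_eq_mul]
    push_cast
    exact le_refl _
  have hsum2 : (∑ f ∈ Finset.range (30 * q + 1), ((B2 f).card : ℝ)) * 2 ≤ (p : ℝ) ^ n := by
    have h1 : (0 : ℝ) < 30 * q + 1 := by positivity
    have h2 : ((∑ f ∈ Finset.range (30 * q + 1), ((B2 f).card : ℝ)) * 2) * (30 * q + 1) ≤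
        (p : ℝ) ^ n * (30 * q + 1) := by linarith
    exact le_of_mul_le_mul_right h2 h1
  linarith

end H972P
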