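import Pool.Agent.helper972_pfr.Build
import Pool.Agent.helper972_pfr.Dens

set_option autoImplicit false
open scoped Pointwise

/-! Statement in terms of sets in the lattice. -/

open Finset

namespace H972P

open Pool.Agent.R934.LB (toE toE_apply toE_inj sq_nonneg' norm_toE red)

/-- The progression `{a + k₁ v₁ + ⋯ + k_d v_d : 0 ≤ kᵢ < Nᵢ}`. -/
def prog {G : Type*} [AddCommGroup G] {d : ℕ} (a : G) (v : Fin d → G) (N : Fin d → ℕ) : Set G :=
  {x : G | ∃ k : Fin d → ℕ, (∀ i, k i < N i) ∧ x = a + ∑ i, k i • v i}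

theorem coe_prF {G : Type*} [AddCommGroup G] [DecidableEq G] {d : ℕ} (a : G) (v : Fin d → G)
    (N : Fin d → ℕ) : ((prF a v N : Finset G) : Set G) = prog a v N := by
  ext x
  rw [Finset.mem_coe, prF, Finset.mem_image]
  constructor
  · rintro ⟨k, hk, rfl⟩
    exact ⟨k, (mem_box N k).1 hk, rfl⟩
  · rintro ⟨k, hk, rfl⟩
    exact ⟨k, (mem_box N k).2 hk, rfl⟩

/-- Conditions on a progression, with `T` a bound for the losses. -/
def Tame {G : Type*} [AddCommGroup G] (A : Set G) (T : ℝ) {d : ℕ} (a : G) (v : Fin d → G)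
    (N : Fin d → ℕ) : Prop :=
  ((∏ i, N i : ℕ) : ℝ) ≤ T * A.ncard ∨
  ((prog a v N + prog a v N).ncard : ℝ) ≤ T * A.ncard ∨
  ((2 : ℝ) ^ d ≤ T ∧ ((prog a v N).ncard : ℝ) ≤ T * A.ncard) ∨
  (∃ B ⊆ A, (A.ncard : ℝ) ≤ T * B.ncard ∧ ((B + prog a v N).ncard : ℝ) ≤ T * A.ncard) ∨
  ∃ x : G, ((∏ i, N i : ℕ) : ℝ) ≤
    T * ({k : Fin d → ℕ | (∀ i, k i < N i) ∧ x + ∑ i, k i • v i ∈ A}.ncard : ℝ)

theorem final {q : ℕ} {U : ℝ} (hU : 1 ≤ U) (hC : Concl q U) (K : ℝ) (hK : 258 ^ (128 * q) ≤ K)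
    (T : ℝ) (hT : 1 ≤ T) (hTU : T ^ 3 * K ≤ U ^ (2 * q)) :
    ∃ (Z : AddSubgroup (Fin (128 * q) → ℤ)) (A : Set Z), A.Finite ∧ A.Nonempty ∧
      ((A + A).ncard : ℝ) ≤ K * (A.ncard : ℝ) ∧
      ∀ (d : ℕ) (a : Z) (v : Fin d → Z) (N : Fin d → ℕ), Tame A T a v N →
        ((A ∩ prog a v N).ncard : ℝ) < T⁻¹ * (A.ncard : ℝ) := by
  classical
  have hU0 : 0 ≤ U := by linarith
  have hT0 : 0 < T := by linarith
  have hK1 : 1 ≤ K := le_trans (one_le_pow₀ (by norm_num)) hK
  have hTUq : T ≤ U ^ q := by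
    have h1 : T ^ 2 ≤ (U ^ q) ^ 2 := by
      calc T ^ 2 = T ^ 2 * 1 := (mul_one _).symm
        _ ≤ T ^ 2 * (T * K) := by
            refine mul_le_mul_of_nonneg_left ?_ (by positivity)
            nlinarith
        _ = T ^ 3 * K := by ring
        _ ≤ U ^ (2 * q) := hTU
        _ = _ := by rw [← pow_mul, mul_comm q 2]
    exact (pow_le_pow_iff_left₀ hT0.le (by positivity) (by norm_num)).1 h1
  obtain ⟨p, h, r, hr, hne, hup, hmain⟩ := hC
  have hval : Function.Injective (Subtype.val : Lh h → (Fin (128 * q) → ℤ)) :=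
    Subtype.val_injective
  obtain ⟨A, hA⟩ : ∃ A : Finset (Lh h), ∀ z, z ∈ A ↔ (z : Fin (128 * q) → ℤ) ∈ BL h r := by
    refine ⟨(BL h r).subtype (fun z => z ∈ Lh h), fun z => ?_⟩
    rw [Finset.mem_subtype]
  have himg : A.image Subtype.val = BL h r := by
    ext x
    rw [Finset.mem_image]
    constructor
    · rintro ⟨z, hz, rfl⟩
      exact (hA z).1 hz
    · intro hx
      have hx2 := (mem_BL h r x).1 hx
      exact ⟨⟨x, hx2.1⟩, (hA _).2 hx, rfl⟩
  have hAcard : A.card = (BL h r).card := by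
    rw [← himg, Finset.card_image_of_injective A hval]
  have hAne : A.Nonempty := by
    rw [← Finset.card_pos, hAcard]
    exact hne.card_pos
  have hA0 : (0 : ℝ) < A.card := by exact_mod_cast hAne.card_pos
  have hAA : ((A + A).card : ℝ) ≤ K * (A.card : ℝ) := by
    have h1 : (A + A).card ≤ (BL h (2 * r)).card := by
      rw [← Finset.card_image_of_injective (A + A) hval]
      apply Finset.card_le_card
      intro x hx
      obtain ⟨z, hz, rfl⟩ := Finset.mem_image.1 hx
      obtain ⟨u, hu, w, hw, rfl⟩ := Finset.mem_add.1 hz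
      have hu2 := (mem_BL h r _).1 ((hA _).1 hu)
      have hw2 := (mem_BL h r _).1 ((hA _).1 hw)
      rw [mem_BL]
      refine ⟨(Lh h).add_mem hu2.1 hw2.1, ?_⟩
      rw [AddSubgroup.coe_add, map_add]
      have := norm_add_le (toE (u : Fin (128 * q) → ℤ)) (toE (w : Fin (128 * q) → ℤ))
      linarith [hu2.2, hw2.2]
    calc ((A + A).card : ℝ) ≤ ((BL h (2 * r)).card : ℝ) := by exact_mod_cast h1
      _ ≤ 258 ^ (128 * q) * ((BL h r).card : ℝ) := hup
      _ ≤ K * ((BL h r).card : ℝ) := mul_le_mul_of_nonneg_right hK (Nat.cast_nonneg _)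
      _ = K * (A.card : ℝ) := by rw [hAcard]
  refine ⟨Lh h, (A : Set (Lh h)), Finset.finite_toSet _, by exact_mod_cast hAne, ?_, ?_⟩
  · rw [← Finset.coe_add, Set.ncard_coe_finset, Set.ncard_coe_finset]
    exact hAA
  · intro d a v N hor
    by_contra hcon
    push Not at hcon
    have hint : ((A : Set (Lh h)) ∩ prog a v N).ncard = (A ∩ prF a v N).card := by
      rw [← coe_prF, ← Finset.coe_inter, Set.ncard_coe_finset]
    rw [hint, Set.ncard_coe_finset, inv_mul_eq_div, div_le_iff₀ hT0] at hcon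
    replace hcon : (A.card : ℝ) ≤ T * ((A ∩ prF a v N).card : ℝ) :=
      hcon.trans (le_of_eq (mul_comm _ _))
    have hAP : (0 : ℝ) < ((A ∩ prF a v N).card : ℝ) := by
      by_contra h0
      have h1 : ((A ∩ prF a v N).card : ℝ) = 0 := le_antisymm (not_lt.1 h0) (Nat.cast_nonneg _)
      rw [h1, mul_zero] at hcon
      linarith
    have hN1 : ∀ i, 1 ≤ N i := by
      intro i
      have h1 : 0 < (A ∩ prF a v N).card := by exact_mod_cast hAP
      obtain ⟨x, hx⟩ := Finset.card_pos.1 h1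
      obtain ⟨k, hk, -⟩ := Finset.mem_image.1 (Finset.mem_inter.1 hx).2
      have := (mem_box N k).1 hk i
      omega
    have hset : ∀ x : Lh h, {k : Fin d → ℕ | (∀ i, k i < N i) ∧ x + ∑ i, k i • v i ∈
        (A : Set (Lh h))}.ncard = ((box N).filter (fun k => x + ∑ i, k i • v i ∈ A)).card := by
      intro x
      rw [← Set.ncard_coe_finset]
      congr 1
      ext k
      rw [Finset.coe_filter, Set.mem_ofPred_eq, Set.mem_ofPred_eq, mem_box, Finset.mem_coe]
    obtain ⟨x, hx⟩ := dens a v N hN1 A K T hT hK1 hAne hAA hcon (by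
      rcases hor with h | h | ⟨h', h⟩ | ⟨B, hB1, hB2, hB3⟩ | ⟨x, h⟩
      · left
        rw [Set.ncard_coe_finset] at h
        exact h
      · right; left
        rw [← coe_prF, ← Finset.coe_add, Set.ncard_coe_finset, Set.ncard_coe_finset] at h
        exact h
      · right; right; left
        rw [← coe_prF, Set.ncard_coe_finset, Set.ncard_coe_finset] at h
        exact ⟨h', h⟩
      · right; right; right; left
        obtain ⟨B', rfl⟩ := ((Finset.finite_toSet A).subset hB1).exists_finset_coe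
        refine ⟨B', by exact_mod_cast hB1, ?_, ?_⟩
        · rw [Set.ncard_coe_finset, Set.ncard_coe_finset] at hB2
          exact hB2
        · rw [← coe_prF, ← Finset.coe_add, Set.ncard_coe_finset, Set.ncard_coe_finset] at hB3
          exact hB3
      · right; right; right; right
        rw [hset] at h
        exact ⟨x, h⟩)
    have h1 := hmain d (a : Fin (128 * q) → ℤ) (x : Fin (128 * q) → ℤ)
      (fun i => (v i : Fin (128 * q) → ℤ)) N (fun i => (v i).2) hN1
      ((A ∩ prF a v N).image Subtype.val) (by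
        intro y hy
        obtain ⟨z, hz, rfl⟩ := Finset.mem_image.1 hy
        exact (hA z).1 (Finset.mem_inter.1 hz).1) (by
        intro y hy
        obtain ⟨z, hz, rfl⟩ := Finset.mem_image.1 hy
        obtain ⟨k, hk, rfl⟩ := Finset.mem_image.1 (Finset.mem_inter.1 hz).2
        refine ⟨k, (mem_box N k).1 hk, ?_⟩
        rw [AddSubgroup.coe_add, AddSubgroup.val_finsetSum]
        congr 1)
      ((box N).filter (fun k => x + ∑ i, k i • v i ∈ A)) (by
        intro k hk
        obtain ⟨hk1, hk2⟩ := Finset.mem_filter.1 hk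
        refine ⟨(mem_box N k).1 hk1, ?_⟩
        have h2 := (hA _).1 hk2
        rw [AddSubgroup.coe_add, AddSubgroup.val_finsetSum] at h2
        exact h2) (hx.trans (mul_le_mul_of_nonneg_left hTU (Nat.cast_nonneg _)))
    rw [Finset.card_image_of_injective _ hval, ← hAcard] at h1
    have h2 : (A.card : ℝ) ≤ ((A ∩ prF a v N).card : ℝ) * U ^ q := by
      calc (A.card : ℝ) ≤ T * ((A ∩ prF a v N).card : ℝ) := by linarith
        _ ≤ U ^ q * ((A ∩ prF a v N).card : ℝ) :=
            mul_le_mul_of_nonneg_right hTUq (Nat.cast_nonneg _)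
        _ = _ := mul_comm _ _
    linarith

end H972P
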