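import Pool.Agent.R851.RR.Energy

set_option autoImplicit false

/-! A Hoelder inequality for sums of independent families, relative to a set. -/

open Finset

namespace H972P

open R851RR

variable {V : Type*} [AddCommGroup V]

lemma tauG_cs (g h e : AddMonoidAlgebra ℝ V) :
    tau (g * refl V h * (e * refl V e)) ^ 2 ≤
      tau (g * refl V g * (e * refl V e)) * tau (h * refl V h * (e * refl V e)) := by
  have := tau_cs (g * e) (h * e)
  rw [map_mul, map_mul] at this
  have h1 : g * e * (refl V h * refl V e) = g * refl V h * (e * refl V e) := by ring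
  have h2 : g * e * (refl V g * refl V e) = g * refl V g * (e * refl V e) := by ring
  have h3 : h * e * (refl V h * refl V e) = h * refl V h * (e * refl V e) := by ring
  rwa [h1, h2, h3] at this

lemma tauG_holder (e : AddMonoidAlgebra ℝ V) (he : Nn (e * refl V e)) (s : ℕ) :
    ∀ (F : ℕ → AddMonoidAlgebra ℝ V), (∀ t, refl V (F t) = F t) →
    (∀ t, Nn (F t)) →
    tau ((∏ t ∈ range (2 ^ s), F t) * (e * refl V e)) ^ (2 ^ s) ≤
      ∏ t ∈ range (2 ^ s), tau (F t ^ (2 ^ s) * (e * refl V e)) := by
  induction s with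
  | zero => intro F _ _; simp
  | succ s ih =>
    intro F hF hN
    have h2 : 2 ^ (s + 1) = 2 * 2 ^ s := by ring
    rw [h2, prod_pairs, prod_pairs]
    set m := 2 ^ s with hm
    have hG := ih (fun t => F (2 * t) * F (2 * t + 1))
      (fun t => by rw [map_mul, hF, hF]) (fun t => (hN _).mul (hN _))
    have hPn : Nn ((∏ t ∈ range m, (F (2 * t) * F (2 * t + 1))) * (e * refl V e)) := by
      refine Nn.mul ?_ he
      refine Finset.prod_induction _ Nn (fun a b => Nn.mul) Nn.one fun t _ => (hN _).mul (hN _)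
    have hnn : 0 ≤ tau ((∏ t ∈ range m, (F (2 * t) * F (2 * t + 1))) * (e * refl V e)) ^ m :=
      pow_nonneg (hPn 0) _
    calc tau ((∏ t ∈ range m, (F (2 * t) * F (2 * t + 1))) * (e * refl V e)) ^ (2 * m)
        = (tau ((∏ t ∈ range m, (F (2 * t) * F (2 * t + 1))) * (e * refl V e)) ^ m) ^ 2 := by
          rw [← pow_mul, mul_comm 2 m]
      _ ≤ (∏ t ∈ range m, tau ((F (2 * t) * F (2 * t + 1)) ^ m * (e * refl V e))) ^ 2 :=
          pow_le_pow_left₀ hnn hG 2
      _ = ∏ t ∈ range m, (tau ((F (2 * t) * F (2 * t + 1)) ^ m * (e * refl V e))) ^ 2 := by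
          rw [Finset.prod_pow]
      _ ≤ ∏ t ∈ range m, (tau (F (2 * t) ^ (2 * m) * (e * refl V e)) *
            tau (F (2 * t + 1) ^ (2 * m) * (e * refl V e))) := by
          refine Finset.prod_le_prod (fun t _ => sq_nonneg _) fun t _ => ?_
          have hr1 : refl V (F (2 * t) ^ m) = F (2 * t) ^ m := by rw [map_pow, hF]
          have hr2 : refl V (F (2 * t + 1) ^ m) = F (2 * t + 1) ^ m := by rw [map_pow, hF]
          have := tauG_cs (F (2 * t) ^ m) (F (2 * t + 1) ^ m) e
          rw [hr1, hr2, ← mul_pow, ← pow_add, ← pow_add] at this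
          rw [← two_mul m] at this
          exact this

/-- indicator of a finite set -/
noncomputable def ind (S : Finset V) : AddMonoidAlgebra ℝ V :=
  ∑ a ∈ S, AddMonoidAlgebra.single a (1 : ℝ)

lemma ind_mul_refl (S : Finset V) : ind S * refl V (ind S) =
    ∑ ab ∈ S ×ˢ S, AddMonoidAlgebra.single (ab.1 - ab.2) (1 : ℝ) := by
  unfold ind
  rw [map_sum, Finset.sum_mul_sum, ← Finset.sum_product']
  refine Finset.sum_congr rfl fun ab _ => ?_
  rw [refl_single, AddMonoidAlgebra.single_mul_single, mul_one, sub_eq_add_neg]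

omit [AddCommGroup V] in
lemma single_nn (x : V) (w : ℝ) (hw : 0 ≤ w) : Nn (AddMonoidAlgebra.single x w) := by
  classical
  intro y
  rw [AddMonoidAlgebra.coeff_single, Finsupp.single_apply]
  split_ifs
  · exact hw
  · exact le_rfl

omit [AddCommGroup V] in
lemma sum_nn {κ : Type*} (s : Finset κ) (f : κ → AddMonoidAlgebra ℝ V) (h : ∀ i ∈ s, Nn (f i)) :
    Nn (∑ i ∈ s, f i) := by
  intro x
  rw [AddMonoidAlgebra.coeff_sum, Finsupp.finsetSum_apply]
  exact Finset.sum_nonneg fun i hi => h i hi x

lemma ind_nn (S : Finset V) : Nn (ind S * refl V (ind S)) := by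
  rw [ind_mul_refl]
  exact sum_nn _ _ fun ab _ => single_nn _ _ zero_le_one

open Classical in
/-- number of representations of `-x` as a difference -/
noncomputable def rr (S : Finset V) (x : V) : ℕ :=
  ((S ×ˢ S).filter (fun ab : V × V => x + (ab.1 - ab.2) = 0)).card

lemma tau_single_ind (S : Finset V) (x : V) (w : ℝ) :
    tau (AddMonoidAlgebra.single x w * (ind S * refl V (ind S))) = w * (rr S x : ℝ) := by
  classical
  rw [ind_mul_refl, Finset.mul_sum]
  have h1 : ∀ ab ∈ S ×ˢ S, AddMonoidAlgebra.single x w *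
      AddMonoidAlgebra.single (ab.1 - ab.2) (1 : ℝ) =
      AddMonoidAlgebra.single (x + (ab.1 - ab.2)) w := by
    intro ab _
    rw [AddMonoidAlgebra.single_mul_single, mul_one]
  rw [Finset.sum_congr rfl h1, tau_sum]
  unfold tau rr
  simp only [AddMonoidAlgebra.coeff_single, Finsupp.single_apply]
  rw [← Finset.sum_filter, Finset.sum_const, nsmul_eq_mul, mul_comm]

lemma rr_le (S : Finset V) (x : V) : rr S x ≤ S.card := by
  classical
  unfold rr
  refine Finset.card_le_card_of_injOn (fun ab => ab.1) ?_ ?_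
  · intro ab hab
    simp only [Finset.coe_filter, Set.mem_ofPred_eq, Finset.mem_product] at hab
    exact hab.1.1
  · intro ab hab cd hcd h
    simp only [Finset.coe_filter, Set.mem_ofPred_eq, Finset.mem_product] at hab hcd
    simp only at h
    ext
    · exact h
    · have h1 := hab.2
      have h2 := hcd.2
      rw [← h] at h2
      have : x + (ab.1 - ab.2) = x + (ab.1 - cd.2) := by rw [h1, h2]
      simpa using this

lemma rr_eq_zero (S : Finset V) (x : V) (hx : ∀ a ∈ S, ∀ b ∈ S, x ≠ b - a) : rr S x = 0 := by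
  classical
  unfold rr
  rw [Finset.card_eq_zero, Finset.filter_eq_empty_iff]
  intro ab hab h
  rw [Finset.mem_product] at hab
  apply hx ab.1 hab.1 ab.2 hab.2
  have : x = -(ab.1 - ab.2) := eq_neg_of_add_eq_zero_left h
  rw [this]; abel

lemma le_rr (S T : Finset V) (x : V) (h1 : T ⊆ S) (h2 : ∀ t ∈ T, x + t ∈ S) :
    T.card ≤ rr S x := by
  classical
  unfold rr
  refine Finset.card_le_card_of_injOn (fun t => (t, x + t)) ?_ ?_
  · intro t ht
    simp only [Finset.coe_filter, Set.mem_ofPred_eq, Finset.mem_product]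
    exact ⟨⟨h1 ht, h2 t ht⟩, by abel⟩
  · intro t _ t' _ h
    simp only [Prod.mk.injEq] at h
    exact h.1

lemma tau_ind (S : Finset V) : tau (ind S * refl V (ind S)) = S.card := by
  classical
  have h := tau_single_ind S 0 1
  rw [← AddMonoidAlgebra.one_def, one_mul, one_mul] at h
  rw [h]
  have h2 : rr S 0 = S.card := le_antisymm (rr_le S 0) (le_rr S S 0 (le_refl _) (by simp))
  rw [h2]

open Classical in
/-- the power of a product of kernels against a set -/
lemma tau_ker_pow {κ : Type*} [Fintype κ] [DecidableEq κ] (u : κ → V) (m : ℕ) (S : Finset V) :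
    tau ((∏ i, ker (u i)) ^ m * (ind S * refl V (ind S))) ≤
      (((Nat.centralBinom m : ℕ) : ℝ)) ^ (Fintype.card κ) * (S.card : ℝ) *
      ((((Fintype.piFinset fun _ : κ => range (2 * m + 1)).filter
        (fun p => ∃ a ∈ S, ∃ b ∈ S, ∑ i, ((p i : ℤ) - (m : ℤ)) • u i = b - a)).card : ℕ) : ℝ) := by
  classical
  rw [← Finset.prod_pow]
  simp_rw [ker_pow]
  rw [Finset.prod_univ_sum]
  have h1 : ∀ p : κ → ℕ, ∏ i, AddMonoidAlgebra.single (((p i : ℤ) - (m : ℤ)) • u i)
      (((2 * m).choose (p i) : ℕ) : ℝ) =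
      AddMonoidAlgebra.single (∑ i, ((p i : ℤ) - (m : ℤ)) • u i)
        (∏ i, (((2 * m).choose (p i) : ℕ) : ℝ)) := by
    intro p
    rw [AddMonoidAlgebra.prod_single]
  simp_rw [h1]
  rw [Finset.sum_mul, tau_sum]
  simp_rw [tau_single_ind]
  rw [Finset.card_filter]
  push_cast
  rw [Finset.mul_sum]
  refine Finset.sum_le_sum fun p _ => ?_
  split_ifs with hp
  · rw [mul_one]
    refine mul_le_mul ?_ (by exact_mod_cast rr_le _ _) (by positivity) (by positivity)
    calc ∏ i, (((2 * m).choose (p i) : ℕ) : ℝ) ≤ ∏ _i : κ, ((Nat.centralBinom m : ℕ) : ℝ) := by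
          refine Finset.prod_le_prod (fun i _ => by positivity) fun i _ => ?_
          exact_mod_cast Nat.choose_le_centralBinom (p i) m
      _ = _ := by rw [Finset.prod_const, Finset.card_univ]
  · have : rr S (∑ i, ((p i : ℤ) - (m : ℤ)) • u i) = 0 := by
      apply rr_eq_zero
      intro a ha b hb h
      exact hp ⟨a, ha, b, hb, h⟩
    rw [this]
    simp

end H972P
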