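import Pool.Agent.helper972_pfr.Near

set_option autoImplicit false

/-! The lattice of integer vectors orthogonal modulo `p` to a vector; existence of a good one. -/

open Finset

namespace H972P

open Pool.Agent.R934.LB (toE toE_apply toE_inj sq_nonneg' norm_toE red red_add red_neg count_le
  coord_le)

/-- the integer vectors orthogonal to `h` modulo `p` -/
def Lh {n p : ℕ} (h : Fin n → ZMod p) : AddSubgroup (Fin n → ℤ) where
  carrier := {z | ∑ j, red p z j * h j = 0}
  zero_mem' := by simp [red]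
  add_mem' := by
    intro a b ha hb
    rw [Set.mem_ofPred_eq] at *
    rw [red_add]
    simp only [Pi.add_apply, add_mul, Finset.sum_add_distrib, ha, hb, add_zero]
  neg_mem' := by
    intro a ha
    rw [Set.mem_ofPred_eq] at *
    rw [red_neg]
    simp only [Pi.neg_apply, neg_mul, Finset.sum_neg_distrib, ha, neg_zero]

theorem mem_Lh {n p : ℕ} (h : Fin n → ZMod p) (z : Fin n → ℤ) :
    z ∈ Lh h ↔ ∑ j, red p z j * h j = 0 := Iff.rfl

/-- all integer vectors in a ball -/
noncomputable def Bn (n : ℕ) (R : ℝ) : Finset (Fin n → ℤ) := by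
  classical
  exact (Fintype.piFinset fun _ : Fin n => Finset.Icc (-⌈R⌉) ⌈R⌉).filter (fun z => ‖toE z‖ ≤ R)

theorem mem_Bn {n : ℕ} (R : ℝ) (z : Fin n → ℤ) : z ∈ Bn n R ↔ ‖toE z‖ ≤ R := by
  unfold Bn
  rw [Finset.mem_filter, Fintype.mem_piFinset]
  constructor
  · exact fun h => h.2
  · intro h
    refine ⟨fun i => ?_, h⟩
    have h1 : ((z i : ℝ)) ^ 2 ≤ R ^ 2 := by
      have h2 := coord_le z i
      have h3 := norm_toE z
      have h4 : ‖toE z‖ ^ 2 ≤ R ^ 2 := pow_le_pow_left₀ (norm_nonneg _) h 2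
      rw [h3] at h4
      have h5 : ((z i : ℝ)) ^ 2 ≤ (sqn z : ℝ) := by exact_mod_cast h2
      exact h5.trans h4
    have hR : 0 ≤ R := (norm_nonneg _).trans h
    have h6 := abs_le.1 (abs_le_of_sq_le_sq h1 hR)
    rw [Finset.mem_Icc]
    constructor
    · have : (-(⌈R⌉ : ℝ)) ≤ (z i : ℝ) := by linarith [Int.le_ceil R, h6.1]
      exact_mod_cast this
    · have : ((z i : ℝ)) ≤ (⌈R⌉ : ℝ) := h6.2.trans (Int.le_ceil R)
      exact_mod_cast this

open Classical in
/-- the vectors of the lattice in a ball -/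
noncomputable def BL {n p : ℕ} (h : Fin n → ZMod p) (R : ℝ) : Finset (Fin n → ℤ) :=
  (Bn n R).filter (fun z => z ∈ Lh h)

theorem mem_BL {n p : ℕ} (h : Fin n → ZMod p) (R : ℝ) (z : Fin n → ℤ) :
    z ∈ BL h R ↔ z ∈ Lh h ∧ ‖toE z‖ ≤ R := by
  classical
  unfold BL
  rw [Finset.mem_filter, mem_Bn, and_comm]

/-- the number of lattices containing given independent vectors -/
theorem card_tuple {n p D R : ℕ} [hp : Fact p.Prime] (x : Fin D → Fin n → ℤ)
    (hx : LinearIndependent ℝ (fun i => toE (x i))) (hR : ∀ i, sqn (x i) ≤ R)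
    (hpR : D.factorial * R ^ D < p) :
    ((Finset.univ : Finset (Fin n → ZMod p)).filter
      (fun h => ∀ i, ∑ j, red p (x i) j * h j = 0)).card * p ^ D = p ^ n :=
  card_ann _ (indep_mod x hx hR hpR)

/-- the tuples for which a lattice is bad -/
noncomputable def Tup (n q f : ℕ) (R₀ t₀ : ℝ) :
    Finset ((Fin f → Fin n → ℤ) × (Fin q → Fin n → ℤ)) := by
  classical
  exact ((Fintype.piFinset fun _ : Fin f => Bn n R₀) ×ˢ
    (Fintype.piFinset fun _ : Fin q => Bn n R₀)).filter (fun w =>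
      LinearIndependent ℝ (Sum.elim (fun i => toE (w.1 i)) (fun j => toE (w.2 j))) ∧
      ∀ j, ∃ u ∈ Submodule.span ℝ (Set.range fun i => toE (w.1 i)), ‖toE (w.2 j) - u‖ ≤ t₀)

theorem card_Tup (n q f : ℕ) (hn : 1 ≤ n) (R₀ t₀ : ℝ) (hR : 0 < R₀) (ht : 0 < t₀) :
    ((Tup n q f R₀ t₀).card : ℝ) ≤ ((15 * (1 + R₀ / (2 * Real.sqrt n))) ^ n) ^ f *
      ((2 * (R₀ / t₀) + 1) ^ f * (15 * (1 + 3 * t₀ / (2 * Real.sqrt n))) ^ n) ^ q := by
  classical
  set NF : ℝ := (2 * (R₀ / t₀) + 1) ^ f * (15 * (1 + 3 * t₀ / (2 * Real.sqrt n))) ^ n with hNF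
  have hNF0 : 0 ≤ NF := by positivity
  have hBn : ((Bn n R₀).card : ℝ) ≤ (15 * (1 + R₀ / (2 * Real.sqrt n))) ^ n := by
    apply ball_count hn R₀ hR 0
    intro z hz
    rw [map_zero, sub_zero]
    exact (mem_Bn _ _).1 hz
  -- fibres over the first component
  have hfib : ∀ z : Fin f → Fin n → ℤ,
      (((Tup n q f R₀ t₀).filter (fun w => w.1 = z)).card : ℝ) ≤ NF ^ q := by
    intro z
    set Nr := (Bn n R₀).filter (fun y =>
      ∃ u ∈ Submodule.span ℝ (Set.range fun i => toE (z i)), ‖toE y - u‖ ≤ t₀) with hNr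
    have h1 : (Nr.card : ℝ) ≤ NF := by
      apply near_count hn f (Submodule.span ℝ (Set.range fun i => toE (z i))) _ R₀ t₀ hR.le ht
      · intro y hy
        rw [hNr, Finset.mem_filter] at hy
        exact (mem_Bn _ _).1 hy.1
      · intro y hy
        rw [hNr, Finset.mem_filter] at hy
        exact hy.2
      · have := finrank_range_le_card (R := ℝ) (fun i => toE (z i))
        simpa [Set.finrank] using this
    have h2 : ((Tup n q f R₀ t₀).filter (fun w => w.1 = z)).card ≤
        (Fintype.piFinset fun _ : Fin q => Nr).card := by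
      apply Finset.card_le_card_of_injOn (fun w => w.2)
      · intro w hw
        rw [Finset.coe_filter, Set.mem_ofPred_eq] at hw
        obtain ⟨hw, rfl⟩ := hw
        unfold Tup at hw
        rw [Finset.mem_filter, Finset.mem_product, Fintype.mem_piFinset,
          Fintype.mem_piFinset] at hw
        rw [Finset.mem_coe, Fintype.mem_piFinset]
        intro j
        rw [hNr, Finset.mem_filter]
        exact ⟨hw.1.2 j, hw.2.2 j⟩
      · intro w hw w' hw' h
        rw [Finset.coe_filter, Set.mem_ofPred_eq] at hw hw'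
        exact Prod.ext (hw.2.trans hw'.2.symm) h
    rw [Fintype.card_piFinset, Finset.prod_const, Finset.card_univ, Fintype.card_fin] at h2
    calc (((Tup n q f R₀ t₀).filter (fun w => w.1 = z)).card : ℝ) ≤ ((Nr.card ^ q : ℕ) : ℝ) := by
          exact_mod_cast h2
      _ = (Nr.card : ℝ) ^ q := by push_cast; rfl
      _ ≤ NF ^ q := pow_le_pow_left₀ (Nat.cast_nonneg _) h1 q
  have h3 : (Tup n q f R₀ t₀).card = ∑ z ∈ Fintype.piFinset (fun _ : Fin f => Bn n R₀),
      ((Tup n q f R₀ t₀).filter (fun w => w.1 = z)).card := by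
    apply Finset.card_eq_sum_card_fiberwise
    intro w hw
    rw [Finset.mem_coe] at hw
    unfold Tup at hw
    rw [Finset.mem_filter, Finset.mem_product] at hw
    exact hw.1.1
  rw [h3]
  push_cast
  calc ∑ z ∈ Fintype.piFinset (fun _ : Fin f => Bn n R₀),
        (((Tup n q f R₀ t₀).filter (fun w => w.1 = z)).card : ℝ)
      ≤ ∑ _z ∈ Fintype.piFinset (fun _ : Fin f => Bn n R₀), NF ^ q :=
        Finset.sum_le_sum fun z _ => hfib z
    _ = ((Bn n R₀).card : ℝ) ^ f * NF ^ q := by
        rw [Finset.sum_const, nsmul_eq_mul, Fintype.card_piFinset, Finset.prod_const,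
          Finset.card_univ, Fintype.card_fin]
        push_cast
        rfl
    _ ≤ _ := mul_le_mul_of_nonneg_right (pow_le_pow_left₀ (Nat.cast_nonneg _) hBn f)
        (by positivity)

end H972P
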