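import Pool.Agent.helper972_pfr.Ann

set_option autoImplicit false

/-! Integer points of a ball close to a subspace. -/

open Finset

namespace H972P

open Pool.Agent.R934.LB (toE toE_apply toE_inj sq_nonneg' norm_toE red count_le card_le_sep)

theorem ball_count {n : ℕ} (hn : 1 ≤ n) (t : ℝ) (ht : 0 < t) (c : Fin n → ℤ)
    (S : Finset (Fin n → ℤ)) (hS : ∀ z ∈ S, ‖toE z - toE c‖ ≤ t) :
    (S.card : ℝ) ≤ (15 * (1 + t / (2 * Real.sqrt n))) ^ n := by
  classical
  have hn0 : (0 : ℝ) < n := by exact_mod_cast hn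
  have hsq : 0 < Real.sqrt n := Real.sqrt_pos.2 hn0
  have h1 := count_le (n := n) (t / Real.sqrt n) (by positivity) (S.image (fun z => z - c)) (by
    intro z hz
    rw [Finset.mem_image] at hz
    obtain ⟨y, hy, rfl⟩ := hz
    rw [← norm_toE, map_sub]
    have h2 := hS y hy
    have h3 : (t / Real.sqrt n) ^ 2 * n = t ^ 2 := by
      rw [div_pow, Real.sq_sqrt hn0.le]
      field_simp
    rw [h3]
    exact pow_le_pow_left₀ (norm_nonneg _) h2 2)
  rw [Finset.card_image_of_injective _ (sub_left_injective)] at h1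
  convert h1 using 3
  field_simp

/-- `T` is `t₀`-separated for the map `φ`. -/
def SepS {n : ℕ} (φ : (Fin n → ℤ) → EE n) (t₀ : ℝ) (T : Finset (Fin n → ℤ)) : Prop :=
  ∀ y ∈ T, ∀ y' ∈ T, y ≠ y' → t₀ ≤ ‖φ y - φ y'‖

theorem near_count {n : ℕ} (hn : 1 ≤ n) (f : ℕ) (F : Submodule ℝ (EE n))
    (hF : Module.finrank ℝ F ≤ f) (R₀ t₀ : ℝ) (hR : 0 ≤ R₀) (ht : 0 < t₀)
    (S : Finset (Fin n → ℤ)) (hS1 : ∀ y ∈ S, ‖toE y‖ ≤ R₀)
    (hS2 : ∀ y ∈ S, ∃ w ∈ F, ‖toE y - w‖ ≤ t₀) :
    (S.card : ℝ) ≤ (2 * (R₀ / t₀) + 1) ^ f * (15 * (1 + 3 * t₀ / (2 * Real.sqrt n))) ^ n := by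
  classical
  set π : EE n →L[ℝ] EE n := F.starProjection with hπ
  have hdist : ∀ y ∈ S, ‖toE y - π (toE y)‖ ≤ t₀ := by
    intro y hy
    obtain ⟨w, hw, h1⟩ := hS2 y hy
    have h2 : toE y - π (toE y) = Fᗮ.starProjection (toE y - w) := by
      rw [map_sub, Submodule.starProjection_orthogonal_apply_eq_zero hw, sub_zero,
        Submodule.starProjection_orthogonal_val]
    rw [h2]
    exact (Submodule.norm_starProjection_apply_le _ _).trans h1
  -- a maximal separated subset
  set PP := S.powerset.filter (SepS (fun y => π (toE y)) t₀) with hPP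
  have hne : PP.Nonempty := ⟨∅, by
    rw [hPP, Finset.mem_filter, Finset.mem_powerset]
    exact ⟨Finset.empty_subset _, fun y hy => absurd hy (Finset.notMem_empty y)⟩⟩
  obtain ⟨T, hT, hTmax⟩ := Finset.exists_max_image PP Finset.card hne
  rw [hPP, Finset.mem_filter, Finset.mem_powerset] at hT
  obtain ⟨hTS, hTsep⟩ := hT
  have hcov : ∀ y ∈ S, ∃ y' ∈ T, ‖π (toE y) - π (toE y')‖ < t₀ := by
    intro y hy
    by_contra hcon
    push Not at hcon
    have hyT : y ∉ T := by
      intro h
      have := hcon y h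
      simp at this
      linarith
    have h1 : insert y T ∈ PP := by
      rw [hPP, Finset.mem_filter, Finset.mem_powerset]
      refine ⟨Finset.insert_subset hy hTS, ?_⟩
      intro a ha b hb hab
      rw [Finset.mem_insert] at ha hb
      rcases ha with rfl | ha
      · rcases hb with rfl | hb
        · exact absurd rfl hab
        · exact hcon b hb
      · rcases hb with rfl | hb
        · rw [norm_sub_rev]; exact hcon a ha
        · exact hTsep a ha b hb hab
    have h2 := hTmax _ h1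
    rw [Finset.card_insert_of_notMem hyT] at h2
    omega
  -- size of `T`
  have hTcard : (T.card : ℝ) ≤ (2 * (R₀ / t₀) + 1) ^ f := by
    set φ : (Fin n → ℤ) → F := fun y => ⟨(t₀⁻¹ : ℝ) • π (toE y),
      F.smul_mem _ (Submodule.starProjection_apply_mem _ _)⟩ with hφ
    have hsep : ∀ y ∈ T, ∀ y' ∈ T, y ≠ y' → 1 ≤ ‖φ y - φ y'‖ := by
      intro y hy y' hy' hne
      have h1 : ‖φ y - φ y'‖ = t₀⁻¹ * ‖π (toE y) - π (toE y')‖ := by
        rw [Submodule.coe_norm, Submodule.coe_sub]
        simp only [hφ]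
        rw [← smul_sub, norm_smul, Real.norm_eq_abs, abs_of_pos (by positivity)]
      rw [h1]
      have h2 := hTsep y hy y' hy' hne
      rw [inv_mul_eq_div, le_div_iff₀ ht]
      linarith
    have hinj : Set.InjOn φ T := by
      intro y hy y' hy' h
      by_contra hne
      have := hsep y hy y' hy' hne
      rw [h, sub_self, norm_zero] at this
      linarith
    have h1 := card_le_sep (T.image φ) (R₀ / t₀) (by positivity) (by
      intro c hc
      rw [Finset.mem_image] at hc
      obtain ⟨y, hy, rfl⟩ := hc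
      rw [Submodule.coe_norm]
      simp only [hφ]
      rw [norm_smul, Real.norm_eq_abs, abs_of_pos (by positivity), inv_mul_eq_div]
      refine div_le_div_of_nonneg_right ?_ ht.le
      exact (Submodule.norm_starProjection_apply_le _ _).trans (hS1 y (hTS hy))) (by
      intro c hc d hd hcd
      rw [Finset.mem_image] at hc hd
      obtain ⟨y, hy, rfl⟩ := hc
      obtain ⟨y', hy', rfl⟩ := hd
      exact hsep y hy y' hy' (fun h => hcd (by rw [h])))
    rw [Finset.card_image_of_injOn hinj] at h1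
    refine h1.trans (pow_le_pow_right₀ ?_ hF)
    have : 0 ≤ R₀ / t₀ := by positivity
    linarith
  have hle : S.card ≤ ∑ y' ∈ T, (S.filter (fun y => ‖toE y - toE y'‖ ≤ 3 * t₀)).card := by
    have h1 : S ⊆ T.biUnion (fun y' => S.filter (fun y => ‖toE y - toE y'‖ ≤ 3 * t₀)) := by
      intro y hy
      obtain ⟨y', hy', h2⟩ := hcov y hy
      rw [Finset.mem_biUnion]
      refine ⟨y', hy', ?_⟩
      rw [Finset.mem_filter]
      refine ⟨hy, ?_⟩
      have h3 : toE y - toE y' = (toE y - π (toE y)) + (π (toE y) - π (toE y')) -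
          (toE y' - π (toE y')) := by abel
      rw [h3]
      refine (norm_sub_le _ _).trans ?_
      have h4 := norm_add_le (toE y - π (toE y)) (π (toE y) - π (toE y'))
      linarith [hdist y hy, hdist y' (hTS hy')]
    exact (Finset.card_le_card h1).trans Finset.card_biUnion_le
  have h2 : ∀ y' ∈ T, ((S.filter (fun y => ‖toE y - toE y'‖ ≤ 3 * t₀)).card : ℝ) ≤
      (15 * (1 + 3 * t₀ / (2 * Real.sqrt n))) ^ n := by
    intro y' _
    apply ball_count hn (3 * t₀) (by positivity) y'
    intro z hz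
    exact (Finset.mem_filter.1 hz).2
  calc (S.card : ℝ) ≤ ∑ y' ∈ T, ((S.filter (fun y => ‖toE y - toE y'‖ ≤ 3 * t₀)).card : ℝ) := by
        exact_mod_cast hle
    _ ≤ ∑ _y' ∈ T, (15 * (1 + 3 * t₀ / (2 * Real.sqrt n))) ^ n := Finset.sum_le_sum h2
    _ = (T.card : ℝ) * (15 * (1 + 3 * t₀ / (2 * Real.sqrt n))) ^ n := by
        rw [Finset.sum_const, nsmul_eq_mul]
    _ ≤ _ := mul_le_mul_of_nonneg_right hTcard (by positivity)

end H972P
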