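import Pool.Agent.helper972_pfr.Fin

set_option autoImplicit false

/-! Explicit parameters: losses up to `K ^ (κ log log log K)`. -/

open Finset

namespace H972P

theorem two_pow_exp (n : ℕ) : (2 : ℝ) ^ n = Real.exp ((n : ℝ) * Real.log 2) := by
  rw [← Real.rpow_natCast, Real.rpow_def_of_pos (by norm_num), mul_comm]

theorem concl_pow (j q : ℕ) (hq : 2 ^ (2 ^ (2 * j + 210)) ≤ q) : Concl q ((2 : ℝ) ^ j) := by
  have hq1 : 1 ≤ q := le_trans (Nat.one_le_pow _ _ (by norm_num)) hq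
  obtain ⟨R, hR⟩ : ∃ R, R = (j + 2) * 2 ^ (j + 201) + j + 16 := ⟨_, rfl⟩
  have hj : j + 2 ≤ 2 ^ (j + 1) := by
    have h1 : j + 1 < 2 ^ (j + 1) := Nat.lt_two_pow_self
    omega
  have hR2 : R + 12 ≤ 2 ^ (2 * j + 203) := by
    have h1 : (j + 2) * 2 ^ (j + 201) ≤ 2 ^ (2 * j + 202) := by
      calc (j + 2) * 2 ^ (j + 201) ≤ 2 ^ (j + 1) * 2 ^ (j + 201) := Nat.mul_le_mul_right _ hj
        _ = 2 ^ (2 * j + 202) := by
            rw [← pow_add, show j + 1 + (j + 201) = 2 * j + 202 by omega]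
    have h2 : j + 28 ≤ 2 ^ (2 * j + 202) := by
      have h3 : (28 : ℕ) ≤ 2 ^ (j + 201) := by
        calc (28 : ℕ) ≤ 2 ^ 5 := by norm_num
          _ ≤ 2 ^ (j + 201) := Nat.pow_le_pow_right (by norm_num) (by omega)
      have h4 : j ≤ 2 ^ (j + 201) := by
        have := @Nat.lt_two_pow_self (j + 201)
        omega
      calc j + 28 ≤ 2 ^ (j + 201) + 2 ^ (j + 201) := by omega
        _ = 2 ^ (j + 202) := by rw [← two_mul, ← pow_succ']
        _ ≤ 2 ^ (2 * j + 202) := Nat.pow_le_pow_right (by norm_num) (by omega)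
    calc R + 12 = (j + 2) * 2 ^ (j + 201) + (j + 28) := by rw [hR]; ring
      _ ≤ 2 ^ (2 * j + 202) + 2 ^ (2 * j + 202) := Nat.add_le_add h1 h2
      _ = 2 ^ (2 * j + 203) := by rw [← two_mul, ← pow_succ']
  have hρ : (2063 * 2 ^ R) ^ 81 ≤ q := by
    refine le_trans ?_ hq
    calc (2063 * 2 ^ R) ^ 81 ≤ (2 ^ 12 * 2 ^ R) ^ 81 :=
          Nat.pow_le_pow_left (Nat.mul_le_mul_right _ (by norm_num)) _
      _ = 2 ^ ((R + 12) * 81) := by rw [← pow_add, ← pow_mul, add_comm 12 R]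
      _ ≤ 2 ^ (2 ^ (2 * j + 210)) := by
          refine Nat.pow_le_pow_right (by norm_num) ?_
          calc (R + 12) * 81 ≤ 2 ^ (2 * j + 203) * 2 ^ 7 := Nat.mul_le_mul hR2 (by norm_num)
            _ = 2 ^ (2 * j + 210) := by rw [← pow_add]
  refine build' ((2 : ℝ) ^ j) (one_le_pow₀ (by norm_num)) (j + 200) (2 ^ (j + 2)) (2 ^ R) q
    (Nat.one_le_pow _ _ (by norm_num)) (Nat.one_le_pow _ _ (by norm_num)) hq1 ?_ ?_ ?_ hρ
  · have h1 : ((2 : ℝ) ^ j) ^ 4 * 258 ^ 256 * 2 ^ 32 ≤ 2 ^ (4 * j + 2336) := by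
      calc ((2 : ℝ) ^ j) ^ 4 * 258 ^ 256 * 2 ^ 32 ≤ ((2 : ℝ) ^ j) ^ 4 * (2 ^ 9) ^ 256 * 2 ^ 32 := by
            refine mul_le_mul_of_nonneg_right ?_ (by positivity)
            refine mul_le_mul_of_nonneg_left ?_ (by positivity)
            exact pow_le_pow_left₀ (by norm_num) (by norm_num) _
        _ = 2 ^ (4 * j + 2336) := by
            rw [← pow_mul, ← pow_mul, ← pow_add, ← pow_add,
              show j * 4 + 9 * 256 + 32 = 4 * j + 2336 by omega]
    have h2 : (2 : ℝ) ^ (4 * j + 2336) < 2 ^ (12 * j + 2412) :=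
      pow_lt_pow_right₀ (by norm_num) (by omega)
    have h3 : (2 : ℝ) ^ (12 * j + 2412) ≤ (2 * ((2 ^ (j + 200) : ℕ) : ℝ) + 1) ^ 12 := by
      calc (2 : ℝ) ^ (12 * j + 2412) = (2 * 2 ^ (j + 200)) ^ 12 := by
            rw [← pow_succ', ← pow_mul, show (j + 200 + 1) * 12 = 12 * j + 2412 by omega]
        _ ≤ _ := by
            refine pow_le_pow_left₀ (by positivity) ?_ _
            push_cast
            linarith
    exact lt_of_le_of_lt h1 (lt_of_lt_of_le h2 h3)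
  · push_cast
    calc ((2 : ℝ) ^ j) ^ 2 * 2 ^ 32 = 2 ^ (2 * j + 32) := by
          rw [← pow_mul, ← pow_add, show j * 2 + 32 = 2 * j + 32 by omega]
      _ < 2 ^ (28 * j + 56) := pow_lt_pow_right₀ (by norm_num) (by omega)
      _ = _ := by
          rw [← pow_mul, show (j + 2) * 28 = 28 * j + 56 by omega]
  · push_cast
    have h1 : (2 : ℝ) * 2 ^ j * (2 ^ (j + 2)) ^ (128 * 2 ^ (j + 200)) * 129 ^ 64 ≤
        2 ^ ((j + 2) * (128 * 2 ^ (j + 200)) + j + 513) := by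
      calc (2 : ℝ) * 2 ^ j * (2 ^ (j + 2)) ^ (128 * 2 ^ (j + 200)) * 129 ^ 64
          ≤ 2 * 2 ^ j * (2 ^ (j + 2)) ^ (128 * 2 ^ (j + 200)) * (2 ^ 8) ^ 64 := by
            refine mul_le_mul_of_nonneg_left ?_ (by positivity)
            exact pow_le_pow_left₀ (by norm_num) (by norm_num) _
        _ = _ := by
            rw [← pow_mul, ← pow_mul, ← pow_succ', ← pow_add, ← pow_add,
              show j + 1 + (j + 2) * (128 * 2 ^ (j + 200)) + 8 * 64 =
                (j + 2) * (128 * 2 ^ (j + 200)) + j + 513 by omega]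
    have h2 : (j + 2) * (128 * 2 ^ (j + 200)) + j + 513 < R * 64 := by
      have h3 : 2 ^ (j + 201) = 2 * 2 ^ (j + 200) := by rw [← pow_succ']
      rw [hR, h3]
      have h4 : ((j + 2) * (2 * 2 ^ (j + 200)) + j + 16) * 64 =
          (j + 2) * (128 * 2 ^ (j + 200)) + 64 * j + 1024 := by ring
      omega
    refine lt_of_le_of_lt h1 ?_
    rw [← pow_mul]
    exact pow_lt_pow_right₀ (by norm_num) h2

theorem quant : ∃ κ : ℝ, 0 < κ ∧ ∃ K₁ : ℝ, ∀ K : ℝ, K₁ ≤ K → ∃ (q : ℕ) (U : ℝ), 1 ≤ U ∧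
    Concl q U ∧ 258 ^ (128 * q) ≤ K ∧ 1 ≤ K ^ (κ * Real.log (Real.log (Real.log K))) ∧
    (K ^ (κ * Real.log (Real.log (Real.log K)))) ^ 3 * K ≤ U ^ (2 * q) := by
  refine ⟨1 / 36864, by norm_num, Real.exp (Real.exp (Real.exp 12288)), fun K hK => ?_⟩
  have hK0 : 0 < K := (Real.exp_pos _).trans_le hK
  obtain ⟨L, hL⟩ : ∃ L, L = Real.log K := ⟨_, rfl⟩
  obtain ⟨M, hM⟩ : ∃ M, M = Real.log L := ⟨_, rfl⟩
  obtain ⟨l, hl⟩ : ∃ l, l = Real.log M := ⟨_, rfl⟩
  have hL1 : Real.exp (Real.exp 12288) ≤ L := by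
    rw [hL, Real.le_log_iff_exp_le hK0]; exact hK
  have hL0 : 0 < L := (Real.exp_pos _).trans_le hL1
  have hM1 : Real.exp 12288 ≤ M := by
    rw [hM, Real.le_log_iff_exp_le hL0]; exact hL1
  have hM0 : 0 < M := (Real.exp_pos _).trans_le hM1
  have hl1 : 12288 ≤ l := by
    rw [hl, Real.le_log_iff_exp_le hM0]; exact hM1
  have hMe : M = Real.exp l := by rw [hl, Real.exp_log hM0]
  have hLe : L = Real.exp M := by rw [hM, Real.exp_log hL0]
  have hKe : K = Real.exp L := by rw [hL, Real.exp_log hK0]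
  have hM2 : 12289 ≤ M := by
    have := Real.add_one_le_exp (12288 : ℝ)
    linarith
  have hlog2 : Real.log 2 ≤ 1 := by
    have := Real.log_two_lt_d9
    linarith
  have hlog2' : 1 / 2 ≤ Real.log 2 := by
    have := Real.log_two_gt_d9
    linarith
  -- `q`
  have hK1 : 1 ≤ K := by rw [hKe]; exact Real.one_le_exp hL0.le
  obtain ⟨q, hq1, hq2⟩ := exists_nat_pow_near hK1 (y := (258 : ℝ) ^ 128) (by norm_num)
  have hlogy : Real.log ((258 : ℝ) ^ 128) ≤ 768 := by
    rw [Real.log_pow]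
    have h1 : Real.log 258 ≤ 6 := by
      rw [Real.log_le_iff_le_exp (by norm_num)]
      have h2 : Real.exp 6 = (Real.exp 1) ^ 6 := by rw [← Real.exp_nat_mul]; norm_num
      rw [h2]
      have h3 := Real.exp_one_gt_d9
      calc (258 : ℝ) ≤ 2.7 ^ 6 := by norm_num
        _ ≤ _ := pow_le_pow_left₀ (by norm_num) (by linarith) 6
    push_cast
    linarith
  have hLq : L < (q + 1) * 768 := by
    have h1 : L < Real.log (((258 : ℝ) ^ 128) ^ (q + 1)) := by
      rw [hL]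
      exact Real.log_lt_log hK0 hq2
    rw [Real.log_pow] at h1
    push_cast at h1
    have h2 : (0 : ℝ) ≤ q + 1 := by positivity
    nlinarith
  have hL2 : 2 * (M / 2) ^ 2 ≤ L := by
    have h1 : Real.exp M = (Real.exp (M / 2)) ^ 2 := by
      rw [← Real.exp_nat_mul]; congr 1; push_cast; ring
    have h2 := Real.add_one_le_exp (M / 4)
    have h3 : Real.exp (M / 2) = (Real.exp (M / 4)) ^ 2 := by
      rw [← Real.exp_nat_mul]; congr 1; push_cast; ring
    have h4 : M / 2 * 3 ≤ Real.exp (M / 2) := by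
      rw [h3]
      nlinarith
    rw [hLe, h1]
    nlinarith
  have hLbig : 1536 ≤ L := by nlinarith
  have hqL : L / 1536 ≤ q := by linarith
  -- `j`
  obtain ⟨j, hj⟩ : ∃ j, j = ⌊l / 2⌋₊ := ⟨_, rfl⟩
  have hj1 : (j : ℝ) ≤ l / 2 := by rw [hj]; exact Nat.floor_le (by linarith)
  have hj2 : l / 2 - 1 < j := by rw [hj]; exact Nat.sub_one_lt_floor _
  have hj3 : l / 4 ≤ j := by linarith
  have hqe : ∀ e : ℕ, (e : ℝ) ≤ M / 2 → 2 ^ e ≤ q := by
    intro e heR
    have h1 : (2 : ℝ) ^ e ≤ q := by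
      have h3 : (e : ℝ) * Real.log 2 ≤ M / 2 := by
        have : (0 : ℝ) ≤ e := Nat.cast_nonneg _
        nlinarith
      have h4 : Real.exp (M / 2) ≤ L / 1536 := by
        have h5 : L = Real.exp (M / 2) * Real.exp (M / 2) := by
          rw [hLe, ← Real.exp_add]; congr 1; ring
        have h6 := Real.add_one_le_exp (M / 2)
        rw [h5, le_div_iff₀ (by norm_num)]
        refine mul_le_mul_of_nonneg_left ?_ (Real.exp_pos _).le
        linarith
      rw [two_pow_exp]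
      exact (Real.exp_le_exp.2 h3).trans (h4.trans hqL)
    exact_mod_cast h1
  have hpow : ((2 : ℝ) ^ (2 * j + 210)) ≤ M / 2 := by
    have h1 : (2 : ℝ) ^ (2 * j + 210) = Real.exp (((2 * j + 210 : ℕ) : ℝ) * Real.log 2) :=
      two_pow_exp _
    have h2 : ((2 * j + 210 : ℕ) : ℝ) * Real.log 2 ≤ l - 1 := by
      push_cast
      have h3 := Real.log_two_lt_d9
      have h4 : 2 * (j : ℝ) + 210 ≤ l + 210 := by linarith
      nlinarith
    have h5 : Real.exp (l - 1) ≤ M / 2 := by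
      rw [Real.exp_sub, hMe]
      have := Real.exp_one_gt_d9
      exact div_le_div_of_nonneg_left (Real.exp_pos l).le (by norm_num) (by linarith)
    rw [h1]
    exact (Real.exp_le_exp.2 h2).trans h5
  have hconcl : Concl q ((2 : ℝ) ^ j) := by
    apply concl_pow
    apply hqe
    rw [Nat.cast_pow, Nat.cast_ofNat]
    exact hpow
  clear hpow hqe
  refine ⟨q, (2 : ℝ) ^ j, one_le_pow₀ (by norm_num), hconcl, ?_, ?_, ?_⟩
  · rw [pow_mul]; exact hq1
  · rw [← hL, ← hM, ← hl]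
    exact Real.one_le_rpow hK1 (by positivity)
  · rw [← hL, ← hM, ← hl]
    have h1 : (K ^ (1 / 36864 * l)) ^ 3 * K = Real.exp ((3 * (1 / 36864 * l) + 1) * L) := by
      rw [Real.rpow_def_of_pos hK0, ← hL, ← Real.exp_nat_mul]
      rw [hKe]
      rw [← Real.exp_add]
      congr 1
      push_cast
      ring
    have h2 : ((2 : ℝ) ^ j) ^ (2 * q) = Real.exp (((j * (2 * q) : ℕ) : ℝ) * Real.log 2) := by
      rw [← pow_mul, two_pow_exp]
    rw [h1, h2]
    apply Real.exp_le_exp.2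
    push_cast
    have h3 : (3 * (1 / 36864 * l) + 1) ≤ l / 6144 := by linarith
    have h4 : (j : ℝ) * (2 * q) * Real.log 2 ≥ l / 4 * (2 * (L / 1536)) * (1 / 2) := by
      have h5 : l / 4 * (2 * (L / 1536)) ≤ (j : ℝ) * (2 * q) :=
        mul_le_mul hj3 (by linarith) (by positivity) (by positivity)
      exact mul_le_mul h5 hlog2' (by norm_num) (by positivity)
    calc (3 * (1 / 36864 * l) + 1) * L ≤ (l / 6144) * L := mul_le_mul_of_nonneg_right h3 hL0.le
      _ = l / 4 * (2 * (L / 1536)) * (1 / 2) := by ring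
      _ ≤ _ := h4

end H972P
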