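import Pool.Agent.R934.LB.Pack

set_option autoImplicit false

/-! A shattered set of coefficient vectors whose images lie in a ball produces lattice vectors
close to a subspace spanned by few short lattice vectors. -/

open Finset

namespace H972P

open Pool.Agent.R934.LB (toE toE_apply toE_inj)

/-- Euclidean space -/
abbrev EE (n : ℕ) : Type := EuclideanSpace ℝ (Fin n)

/-- no `q` vectors of `L` within `t₀` of a space spanned by at most `fmax` short vectors of `L` -/
def Good {n : ℕ} (L : AddSubgroup (Fin n → ℤ)) (fmax q : ℕ) (R₀ t₀ : ℝ) : Prop :=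
  ∀ f : ℕ, f ≤ fmax → ∀ (z : Fin f → Fin n → ℤ) (y : Fin q → Fin n → ℤ),
    (∀ i, z i ∈ L) → (∀ j, y j ∈ L) → (∀ i, ‖toE (z i)‖ ≤ R₀) → (∀ j, ‖toE (y j)‖ ≤ R₀) →
    LinearIndependent ℝ (Sum.elim (fun i => toE (z i)) (fun j => toE (y j))) →
    ∃ j, ∀ w ∈ Submodule.span ℝ (Set.range fun i => toE (z i)), t₀ < ‖toE (y j) - w‖

lemma par {E : Type*} [NormedAddCommGroup E] [InnerProductSpace ℝ E] (A w : E) :
    ‖A + (1 / 2 : ℝ) • w‖ ^ 2 + 1 / 4 * ‖w‖ ^ 2 = 1 / 2 * ‖A‖ ^ 2 + 1 / 2 * ‖A + w‖ ^ 2 := by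
  rw [norm_add_sq_real, norm_add_sq_real, norm_smul, inner_smul_right, mul_pow]
  norm_num
  ring

/-- a parallelepiped has a vertex far from the origin -/
lemma exists_vertex {E : Type*} [NormedAddCommGroup E] [InnerProductSpace ℝ E] {κ : Type*}
    (s : Finset κ) (u : κ → E) : ∀ c : E, ∃ η ⊆ s,
      ‖c + (1 / 2 : ℝ) • ∑ i ∈ s, u i‖ ^ 2 + 1 / 4 * ∑ i ∈ s, ‖u i‖ ^ 2 ≤
        ‖c + ∑ i ∈ η, u i‖ ^ 2 := by
  classical
  induction s using Finset.induction_on with
  | empty => intro c; exact ⟨∅, by simp, by simp⟩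
  | insert j s hj ih =>
    intro c
    rw [Finset.sum_insert hj, Finset.sum_insert hj]
    set A := c + (1 / 2 : ℝ) • ∑ i ∈ s, u i with hA
    set B := (c + u j) + (1 / 2 : ℝ) • ∑ i ∈ s, u i with hB
    have hAB : B = A + u j := by rw [hA, hB]; abel
    have hmid : c + (1 / 2 : ℝ) • (u j + ∑ i ∈ s, u i) = A + (1 / 2 : ℝ) • u j := by
      rw [hA, smul_add]; abel
    have hpar : ‖A + (1 / 2 : ℝ) • u j‖ ^ 2 + 1 / 4 * ‖u j‖ ^ 2 =
        1 / 2 * ‖A‖ ^ 2 + 1 / 2 * ‖B‖ ^ 2 := by
      rw [hAB]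
      exact par A (u j)
    rw [hmid]
    rcases le_total (‖A‖ ^ 2) (‖B‖ ^ 2) with h | h
    · obtain ⟨η, hη, h2⟩ := ih (c + u j)
      refine ⟨insert j η, Finset.insert_subset_insert _ hη, ?_⟩
      rw [Finset.sum_insert (fun h => hj (hη h)), ← add_assoc]
      rw [← hB] at h2
      linarith
    · obtain ⟨η, hη, h2⟩ := ih c
      refine ⟨η, hη.trans (Finset.subset_insert _ _), ?_⟩
      rw [← hA] at h2
      linarith

theorem shat {n q fmax : ℕ} {κ : Type*} [Fintype κ] [DecidableEq κ]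
    (L : AddSubgroup (Fin n → ℤ)) (g : κ → Fin n → ℤ) (s : Finset κ) (hg : ∀ i ∈ s, g i ∈ L)
    (hs : s.card ≤ fmax + 2 * q) (hli : LinearIndepOn ℝ (fun i => toE (g i)) (s : Set κ))
    (X : Finset (κ → ℤ)) (hX2 : ∀ c ∈ X, ∀ c' ∈ X, ∀ i, i ∉ s → c i = c' i)
    (x : EE n) (ρ t₀ : ℝ) (hball : ∀ c ∈ X, ‖toE (∑ i, c i • g i) - x‖ ≤ ρ)
    (hρ : 0 ≤ ρ) (ht0 : 0 < t₀) (ht : 4 * ρ ^ 2 ≤ q * t₀ ^ 2)
    (hGood : Good L fmax q (4 * ρ) t₀)
    (J : Finset κ) (hJ : J.card = 2 * q) (a b : κ → ℤ) (hab : ∀ i ∈ J, a i ≠ b i)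
    (hpat : ∀ η ⊆ J, ∃ c ∈ X, ∀ i ∈ J, c i = if i ∈ η then b i else a i) : False := by
  classical
  choose! X0 hX0 hX0p using hpat
  -- the maps
  set P : (κ → ℤ) → EE n := fun c => toE (∑ i, c i • g i) with hP
  have hPsub : ∀ c c', P (c - c') = P c - P c' := by
    intro c c'
    simp only [hP, ← map_sub]
    congr 1
    rw [← Finset.sum_sub_distrib]
    refine Finset.sum_congr rfl fun i _ => ?_
    rw [Pi.sub_apply, sub_smul]
  have hPreal : ∀ c, P c = ∑ i, (c i : ℝ) • toE (g i) := by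
    intro c
    simp only [hP, map_sum, map_zsmul]
    refine Finset.sum_congr rfl fun i _ => ?_
    rw [Int.cast_smul_eq_zsmul]
  -- differences
  set D : κ → Finset κ → (κ → ℤ) := fun j η => X0 (insert j η) - X0 η with hD
  set S : κ → Finset κ → (κ → ℤ) := fun j η => D j η - D j ∅ with hS
  have hDP : ∀ j η, P (D j η) = P (X0 (insert j η)) - P (X0 η) := fun j η => hPsub _ _
  have hSP : ∀ j η, P (S j η) = P (D j η) - P (D j ∅) := fun j η => hPsub _ _
  have hins : ∀ j ∈ J, ∀ η ⊆ J, insert j η ⊆ J := fun j hj η hη =>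
    Finset.insert_subset hj hη
  have hDs : ∀ j ∈ J, ∀ η ⊆ J, ∀ i, i ∉ s → D j η i = 0 := by
    intro j hj η hη i hi
    simp only [hD, Pi.sub_apply]
    rw [hX2 _ (hX0 _ (hins j hj η hη)) _ (hX0 _ hη) i hi, sub_self]
  have hDJ : ∀ j ∈ J, ∀ η ⊆ J, j ∉ η → ∀ i ∈ J, D j η i = if i = j then b i - a i else 0 := by
    intro j hj η hη hjη i hi
    simp only [hD, Pi.sub_apply]
    rw [hX0p _ (hins j hj η hη) i hi, hX0p _ hη i hi]
    by_cases h : i = j
    · subst h; simp [hjη]
    · simp [h]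
  have hSs : ∀ j ∈ J, ∀ η ⊆ J, ∀ i, i ∉ s → S j η i = 0 := by
    intro j hj η hη i hi
    simp only [hS, Pi.sub_apply]
    rw [hDs j hj η hη i hi, hDs j hj ∅ (Finset.empty_subset _) i hi, sub_self]
  have hSJ : ∀ j ∈ J, ∀ η ⊆ J, j ∉ η → ∀ i ∈ J, S j η i = 0 := by
    intro j hj η hη hjη i hi
    simp only [hS, Pi.sub_apply]
    rw [hDJ j hj η hη hjη i hi, hDJ j hj ∅ (Finset.empty_subset _) (by simp) i hi, sub_self]
  -- norms
  have hXn : ∀ η ⊆ J, ‖P (X0 η) - x‖ ≤ ρ := fun η hη => hball _ (hX0 η hη)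
  have hDn : ∀ j ∈ J, ∀ η ⊆ J, ‖P (D j η)‖ ≤ 2 * ρ := by
    intro j hj η hη
    have h1 : P (D j η) = (P (X0 (insert j η)) - x) - (P (X0 η) - x) := by
      rw [hDP]; abel
    rw [h1]
    refine (norm_sub_le _ _).trans ?_
    linarith [hXn _ (hins j hj η hη), hXn η hη]
  have hSn : ∀ j ∈ J, ∀ η ⊆ J, ‖P (S j η)‖ ≤ 4 * ρ := by
    intro j hj η hη
    rw [hSP]
    refine (norm_sub_le _ _).trans ?_
    linarith [hDn j hj η hη, hDn j hj ∅ (Finset.empty_subset _)]
  -- the set of second differences and its span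
  set 𝒮 : Set (EE n) := {e | ∃ j ∈ J, ∃ η ⊆ J, j ∉ η ∧ e = P (S j η)} with h𝒮
  set F : Submodule ℝ (EE n) := Submodule.span ℝ 𝒮 with hF
  have haff : ∀ η ⊆ J, P (X0 η) - P (X0 ∅) - ∑ j ∈ η, P (D j ∅) ∈ F := by
    intro η
    induction η using Finset.induction_on with
    | empty => intro _; simp
    | insert j η hjη ih =>
      intro hη
      have hjJ : j ∈ J := hη (Finset.mem_insert_self _ _)
      have hηJ : η ⊆ J := (Finset.subset_insert _ _).trans hη
      rw [Finset.sum_insert hjη]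
      have h1 : P (X0 (insert j η)) - P (X0 ∅) - (P (D j ∅) + ∑ i ∈ η, P (D i ∅)) =
          (P (X0 η) - P (X0 ∅) - ∑ i ∈ η, P (D i ∅)) + P (S j η) := by
        rw [hSP, hDP j η]; abel
      rw [h1]
      exact F.add_mem (ih hηJ) (Submodule.subset_span ⟨j, hjJ, η, hηJ, hjη, rfl⟩)
  set Q : (EE n) →L[ℝ] (EE n) := Fᗮ.starProjection with hQ
  have hQF : ∀ w ∈ F, Q w = 0 := fun w hw =>
    Submodule.starProjection_orthogonal_apply_eq_zero hw
  set u : κ → EE n := fun j => Q (P (D j ∅)) with hu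
  have hall : ∀ η ⊆ J, ‖Q (P (X0 ∅) - x) + ∑ j ∈ η, u j‖ ≤ ρ := by
    intro η hη
    have h1 : Q (P (X0 η) - x) = Q (P (X0 ∅) - x) + ∑ j ∈ η, u j := by
      have h2 := hQF _ (haff η hη)
      rw [map_sub, map_sub, map_sum] at h2
      rw [map_sub, map_sub]
      have h3 : Q (P (X0 η)) = Q (P (X0 ∅)) + ∑ j ∈ η, u j := by
        have : Q (P (X0 η)) - Q (P (X0 ∅)) = ∑ j ∈ η, u j := sub_eq_zero.1 h2
        rw [← this]; abel
      rw [h3]; abel
    rw [← h1]
    exact (Submodule.norm_starProjection_apply_le _ _).trans (hXn η hη)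
  have hsum : ∑ j ∈ J, ‖u j‖ ^ 2 ≤ 4 * ρ ^ 2 := by
    obtain ⟨η, hη, h1⟩ := exists_vertex J u (Q (P (X0 ∅) - x))
    have h2 := hall η hη
    have h3 : ‖Q (P (X0 ∅) - x) + ∑ j ∈ η, u j‖ ^ 2 ≤ ρ ^ 2 :=
      pow_le_pow_left₀ (norm_nonneg _) h2 2
    have h4 := sq_nonneg ‖Q (P (X0 ∅) - x) + (1 / 2 : ℝ) • ∑ i ∈ J, u i‖
    linarith
  -- many small ones
  set J' := J.filter (fun j => ‖u j‖ ≤ t₀) with hJ'
  have hJ'card : q ≤ J'.card := by
    by_contra hcon
    push Not at hcon
    have h1 : J.card = J'.card + (J.filter (fun j => ¬ ‖u j‖ ≤ t₀)).card :=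
      (Finset.card_filter_add_card_filter_not (s := J) (fun j => ‖u j‖ ≤ t₀)).symm
    have h2 : q < (J.filter (fun j => ¬ ‖u j‖ ≤ t₀)).card := by omega
    have h3 : ((J.filter (fun j => ¬ ‖u j‖ ≤ t₀)).card : ℝ) * t₀ ^ 2 ≤ ∑ j ∈ J, ‖u j‖ ^ 2 := by
      calc _ = ∑ _j ∈ J.filter (fun j => ¬ ‖u j‖ ≤ t₀), t₀ ^ 2 := by
            rw [Finset.sum_const, nsmul_eq_mul]
        _ ≤ ∑ j ∈ J.filter (fun j => ¬ ‖u j‖ ≤ t₀), ‖u j‖ ^ 2 := by
            refine Finset.sum_le_sum fun j hj => ?_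
            rw [Finset.mem_filter] at hj
            exact pow_le_pow_left₀ ht0.le (not_le.1 hj.2).le 2
        _ ≤ _ := Finset.sum_le_sum_of_subset_of_nonneg (Finset.filter_subset _ _)
            (fun _ _ _ => by positivity)
    have h4 : (q : ℝ) * t₀ ^ 2 < ((J.filter (fun j => ¬ ‖u j‖ ≤ t₀)).card : ℝ) * t₀ ^ 2 :=
      mul_lt_mul_of_pos_right (by exact_mod_cast h2) (by positivity)
    linarith
  obtain ⟨J'', hJ''sub, hJ''card⟩ := Finset.exists_subset_card_eq hJ'card
  -- basis of `F`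
  obtain ⟨bs, hbs, hspan, hbli⟩ := exists_linearIndependent ℝ 𝒮
  have hbfin : Finite bs := hbli.finite
  have : Fintype bs := Fintype.ofFinite bs
  have hbS : ∀ e : bs, ∃ S' : κ → ℤ, (∀ i, i ∉ s → S' i = 0) ∧ (∀ i ∈ J, S' i = 0) ∧
      (e : EE n) = P S' ∧ ‖P S'‖ ≤ 4 * ρ := by
    intro e
    obtain ⟨j, hj, η, hη, hjη, he⟩ := hbs e.2
    exact ⟨S j η, hSs j hj η hη, hSJ j hj η hη hjη, he, hSn j hj η hη⟩
  choose Sb hSb1 hSb2 hSb3 hSb4 using hbS
  -- injectivity
  have hinj : ∀ w : κ → ℝ, (∀ i, i ∉ s → w i = 0) → ∑ i, w i • toE (g i) = 0 → ∀ i, w i = 0 := by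
    intro w hw h0 i
    by_cases hi : i ∈ s
    · rw [linearIndepOn_finset_iff] at hli
      refine hli w ?_ i hi
      rw [← h0]
      refine Finset.sum_subset (Finset.subset_univ s) fun j _ hj => ?_
      rw [hw j hj, zero_smul]
    · exact hw i hi
  -- joint independence
  have hjoint : LinearIndependent ℝ (Sum.elim (fun e : bs => (e : EE n))
      (fun j : J => P (D j ∅))) := by
    rw [Fintype.linearIndependent_iff]
    intro α hα
    rw [Fintype.sum_sum_type] at hα
    simp only [Sum.elim_inl, Sum.elim_inr] at hα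
    set w : κ → ℝ := fun i => ∑ e : bs, α (Sum.inl e) * (Sb e i : ℝ) +
      ∑ j : J, α (Sum.inr j) * (D j ∅ i : ℝ) with hw
    have h1 : ∑ i, w i • toE (g i) = 0 := by
      rw [← hα]
      have e1 : ∀ i, w i • toE (g i) = ∑ e : bs, α (Sum.inl e) • ((Sb e i : ℝ) • toE (g i)) +
          ∑ j : J, α (Sum.inr j) • ((D j ∅ i : ℝ) • toE (g i)) := by
        intro i
        rw [hw]
        simp only
        rw [add_smul, Finset.sum_smul, Finset.sum_smul]
        simp only [smul_smul]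
      rw [Finset.sum_congr rfl fun i _ => e1 i, Finset.sum_add_distrib]
      congr 1
      · rw [Finset.sum_comm]
        refine Finset.sum_congr rfl fun e _ => ?_
        rw [← Finset.smul_sum, ← hPreal, ← hSb3]
      · rw [Finset.sum_comm]
        refine Finset.sum_congr rfl fun j _ => ?_
        rw [← Finset.smul_sum, ← hPreal]
    have h2 := hinj w (by
      intro i hi
      rw [hw]
      simp only
      rw [Finset.sum_eq_zero, Finset.sum_eq_zero, add_zero]
      · intro j _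
        rw [hDs j j.2 ∅ (Finset.empty_subset _) i hi]; simp
      · intro e _
        rw [hSb1 e i hi]; simp) h1
    have h3 : ∀ j : J, α (Sum.inr j) = 0 := by
      intro j
      have h4 := h2 j
      rw [hw] at h4
      simp only at h4
      have h5 : ∑ e : bs, α (Sum.inl e) * (Sb e j : ℝ) = 0 := by
        refine Finset.sum_eq_zero fun e _ => ?_
        rw [hSb2 e j j.2]; simp
      have h6 : ∑ j' : J, α (Sum.inr j') * (D j' ∅ j : ℝ) =
          α (Sum.inr j) * ((b j - a j : ℤ) : ℝ) := by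
        rw [Finset.sum_eq_single j]
        · rw [hDJ j j.2 ∅ (Finset.empty_subset _) (by simp) j j.2, if_pos rfl]
        · intro j' _ hne
          rw [hDJ j' j'.2 ∅ (Finset.empty_subset _) (by simp) j j.2, if_neg]
          · simp
          · intro h; exact hne (Subtype.ext h.symm)
        · intro h; exact absurd (Finset.mem_univ _) h
      rw [h5, h6, zero_add] at h4
      rcases mul_eq_zero.1 h4 with h7 | h7
      · exact h7
      · exfalso
        have : b j - a j = 0 := by exact_mod_cast h7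
        exact hab j j.2 (by omega)
    have h4 : ∑ e : bs, α (Sum.inl e) • (e : EE n) = 0 := by
      rw [← hα]
      simp [h3]
    rintro (e | j)
    · rw [Fintype.linearIndependent_iff] at hbli
      exact hbli (fun e => α (Sum.inl e)) h4 e
    · exact h3 j
  -- cardinality
  have hf : Fintype.card bs ≤ fmax := by
    have h1 := finrank_span_eq_card hjoint
    have h2 : Submodule.span ℝ (Set.range (Sum.elim (fun e : bs => (e : EE n))
        (fun j : J => P (D j ∅)))) ≤
        Submodule.span ℝ (Set.range fun i : s => toE (g i)) := by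
      have h3 : ∀ c : κ → ℤ, (∀ i, i ∉ s → c i = 0) →
          P c ∈ Submodule.span ℝ (Set.range fun i : s => toE (g i)) := by
        intro c hc
        rw [hPreal]
        refine Submodule.sum_mem _ fun i _ => ?_
        by_cases hi : i ∈ s
        · exact Submodule.smul_mem _ _ (Submodule.subset_span ⟨⟨i, hi⟩, rfl⟩)
        · rw [hc i hi]; simp
      rw [Submodule.span_le]
      rintro _ ⟨(e | j), rfl⟩
      · simp only [Sum.elim_inl, SetLike.mem_coe]
        rw [hSb3]
        exact h3 _ (hSb1 e)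
      · simp only [Sum.elim_inr, SetLike.mem_coe]
        exact h3 _ (hDs j j.2 ∅ (Finset.empty_subset _))
    have h3 := Submodule.finrank_mono h2
    have h4 : Module.finrank ℝ (Submodule.span ℝ (Set.range fun i : s => toE (g i))) ≤ s.card := by
      have := finrank_range_le_card (R := ℝ) (fun i : s => toE (g i))
      simpa [Set.finrank] using this
    have h5 := h3.trans h4
    rw [h1, Fintype.card_sum, Fintype.card_coe, hJ] at h5
    omega
  -- apply the property
  set f := Fintype.card bs with hfdef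
  set eb : Fin f ≃ bs := (Fintype.equivFin bs).symm with heb
  have hJ''J : J'' ⊆ J := hJ''sub.trans (Finset.filter_subset _ _)
  set ej : Fin q ≃ J'' := (Finset.equivFinOfCardEq hJ''card).symm with hej
  set z : Fin f → Fin n → ℤ := fun l => ∑ i, Sb (eb l) i • g i with hz
  set y : Fin q → Fin n → ℤ := fun j => ∑ i, D (ej j : κ) ∅ i • g i with hy
  have hzP : ∀ l, toE (z l) = (eb l : EE n) := fun l => (hSb3 (eb l)).symm
  have hmem : ∀ c : κ → ℤ, (∀ i, i ∉ s → c i = 0) → ∑ i, c i • g i ∈ L := by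
    intro c hc
    refine AddSubgroup.sum_mem _ fun i _ => ?_
    by_cases hi : i ∈ s
    · exact AddSubgroup.zsmul_mem _ (hg i hi) _
    · rw [hc i hi, zero_smul]; exact L.zero_mem
  have hjJ : ∀ j : Fin q, (ej j : κ) ∈ J := fun j => hJ''J (ej j).2
  have hres := hGood f hf z y (fun l => hmem _ (hSb1 (eb l)))
    (fun j => hmem _ (hDs _ (hjJ j) ∅ (Finset.empty_subset _)))
    (fun l => hSb4 (eb l))
    (fun j => (hDn _ (hjJ j) ∅ (Finset.empty_subset _)).trans (by linarith))
    (by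
      have h1 := hjoint.comp (Sum.map (fun l : Fin f => eb l)
        (fun j : Fin q => (⟨(ej j : κ), hjJ j⟩ : J))) (by
          apply Sum.map_injective.2
          refine ⟨eb.injective, ?_⟩
          intro j j' h
          apply ej.injective
          apply Subtype.ext
          have := congrArg Subtype.val h
          exact this)
      convert h1 using 1
      funext i
      rcases i with l | j
      · simp only [Sum.elim_inl, Function.comp_apply, Sum.map_inl]
        exact hzP l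
      · rfl)
  obtain ⟨j, hj⟩ := hres
  have hFspan : Submodule.span ℝ (Set.range fun i => toE (z i)) = F := by
    rw [hF, ← hspan]
    congr 1
    ext e
    constructor
    · rintro ⟨l, rfl⟩
      simp only
      rw [hzP l]
      exact (eb l).2
    · intro he
      exact ⟨eb.symm ⟨e, he⟩, by simp only; rw [hzP]; simp⟩
  rw [hFspan] at hj
  have h1 := hj (F.starProjection (toE (y j))) (Submodule.starProjection_apply_mem _ _)
  have h2 : toE (y j) - F.starProjection (toE (y j)) = u (ej j) := by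
    rw [hu, hQ]
    simp only [Submodule.starProjection_orthogonal_val]
    rfl
  rw [h2] at h1
  have h3 : (ej j : κ) ∈ J' := hJ''sub (ej j).2
  rw [hJ', Finset.mem_filter] at h3
  linarith [h3.2]

end H972P
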