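import Pool.Agent.helper972_pfr.ExH
import Pool.Agent.R851.RR.Pack

set_option autoImplicit false

/-! The number of lattice points in balls. -/

open Finset

namespace H972P

open Pool.Agent.R934.LB (toE toE_apply toE_inj sq_nonneg' norm_toE red red_add red_neg red_sub
  count_le coord_le)

theorem ball_lower {n p : ℕ} [hp : Fact p.Prime] (h : Fin n → ZMod p) (m : ℕ) (hm : 1 ≤ m) :
    m ^ n ≤ (BL h (m * Real.sqrt n)).card * p := by
  classical
  set Q : Finset (Fin n → ℤ) := Fintype.piFinset fun _ : Fin n => Finset.Ico (0 : ℤ) m with hQ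
  have hQcard : Q.card = m ^ n := by
    rw [hQ, Fintype.card_piFinset]
    simp
  have hQne : Q.Nonempty := by
    rw [← Finset.card_pos, hQcard]
    positivity
  set c : (Fin n → ℤ) → ZMod p := fun z => ∑ j, red p z j * h j with hc
  obtain ⟨x₀, hx₀, hmax⟩ := Finset.exists_max_image Q
    (fun x => (Q.filter (fun y => c y = c x)).card) hQne
  have h1 := Finset.card_le_mul_card_image (f := c) Q ((Q.filter (fun y => c y = c x₀)).card) (by
    intro a ha
    obtain ⟨x, hx, rfl⟩ := Finset.mem_image.1 ha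
    exact hmax x hx)
  have h2 : (Q.image c).card ≤ p := by
    calc (Q.image c).card ≤ (Finset.univ : Finset (ZMod p)).card :=
          Finset.card_le_card (Finset.subset_univ _)
      _ = p := by rw [Finset.card_univ, ZMod.card]
  rw [hQcard] at h1
  refine h1.trans (Nat.mul_le_mul ?_ h2)
  apply Finset.card_le_card_of_injOn (fun z => z - x₀)
  · intro z hz
    rw [Finset.coe_filter, Set.mem_ofPred_eq] at hz
    rw [Finset.mem_coe, mem_BL]
    constructor
    · rw [mem_Lh, red_sub]
      simp only [Pi.sub_apply, sub_mul, Finset.sum_sub_distrib]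
      exact sub_eq_zero.2 hz.2
    · rw [hQ, Fintype.mem_piFinset] at hx₀
      have hz1 := hz.1
      rw [hQ, Fintype.mem_piFinset] at hz1
      have h3 : ‖toE (z - x₀)‖ ^ 2 ≤ (m * Real.sqrt n) ^ 2 := by
        rw [norm_toE, mul_pow, Real.sq_sqrt (Nat.cast_nonneg _)]
        have : sqn (z - x₀) ≤ (m : ℤ) ^ 2 * n := by
          unfold sqn Pool.Agent.R934.LB.sq
          calc ∑ i, (z - x₀) i ^ 2 ≤ ∑ i : Fin n, (m : ℤ) ^ 2 := by
                apply Finset.sum_le_sum
                intro i _
                have h1 := Finset.mem_Ico.1 (hz1 i)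
                have h2 := Finset.mem_Ico.1 (hx₀ i)
                rw [Pi.sub_apply]
                apply sq_le_sq'
                · linarith
                · linarith
            _ = (m : ℤ) ^ 2 * n := by
                rw [Finset.sum_const, Finset.card_univ, Fintype.card_fin, nsmul_eq_mul]
                ring
        exact_mod_cast this
      exact (pow_le_pow_iff_left₀ (norm_nonneg _) (by positivity) (by norm_num)).1 h3
  · intro x _ y _ h
    exact sub_left_injective h

theorem ball_upper {n p : ℕ} (h : Fin n → ZMod p) (l : ℝ) (hl : 0 < l)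
    (hmin : ∀ z ∈ Lh h, z ≠ 0 → l < ‖toE z‖) (R : ℝ) (hR : 0 ≤ R) :
    ((BL h R).card : ℝ) ≤ (2 * (R / l) + 1) ^ n := by
  classical
  set φ : (Fin n → ℤ) → EE n := fun z => (l⁻¹ : ℝ) • toE z with hφ
  have hinj : Function.Injective φ := by
    intro x y hxy
    have h1 : (l⁻¹ : ℝ) • (toE x - toE y) = 0 := by
      rw [smul_sub]
      exact sub_eq_zero.2 hxy
    have h2 : toE x - toE y = 0 := by
      rcases smul_eq_zero.1 h1 with h | h
      · exact absurd h (by positivity)
      · exact h
    exact toE_inj (sub_eq_zero.1 h2)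
  have h1 := R851RR.pack ((BL h R).image φ) (R / l) (by positivity) (by
    intro c hc
    obtain ⟨z, hz, rfl⟩ := Finset.mem_image.1 hc
    rw [mem_BL] at hz
    rw [hφ]
    simp only
    rw [norm_smul, Real.norm_eq_abs, abs_of_pos (by positivity), inv_mul_eq_div]
    exact div_le_div_of_nonneg_right hz.2 hl.le) (by
    intro c hc d hd hcd
    obtain ⟨z, hz, rfl⟩ := Finset.mem_image.1 hc
    obtain ⟨w, hw, rfl⟩ := Finset.mem_image.1 hd
    rw [mem_BL] at hz hw
    have hzw : z - w ≠ 0 := fun h => hcd (by rw [sub_eq_zero.1 h])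
    have h2 := hmin _ ((Lh h).sub_mem hz.1 hw.1) hzw
    rw [hφ]
    simp only
    rw [← smul_sub, norm_smul, Real.norm_eq_abs, abs_of_pos (by positivity), inv_mul_eq_div,
      ← map_sub, le_div_iff₀ hl, one_mul]
    exact h2.le)
  rw [Finset.card_image_of_injective _ hinj, finrank_euclideanSpace, Fintype.card_fin] at h1
  exact h1

theorem flat_upper {n p : ℕ} (h : Fin n → ZMod p) (l : ℝ) (hl : 0 < l)
    (hmin : ∀ z ∈ Lh h, z ≠ 0 → l < ‖toE z‖) (R : ℝ) (hR : 0 ≤ R)
    (W : Submodule ℚ (EE n)) [Module.Finite ℚ W] (D : ℕ) (hW : Module.finrank ℚ W ≤ D)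
    (x : EE n) (S : Finset (Fin n → ℤ)) (hS : ∀ y ∈ S, y ∈ BL h R)
    (hSW : ∀ y ∈ S, toE y - x ∈ W) :
    (S.card : ℝ) ≤ (4 * (R / l) + 1) ^ D := by
  classical
  set φ : (Fin n → ℤ) → EE n := fun z => (l⁻¹ : ℝ) • toE z with hφ
  have hinj : Function.Injective φ := by
    intro x y hxy
    have h1 : (l⁻¹ : ℝ) • (toE x - toE y) = 0 := by
      rw [smul_sub]
      exact sub_eq_zero.2 hxy
    have h2 : toE x - toE y = 0 := by
      rcases smul_eq_zero.1 h1 with h | h
      · exact absurd h (by positivity)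
      · exact h
    exact toE_inj (sub_eq_zero.1 h2)
  have h1 := R851RR.slice_bound (R / l) (by positivity) 0 (S.image φ) (by
    intro c hc
    obtain ⟨z, hz, rfl⟩ := Finset.mem_image.1 hc
    have hz2 := hS z hz
    rw [mem_BL] at hz2
    rw [dist_zero_right, hφ]
    simp only
    rw [norm_smul, Real.norm_eq_abs, abs_of_pos (by positivity), inv_mul_eq_div]
    exact div_le_div_of_nonneg_right hz2.2 hl.le) (by
    intro c hc d hd hcd
    obtain ⟨z, hz, rfl⟩ := Finset.mem_image.1 hc
    obtain ⟨w, hw, rfl⟩ := Finset.mem_image.1 hd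
    have hz2 := hS z hz
    have hw2 := hS w hw
    rw [mem_BL] at hz2 hw2
    have hzw : z - w ≠ 0 := fun h => hcd (by rw [sub_eq_zero.1 h])
    have h2 := hmin _ ((Lh h).sub_mem hz2.1 hw2.1) hzw
    rw [hφ, dist_eq_norm]
    simp only
    rw [← smul_sub, norm_smul, Real.norm_eq_abs, abs_of_pos (by positivity), inv_mul_eq_div,
      ← map_sub, le_div_iff₀ hl, one_mul]
    exact h2.le) (W.map (DistribSMul.toLinearMap ℚ (EE n) (l⁻¹ : ℝ))) ((l⁻¹ : ℝ) • x) (by
    intro c hc
    obtain ⟨z, hz, rfl⟩ := Finset.mem_image.1 hc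
    refine ⟨toE z - x, hSW z hz, ?_⟩
    show (l⁻¹ : ℝ) • (toE z - x) = φ z - (l⁻¹ : ℝ) • x
    rw [hφ, smul_sub])
  rw [Finset.card_image_of_injective _ hinj] at h1
  refine h1.trans (pow_le_pow_right₀ ?_ ((Submodule.finrank_map_le _ _).trans hW))
  have : 0 ≤ R / l := by positivity
  linarith

end H972P
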